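import Mathlib

/-!
Averaging operators of unitary representations of finite groups.
-/

namespace Q20.RankT

open Finset

variable {H : Type} [NormedAddCommGroup H] [InnerProductSpace ℂ H] [CompleteSpace H]


/-- The space of unitary operators. -/
noncomputable abbrev UH (H : Type) [NormedAddCommGroup H] [InnerProductSpace ℂ H] [CompleteSpace H] :=
  unitary (H →L[ℂ] H)

lemma U_mul (a b : UH H) (v : H) : ((a * b : UH H) : H →L[ℂ] H) v =
    (a : H →L[ℂ] H) ((b : H →L[ℂ] H) v) := rfl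

lemma U_one (v : H) : ((1 : UH H) : H →L[ℂ] H) v = v := rfl

lemma U_inner (a : UH H) (v w : H) : inner ℂ ((a : H →L[ℂ] H) v) ((a : H →L[ℂ] H) w) = inner ℂ v w := by
  rw [← ContinuousLinearMap.adjoint_inner_right]
  congr 1
  have h := Unitary.star_mul_self_of_mem a.2
  have : (star (a : H →L[ℂ] H)) ((a : H →L[ℂ] H) w) = w := by
    have h2 := congrArg (fun f : H →L[ℂ] H => f w) h
    exact h2
  exact this

lemma U_norm (a : UH H) (v : H) : ‖(a : H →L[ℂ] H) v‖ = ‖v‖ := by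
  have h := U_inner a v v
  rw [inner_self_eq_norm_sq_to_K, inner_self_eq_norm_sq_to_K] at h
  have h2 : ‖(a : H →L[ℂ] H) v‖ ^ 2 = ‖v‖ ^ 2 := by exact_mod_cast h
  exact (sq_eq_sq₀ (norm_nonneg _) (norm_nonneg _)).mp h2

section

variable {K : Type} [Group K] [Fintype K] (π : K →* UH H)

/-- The average of a vector. -/
noncomputable def avg (v : H) : H := (Fintype.card K : ℂ)⁻¹ • ∑ k, (π k : H →L[ℂ] H) v

lemma card_ne : (Fintype.card K : ℂ) ≠ 0 := by
  exact_mod_cast Fintype.card_ne_zero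

lemma avg_add (v w : H) : avg π (v + w) = avg π v + avg π w := by
  simp only [avg, map_add, Finset.sum_add_distrib, smul_add]

lemma avg_sub (v w : H) : avg π (v - w) = avg π v - avg π w := by
  simp only [avg, map_sub, Finset.sum_sub_distrib, smul_sub]

lemma π_avg (k : K) (v : H) : (π k : H →L[ℂ] H) (avg π v) = avg π v := by
  simp only [avg, map_smul, map_sum]
  congr 1
  have : ∀ x, (π k : H →L[ℂ] H) ((π x : H →L[ℂ] H) v) = (π (k * x) : H →L[ℂ] H) v := by
    intro x; rw [map_mul]; rfl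
  simp only [this]
  exact Fintype.sum_equiv (Equiv.mulLeft k) _ _ (fun x => rfl)

lemma avg_π (k : K) (v : H) : avg π ((π k : H →L[ℂ] H) v) = avg π v := by
  simp only [avg]
  congr 1
  have : ∀ x, (π x : H →L[ℂ] H) ((π k : H →L[ℂ] H) v) = (π (x * k) : H →L[ℂ] H) v := by
    intro x; rw [map_mul]; rfl
  simp only [this]
  exact Fintype.sum_equiv (Equiv.mulRight k) _ _ (fun x => rfl)

lemma avg_fixed {v : H} (hv : ∀ k, (π k : H →L[ℂ] H) v = v) : avg π v = v := by
  simp only [avg, hv, Finset.sum_const, Finset.card_univ]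
  rw [← Nat.cast_smul_eq_nsmul ℂ, smul_smul, inv_mul_cancel₀ card_ne, one_smul]

lemma avg_avg (v : H) : avg π (avg π v) = avg π v := avg_fixed π (fun k => π_avg π k v)

lemma avg_inner (v w : H) : inner ℂ (avg π v) w = inner ℂ v (avg π w) := by
  simp only [avg, inner_smul_left, inner_smul_right, sum_inner, inner_sum]
  have h1 : (starRingEnd ℂ) ((Fintype.card K : ℂ)⁻¹) = (Fintype.card K : ℂ)⁻¹ := by
    rw [map_inv₀, Complex.conj_natCast]
  rw [h1]
  congr 1
  refine Fintype.sum_equiv (Equiv.inv K) _ _ (fun x => ?_)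
  have h2 := U_inner (π x⁻¹) ((π x : H →L[ℂ] H) v) w
  rw [← h2]
  congr 1
  have : (π x⁻¹ : H →L[ℂ] H) ((π x : H →L[ℂ] H) v) = (π (x⁻¹ * x) : H →L[ℂ] H) v := by
    rw [map_mul]; rfl
  rw [this, inv_mul_cancel, map_one]
  rfl

lemma avg_norm_le (v : H) : ‖avg π v‖ ≤ ‖v‖ := by
  rw [avg, norm_smul]
  have h1 : ‖∑ k, (π k : H →L[ℂ] H) v‖ ≤ Fintype.card K * ‖v‖ := by
    refine (norm_sum_le _ _).trans ?_
    simp only [U_norm, Finset.sum_const, Finset.card_univ, nsmul_eq_mul]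
    exact le_rfl
  have h2 : ‖((Fintype.card K : ℂ)⁻¹)‖ = ((Fintype.card K : ℝ))⁻¹ := by
    rw [norm_inv, Complex.norm_natCast]
  rw [h2]
  have h3 : (0 : ℝ) < Fintype.card K := by exact_mod_cast Fintype.card_pos
  calc ((Fintype.card K : ℝ))⁻¹ * ‖∑ k, (π k : H →L[ℂ] H) v‖
      ≤ ((Fintype.card K : ℝ))⁻¹ * (Fintype.card K * ‖v‖) := by gcongr
    _ = ‖v‖ := by field_simp

/-- if a vector is almost fixed then it is close to its average -/
lemma avg_close {v : H} {ε : ℝ} (hv : ∀ k, ‖(π k : H →L[ℂ] H) v - v‖ ≤ ε) :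
    ‖v - avg π v‖ ≤ ε := by
  have h1 : v - avg π v = (Fintype.card K : ℂ)⁻¹ • ∑ k, (v - (π k : H →L[ℂ] H) v) := by
    rw [Finset.sum_sub_distrib, smul_sub, Finset.sum_const, Finset.card_univ,
      ← Nat.cast_smul_eq_nsmul ℂ, smul_smul, inv_mul_cancel₀ card_ne, one_smul]
    rfl
  rw [h1, norm_smul]
  have h2 : ‖∑ k, (v - (π k : H →L[ℂ] H) v)‖ ≤ Fintype.card K * ε := by
    refine (norm_sum_le _ _).trans ?_
    have h0 : ∑ k, ‖v - (π k : H →L[ℂ] H) v‖ ≤ ∑ _k : K, ε :=
      Finset.sum_le_sum (fun k _ => by rw [norm_sub_rev]; exact hv k)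
    refine h0.trans ?_
    simp only [Finset.sum_const, Finset.card_univ, nsmul_eq_mul]
    exact le_rfl
  have h3 : ‖((Fintype.card K : ℂ)⁻¹)‖ = ((Fintype.card K : ℝ))⁻¹ := by
    rw [norm_inv, Complex.norm_natCast]
  rw [h3]
  have h4 : (0 : ℝ) < Fintype.card K := by exact_mod_cast Fintype.card_pos
  calc ((Fintype.card K : ℝ))⁻¹ * ‖∑ k, (v - (π k : H →L[ℂ] H) v)‖
      ≤ ((Fintype.card K : ℝ))⁻¹ * (Fintype.card K * ε) := by gcongr
    _ = ε := by field_simp

/-- averages over a homomorphic pair -/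
lemma avg_comp {L : Type} [Group L] [Fintype L] (f : L →* K) (v : H) :
    avg π (avg (π.comp f) v) = avg π v := by
  have h1 : avg π (avg (π.comp f) v) = (Fintype.card L : ℂ)⁻¹ •
      ∑ l, avg π ((π (f l) : H →L[ℂ] H) v) := by
    have hsum : ∀ (s : Finset L) (g : L → H), avg π (∑ l ∈ s, g l) = ∑ l ∈ s, avg π (g l) := by
      intro s g
      simp only [avg, map_sum]
      rw [Finset.sum_comm, Finset.smul_sum]
    have hsm : ∀ (c : ℂ) (x : H), avg π (c • x) = c • avg π x := by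
      intro c x
      simp only [avg, map_smul, ← Finset.smul_sum]
      rw [smul_comm]
    conv_lhs => rw [show avg (π.comp f) v = (Fintype.card L : ℂ)⁻¹ •
      ∑ l, (π (f l) : H →L[ℂ] H) v from rfl]
    rw [hsm, hsum]
  rw [h1]
  simp only [avg_π, Finset.sum_const, Finset.card_univ]
  rw [← Nat.cast_smul_eq_nsmul ℂ, smul_smul, inv_mul_cancel₀ card_ne, one_smul]

lemma comp_avg {L : Type} [Group L] [Fintype L] (f : L →* K) (v : H) :
    avg (π.comp f) (avg π v) = avg π v :=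
  avg_fixed _ (fun l => π_avg π (f l) v)

end

end Q20.RankT
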