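import Mathlib

/-!
Finite fields of characteristic two with an involution.
-/

namespace Q20.RankT

open Finset

/-- A finite field of characteristic two with an involution whose fixed field has `q ≥ 4`
elements, together with the usual facts on norms and traces. -/
structure Inv (E : Type) [Field E] [Fintype E] [DecidableEq E] where
  σ : E →+* E
  q : ℕ
  invol : ∀ x, σ (σ x) = x
  two : (2 : E) = 0
  q4 : 4 ≤ q
  cardE : Fintype.card E = q ^ 2
  card_fix : (univ.filter (fun x : E => σ x = x)).card = q
  norm_fib : ∀ c : E, c ≠ 0 → σ c = c → (univ.filter (fun x : E => x * σ x = c)).card = q + 1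
  tr_fib : ∀ b : E, σ b = b → (univ.filter (fun x : E => x + σ x = b)).card = q

section

variable (E : Type) [Field E] [Fintype E] [DecidableEq E] 

lemma card_units : Nat.card Eˣ = Fintype.card E - 1 := by
  rw [Nat.card_eq_fintype_card, Fintype.card_units]

lemma gcd_aux {a : ℕ} (ha : 1 ≤ a) :
    (a ^ 2 - 1).gcd (a + 1) = a + 1 ∧ (a ^ 2 - 1).gcd (a - 1) = a - 1 := by
  have h : a ^ 2 - 1 = (a + 1) * (a - 1) := by
    obtain ⟨c, rfl⟩ := Nat.exists_eq_add_of_le ha
    rw [Nat.add_sub_cancel_left]
    have : (1 + c) ^ 2 = (1 + c + 1) * c + 1 := by ring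
    rw [this, Nat.add_sub_cancel]
  constructor
  · rw [h]; exact Nat.gcd_mul_right_left _ _
  · rw [h]; exact Nat.gcd_mul_left_left _ _

variable {E}

/-- number of solutions of `x ^ d = 1` in the units -/
lemma card_unit_pow (d : ℕ) (hd : 0 < d) (hdvd : (Fintype.card E - 1).gcd d = d) :
    (univ.filter (fun x : E => x ^ d = 1)).card = d := by
  have h1 := IsCyclic.card_powMonoidHom_ker (G := Eˣ) d
  rw [card_units, hdvd] at h1
  refine Eq.trans ?_ h1
  rw [Nat.card_eq_fintype_card, ← Fintype.card_coe]
  symm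
  refine Fintype.card_congr ⟨fun u => ⟨(u.1 : E), ?_⟩, fun x => ⟨Units.mk0 x.1 ?_, ?_⟩, ?_, ?_⟩
  · rw [mem_filter]
    refine ⟨mem_univ _, ?_⟩
    have : (u.1 : Eˣ) ^ d = 1 := u.2
    have h2 := congrArg Units.val this
    rw [Units.val_pow_eq_pow_val, Units.val_one] at h2
    exact h2
  · have hx := (mem_filter.mp x.2).2
    intro h
    rw [h, zero_pow hd.ne'] at hx
    exact zero_ne_one hx
  · have hx := (mem_filter.mp x.2).2
    show (Units.mk0 x.1 _) ^ d = 1
    ext
    simpa using hx
  · intro u; ext; rfl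
  · intro x; ext; rfl

lemma pow_fib {q : ℕ} (hq : 2 ≤ q) (hE : Fintype.card E = q ^ 2) {c : E} (hc : c ≠ 0)
    (hc' : c ^ q = c) : (univ.filter (fun x : E => x ^ (q + 1) = c)).card = q + 1 := by
  obtain ⟨g1, g2⟩ := gcd_aux (a := q) (by omega)
  have hcu : (Units.mk0 c hc) ^ (q - 1) = 1 := by
    ext
    have h1 : c ^ (q - 1) * c = c := by
      rw [← pow_succ, Nat.sub_add_cancel (by omega), hc']
    simpa using mul_right_cancel₀ hc (h1.trans (one_mul c).symm)
  -- the range of the power map
  have hr : (powMonoidHom (q + 1) : Eˣ →* Eˣ).range = (powMonoidHom (q - 1) : Eˣ →* Eˣ).ker := by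
    apply Subgroup.eq_of_le_of_card_ge
    · rintro _ ⟨x, rfl⟩
      show (x ^ (q + 1)) ^ (q - 1) = 1
      rw [← pow_mul]
      have : (q + 1) * (q - 1) = Fintype.card Eˣ := by
        rw [Fintype.card_units, hE]
        obtain ⟨c, rfl⟩ := Nat.exists_eq_add_of_le (show 1 ≤ q by omega)
        rw [Nat.add_sub_cancel_left]
        have : (1 + c) ^ 2 = (1 + c + 1) * c + 1 := by ring
        rw [this, Nat.add_sub_cancel]
      rw [this]
      exact pow_card_eq_one
    · rw [IsCyclic.card_powMonoidHom_range, IsCyclic.card_powMonoidHom_ker, card_units, hE, g1, g2]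
      apply le_of_eq
      obtain ⟨c, rfl⟩ := Nat.exists_eq_add_of_le (show 1 ≤ q by omega)
      have : (1 + c) ^ 2 = (1 + c + 1) * c + 1 := by ring
      rw [this, Nat.add_sub_cancel, Nat.add_sub_cancel_left, Nat.mul_div_cancel_left _ (by omega)]
  have hmem : Units.mk0 c hc ∈ (powMonoidHom (q + 1) : Eˣ →* Eˣ).range := by
    rw [hr]; exact hcu
  obtain ⟨y, hy⟩ := hmem
  have hy' : (y : E) ^ (q + 1) = c := by
    have := congrArg Units.val hy
    simpa using this
  have hy0 : (y : E) ≠ 0 := y.ne_zero
  refine Eq.trans ?_ (card_unit_pow (E := E) (q + 1) (by omega) (by rw [hE]; exact g1))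
  refine Finset.card_bij (fun x _ => x * (y : E)⁻¹) ?_ ?_ ?_
  · intro x hx
    rw [mem_filter] at hx ⊢
    refine ⟨mem_univ _, ?_⟩
    rw [mul_pow, hx.2, inv_pow, hy', mul_inv_cancel₀ hc]
  · intro x _ x' _ h
    exact mul_right_cancel₀ (inv_ne_zero hy0) h
  · intro z hz
    rw [mem_filter] at hz
    refine ⟨z * y, ?_, ?_⟩
    · rw [mem_filter]
      refine ⟨mem_univ _, ?_⟩
      rw [mul_pow, hz.2, hy', one_mul]
    · rw [mul_assoc, mul_inv_cancel₀ hy0, mul_one]

lemma fix_card {q : ℕ} (hq : 2 ≤ q) (hE : Fintype.card E = q ^ 2) :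
    (univ.filter (fun x : E => x ^ q = x)).card = q := by
  obtain ⟨-, g2⟩ := gcd_aux (a := q) (by omega)
  have h1 : univ.filter (fun x : E => x ^ q = x) =
      insert 0 (univ.filter (fun x : E => x ^ (q - 1) = 1)) := by
    ext x
    simp only [mem_filter, mem_univ, true_and, mem_insert]
    constructor
    · intro h
      by_cases hx : x = 0
      · exact Or.inl hx
      · right
        have h1 : x ^ (q - 1) * x = x := by
          rw [← pow_succ, Nat.sub_add_cancel (by omega), h]
        exact mul_right_cancel₀ hx (h1.trans (one_mul x).symm)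
    · rintro (rfl | h)
      · exact zero_pow (by omega)
      · have : q = (q - 1) + 1 := by omega
        rw [this, pow_succ, h, one_mul]
  rw [h1, card_insert_of_notMem, card_unit_pow (q - 1) (by omega) (by rw [hE]; exact g2)]
  · omega
  · rw [mem_filter]
    rintro ⟨-, h⟩
    rw [zero_pow (by omega)] at h
    exact zero_ne_one h

lemma tr_card {q : ℕ} (hq : 2 ≤ q) (hE : Fintype.card E = q ^ 2) (σ : E →+* E)
    (hσ : ∀ x, σ x = x ^ q) (h2 : (2 : E) = 0) (hinv : ∀ x, σ (σ x) = x) {b : E} (hb : σ b = b) :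
    (univ.filter (fun x : E => x + σ x = b)).card = q := by
  have hneg : ∀ x : E, x + x = 0 := fun x => by rw [← two_mul, h2, zero_mul]
  let T : E →+ E := AddMonoidHom.mk' (fun x => x + σ x) (by intro x y; rw [map_add]; ring)
  have hTa : ∀ x, T x = x + σ x := fun x => rfl
  have hfix := fix_card hq hE
  have hker : (univ.filter (fun x : E => T x = 0)).card = q := by
    rw [← hfix]
    congr 1
    ext x
    simp only [mem_filter, mem_univ, true_and, hTa, ← hσ]
    constructor
    · intro h
      have : x + σ x + x = x := by rw [h, zero_add]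
      linear_combination this - hneg x
    · intro h; rw [h, hneg]
  -- all fibres over the range have q elements
  have hfib : ∀ y ∈ Set.range T, (univ.filter (fun x : E => T x = y)).card = q := by
    rintro _ ⟨y, rfl⟩
    rw [← hker]
    refine Finset.card_bij (fun x _ => x - y) ?_ ?_ ?_
    · intro x hx
      rw [mem_filter] at hx ⊢
      exact ⟨mem_univ _, by rw [map_sub, hx.2, sub_self]⟩
    · intro x _ x' _ h
      exact sub_left_injective h
    · intro z hz
      rw [mem_filter] at hz
      exact ⟨z + y, by rw [mem_filter]; exact ⟨mem_univ _, by rw [map_add, hz.2, zero_add]⟩, by ring⟩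
  -- the image is the fixed field
  have himg : univ.image T = univ.filter (fun x : E => x ^ q = x) := by
    apply Finset.eq_of_subset_of_card_le
    · intro y hy
      rw [mem_image] at hy
      obtain ⟨x, -, rfl⟩ := hy
      rw [mem_filter]
      refine ⟨mem_univ _, ?_⟩
      rw [← hσ, hTa, map_add, hinv]; ring
    · rw [hfix]
      have h3 := Finset.card_eq_sum_card_image T (univ : Finset E)
      rw [Finset.sum_congr rfl (g := fun _ => q), Finset.sum_const, Finset.card_univ, hE,
        smul_eq_mul, sq] at h3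
      · exact (Nat.eq_of_mul_eq_mul_right (by omega) h3).le
      · intro y hy
        rw [mem_image] at hy
        obtain ⟨x, -, rfl⟩ := hy
        exact hfib _ ⟨x, rfl⟩
  have hb' : b ∈ univ.image T := by
    rw [himg, mem_filter]
    exact ⟨mem_univ _, by rw [← hσ, hb]⟩
  rw [mem_image] at hb'
  obtain ⟨x, -, hx⟩ := hb'
  exact hfib b ⟨x, hx⟩

/-- The standard involution of a field with `(2 ^ m) ^ 2` elements. -/
noncomputable def stdInv [CharP E 2] {m : ℕ} (hm : 2 ≤ m)
    (hE : Fintype.card E = (2 ^ m) ^ 2) : Inv E where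
  σ := iterateFrobenius E 2 m
  q := 2 ^ m
  invol x := by
    rw [iterateFrobenius_def, iterateFrobenius_def, ← pow_mul, ← sq, ← hE]
    exact FiniteField.pow_card x
  two := by
    have := CharP.cast_eq_zero E 2
    exact_mod_cast this
  q4 := by
    calc 4 = 2 ^ 2 := rfl
      _ ≤ 2 ^ m := Nat.pow_le_pow_right (by norm_num) hm
  cardE := hE
  card_fix := by
    simp only [iterateFrobenius_def]
    exact fix_card (by
      calc 2 ≤ 2 ^ 2 := by norm_num
        _ ≤ 2 ^ m := Nat.pow_le_pow_right (by norm_num) hm) hE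
  norm_fib c hc hc' := by
    simp only [iterateFrobenius_def] at hc' ⊢
    simp only [← pow_succ']
    exact pow_fib (by
      calc 2 ≤ 2 ^ 2 := by norm_num
        _ ≤ 2 ^ m := Nat.pow_le_pow_right (by norm_num) hm) hE hc hc'
  tr_fib b hb := by
    refine tr_card (by
      calc 2 ≤ 2 ^ 2 := by norm_num
        _ ≤ 2 ^ m := Nat.pow_le_pow_right (by norm_num) hm) hE _
        (fun x => iterateFrobenius_def 2 m x) ?_ ?_ hb
    · have := CharP.cast_eq_zero E 2
      exact_mod_cast this
    · intro x
      rw [iterateFrobenius_def, iterateFrobenius_def, ← pow_mul, ← sq, ← hE]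
      exact FiniteField.pow_card x

lemma stdInv_σ [CharP E 2] {m : ℕ} (hm : 2 ≤ m)
    (hE : Fintype.card E = (2 ^ m) ^ 2) (x : E) : (stdInv hm hE).σ x = x ^ (2 ^ m) :=
  iterateFrobenius_def 2 m x

end

end Q20.RankT
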