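import Mathlib
import Pool.Agent.Q20.RankT.Field

/-!
The special unitary group of the standard Hermitian form in three variables over a finite field
of characteristic two.
-/

namespace Q20.RankT

open Finset Matrix

variable {E : Type} [Field E] [Fintype E] [DecidableEq E]

namespace Inv

variable (J : Inv E)

include J in
lemma add_self (x : E) : x + x = 0 := by rw [← two_mul, J.two, zero_mul]

include J in
lemma neg_eq (x : E) : -x = x := (eq_neg_of_add_eq_zero_left (J.add_self x)).symm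

include J in
lemma sub_eq (x y : E) : x - y = x + y := by rw [sub_eq_add_neg, J.neg_eq]

lemma exists_norm {c : E} (hc : J.σ c = c) : ∃ x, x * J.σ x = c := by
  by_cases h : c = 0
  · exact ⟨0, by simp [h]⟩
  · have h1 := J.norm_fib c h hc
    have h2 : (univ.filter (fun x : E => x * J.σ x = c)).Nonempty := by
      rw [← Finset.card_pos, h1]; omega
    obtain ⟨x, hx⟩ := h2
    exact ⟨x, (mem_filter.mp hx).2⟩

lemma exists_trace {c : E} (hc : J.σ c = c) : ∃ x, x + J.σ x = c := by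
  have h1 := J.tr_fib c hc
  have h2 : (univ.filter (fun x : E => x + J.σ x = c)).Nonempty := by
    rw [← Finset.card_pos, h1]; have := J.q4; omega
  obtain ⟨x, hx⟩ := h2
  exact ⟨x, (mem_filter.mp hx).2⟩

/-- The Hermitian form. -/
def h (v w : Fin 3 → E) : E := v 0 * J.σ (w 0) + v 1 * J.σ (w 1) + v 2 * J.σ (w 2)

lemma h_add_left (u v w : Fin 3 → E) : J.h (u + v) w = J.h u w + J.h v w := by
  simp only [h, Pi.add_apply]; ring

lemma h_add_right (u v w : Fin 3 → E) : J.h u (v + w) = J.h u v + J.h u w := by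
  simp only [h, Pi.add_apply, map_add]; ring

lemma h_smul_left (a : E) (v w : Fin 3 → E) : J.h (a • v) w = a * J.h v w := by
  simp only [h, Pi.smul_apply, smul_eq_mul]; ring

lemma h_smul_right (a : E) (v w : Fin 3 → E) : J.h v (a • w) = J.σ a * J.h v w := by
  simp only [h, Pi.smul_apply, smul_eq_mul, map_mul]; ring

lemma h_symm (v w : Fin 3 → E) : J.σ (J.h v w) = J.h w v := by
  simp only [h, map_add, map_mul, J.invol]; ring

lemma h_self (v : Fin 3 → E) : J.σ (J.h v v) = J.h v v := J.h_symm v v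

lemma h_zero_left (w : Fin 3 → E) : J.h 0 w = 0 := by simp [h]

lemma h_zero_right (w : Fin 3 → E) : J.h w 0 = 0 := by simp [h]

lemma h_comm_zero {v w : Fin 3 → E} (hvw : J.h v w = 0) : J.h w v = 0 := by
  rw [← J.h_symm, hvw, map_zero]

/-- The standard basis. -/
abbrev e (i : Fin 3) : Fin 3 → E := Pi.single i 1

lemma h_e_right (v : Fin 3 → E) (i : Fin 3) : J.h v (e i) = v i := by
  fin_cases i <;> simp [h, e]

lemma h_e_left (v : Fin 3 → E) (i : Fin 3) : J.h (e i) v = J.σ (v i) := by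
  rw [← J.h_symm, h_e_right]

lemma h_e_e (i : Fin 3) : J.h (e i) (e i) = 1 := by
  rw [h_e_right]; simp [e]

lemma h_e_ne {i j : Fin 3} (hij : i ≠ j) : J.h (e i) (e j) = 0 := by
  rw [h_e_right]; simp [e, hij.symm]

lemma h_nondeg {v w : Fin 3 → E} (hv : ∀ u, J.h v u = J.h w u) : v = w := by
  ext i
  have := hv (e i)
  rwa [h_e_right, h_e_right] at this

lemma h_nondeg' {v w : Fin 3 → E} (hv : ∀ u, J.h u v = J.h u w) : v = w := by
  apply J.h_nondeg
  intro u
  rw [← J.h_symm u v, ← J.h_symm u w, hv]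

lemma vec_eq (v : Fin 3 → E) : v = v 0 • e 0 + v 1 • e 1 + v 2 • e 2 := by
  ext i
  fin_cases i <;> simp [e]

/-- The special unitary group. -/
def SU : Subgroup (SpecialLinearGroup (Fin 3) E) where
  carrier := {g | ∀ v w, J.h (SpecialLinearGroup.toLin' g v) (SpecialLinearGroup.toLin' g w) =
    J.h v w}
  one_mem' := by intro v w; simp
  mul_mem' := by
    intro a b ha hb v w
    have e1 : ∀ u, SpecialLinearGroup.toLin' (a * b) u =
        SpecialLinearGroup.toLin' a (SpecialLinearGroup.toLin' b u) := by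
      intro u; rw [map_mul]; rfl
    rw [e1, e1, ha, hb]
  inv_mem' := by
    intro a ha v w
    have e1 : ∀ u, SpecialLinearGroup.toLin' a (SpecialLinearGroup.toLin' a⁻¹ u) = u := by
      intro u
      have : SpecialLinearGroup.toLin' (a * a⁻¹) u = u := by rw [mul_inv_cancel]; simp
      rw [map_mul] at this
      exact this
    have h1 := ha (SpecialLinearGroup.toLin' a⁻¹ v) (SpecialLinearGroup.toLin' a⁻¹ w)
    rw [e1, e1] at h1
    exact h1.symm

/-- The action on vectors. -/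
def A (g : J.SU) (v : Fin 3 → E) : Fin 3 → E :=
  ((g : SpecialLinearGroup (Fin 3) E) : Matrix (Fin 3) (Fin 3) E) *ᵥ v

variable {J}

lemma A_one (v : Fin 3 → E) : J.A 1 v = v := by simp [A]

lemma A_mul (g k : J.SU) (v : Fin 3 → E) : J.A (g * k) v = J.A g (J.A k v) := by
  simp [A, mulVec_mulVec]

lemma A_add (g : J.SU) (v w : Fin 3 → E) : J.A g (v + w) = J.A g v + J.A g w :=
  mulVec_add _ _ _

lemma A_smul (g : J.SU) (a : E) (v : Fin 3 → E) : J.A g (a • v) = a • J.A g v :=
  mulVec_smul _ _ _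

lemma A_zero (g : J.SU) : J.A g 0 = 0 := mulVec_zero _

lemma A_inv_A (g : J.SU) (v : Fin 3 → E) : J.A g⁻¹ (J.A g v) = v := by
  rw [← A_mul, inv_mul_cancel, A_one]

lemma A_A_inv (g : J.SU) (v : Fin 3 → E) : J.A g (J.A g⁻¹ v) = v := by
  rw [← A_mul, mul_inv_cancel, A_one]

lemma A_inj (g : J.SU) {v w : Fin 3 → E} (hvw : J.A g v = J.A g w) : v = w := by
  rw [← A_inv_A g v, hvw, A_inv_A]

lemma h_A (g : J.SU) (v w : Fin 3 → E) : J.h (J.A g v) (J.A g w) = J.h v w := g.2 v w

lemma A_ext {g k : J.SU} (hgk : ∀ i, J.A g (e i) = J.A k (e i)) : g = k := by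
  apply Subtype.ext
  apply Subtype.ext
  ext i j
  have := congrFun (hgk j) i
  simpa [A, e] using this

variable (J)

/-- The Hermitian cross product. -/
def cr (a b : Fin 3 → E) : Fin 3 → E :=
  ![J.σ (a 1 * b 2 + a 2 * b 1), J.σ (a 2 * b 0 + a 0 * b 2), J.σ (a 0 * b 1 + a 1 * b 0)]

lemma h_cr (v a b : Fin 3 → E) : J.h v (J.cr a b) = Matrix.det (Matrix.of ![v, a, b]) := by
  rw [Matrix.det_fin_three]
  simp only [h, cr, J.invol, Matrix.of_apply, Matrix.cons_val_zero, Matrix.cons_val_one,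
    Matrix.cons_val]
  have h1 : ∀ x y : E, x - y = x + y := J.sub_eq
  simp only [h1]
  ring

lemma A_cr (g : J.SU) (a b : Fin 3 → E) : J.A g (J.cr a b) = J.cr (J.A g a) (J.A g b) := by
  apply J.h_nondeg'
  intro u
  obtain ⟨v, rfl⟩ : ∃ v, J.A g v = u := ⟨J.A g⁻¹ u, A_A_inv g u⟩
  rw [h_A, h_cr, h_cr]
  have h1 : Matrix.of ![J.A g v, J.A g a, J.A g b] = Matrix.of ![v, a, b] * ((g : SpecialLinearGroup (Fin 3) E) : Matrix (Fin 3) (Fin 3) E)ᵀ := by
    ext i j
    fin_cases i <;> simp [Matrix.mul_apply, A, Matrix.mulVec, dotProduct, mul_comm]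
  rw [h1, Matrix.det_mul, Matrix.det_transpose, g.1.2, mul_one]

lemma h_cr_cr (a b : Fin 3 → E) : J.h (J.cr a b) (J.cr a b) =
    J.h a a * J.h b b + J.h a b * J.h b a := by
  have h1 := J.two
  simp only [h, cr, Matrix.cons_val_zero, Matrix.cons_val_one, Matrix.cons_val, map_add, map_mul,
    J.invol]
  linear_combination (-(a 0 * b 0 * J.σ (a 0) * J.σ (b 0)) - a 1 * b 1 * J.σ (a 1) * J.σ (b 1)
    - a 2 * b 2 * J.σ (a 2) * J.σ (b 2)) * h1

end Inv

end Q20.RankT
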