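import Mathlib
import Pool.Agent.Q20.RankT.Herm

/-!
Transitivity properties of the special unitary group in three variables.
-/

namespace Q20.RankT

open Finset Matrix

variable {E : Type} [Field E] [Fintype E] [DecidableEq E]

namespace Inv

variable {J : Inv E}

/-- An orthonormal pair is the image of the first two basis vectors. -/
lemma exists_of_pair {a b : Fin 3 → E} (ha : J.h a a = 1) (hb : J.h b b = 1)
    (hab : J.h a b = 0) : ∃ g : J.SU, J.A g (e 0) = a ∧ J.A g (e 1) = b := by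
  set c := J.cr a b with hc
  have hcc : J.h c c = 1 := by rw [hc, h_cr_cr, ha, hb, hab]; ring
  have hac : J.h a c = 0 := by
    rw [hc, h_cr]
    exact Matrix.det_zero_of_row_eq (i := 0) (j := 1) (by decide) rfl
  have hbc : J.h b c = 0 := by
    rw [hc, h_cr]
    exact Matrix.det_zero_of_row_eq (i := 0) (j := 2) (by decide) rfl
  have hba := J.h_comm_zero hab
  have hca := J.h_comm_zero hac
  have hcb := J.h_comm_zero hbc
  set M : Matrix (Fin 3) (Fin 3) E := (Matrix.of ![a, b, c])ᵀ with hM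
  have hdet : M.det = 1 := by
    rw [hM, Matrix.det_transpose]
    have h1 : J.h c c = Matrix.det (Matrix.of ![c, a, b]) := by
      conv_lhs => rw [hc]
      rw [h_cr, ← hc]
    rw [hcc] at h1
    rw [h1, Matrix.det_fin_three, Matrix.det_fin_three]
    simp only [Matrix.of_apply, Matrix.cons_val_zero, Matrix.cons_val_one, Matrix.cons_val]
    ring
  have hMv : ∀ v, SpecialLinearGroup.toLin' (⟨M, hdet⟩ : SpecialLinearGroup (Fin 3) E) v =
      v 0 • a + v 1 • b + v 2 • c := by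
    intro v
    ext i
    have : SpecialLinearGroup.toLin' (⟨M, hdet⟩ : SpecialLinearGroup (Fin 3) E) v = M *ᵥ v := rfl
    rw [this]
    simp only [Matrix.mulVec, dotProduct, Fin.sum_univ_three, hM, Matrix.transpose_apply,
      Matrix.of_apply, Matrix.cons_val_zero, Matrix.cons_val_one, Matrix.cons_val, Pi.add_apply,
      Pi.smul_apply, smul_eq_mul]
    ring
  refine ⟨⟨⟨M, hdet⟩, ?_⟩, ?_, ?_⟩
  · intro v w
    rw [hMv, hMv]
    simp only [h_add_left, h_add_right, h_smul_left, h_smul_right, ha, hb, hcc, hab, hac, hbc,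
      hba, hca, hcb]
    simp only [h]
    ring
  · show SpecialLinearGroup.toLin' (⟨M, hdet⟩ : SpecialLinearGroup (Fin 3) E) (e 0) = a
    rw [hMv]; ext i; simp [e]
  · show SpecialLinearGroup.toLin' (⟨M, hdet⟩ : SpecialLinearGroup (Fin 3) E) (e 1) = b
    rw [hMv]; ext i; simp [e]

lemma exists_of_pair' {a b a' b' : Fin 3 → E} (ha : J.h a a = 1) (hb : J.h b b = 1)
    (hab : J.h a b = 0) (ha' : J.h a' a' = 1) (hb' : J.h b' b' = 1)
    (hab' : J.h a' b' = 0) : ∃ g : J.SU, J.A g a = a' ∧ J.A g b = b' := by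
  obtain ⟨g, g1, g2⟩ := exists_of_pair ha hb hab
  obtain ⟨k, k1, k2⟩ := exists_of_pair ha' hb' hab'
  refine ⟨k * g⁻¹, ?_, ?_⟩
  · rw [A_mul, ← g1, A_inv_A, k1]
  · rw [A_mul, ← g2, A_inv_A, k2]

variable (J) in
/-- The stabilizer of a vector. -/
def St (v : Fin 3 → E) : Subgroup J.SU where
  carrier := {g | J.A g v = v}
  one_mem' := A_one v
  mul_mem' := by
    intro a b ha hb
    change J.A a v = v at ha
    change J.A b v = v at hb
    show J.A (a * b) v = v
    rw [A_mul, hb, ha]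
  inv_mem' := by
    intro a ha
    change J.A a v = v at ha
    show J.A a⁻¹ v = v
    conv_lhs => rw [← ha]
    exact A_inv_A a v

lemma mem_St {v : Fin 3 → E} {g : J.SU} : g ∈ J.St v ↔ J.A g v = v := Iff.rfl

lemma exists_St {i j : Fin 3} (hij : i ≠ j) {u : Fin 3 → E} (hu : J.h u u = 1) (hui : u i = 0) :
    ∃ k ∈ J.St (e i), J.A k (e j) = u := by
  obtain ⟨g, g1, g2⟩ := exists_of_pair' (J := J) (J.h_e_e i) (J.h_e_e j) (J.h_e_ne hij)
    (J.h_e_e i) hu (by rw [h_e_left, hui, map_zero])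
  exact ⟨g, g1, g2⟩

lemma cr_e {i j : Fin 3} (hij : i ≠ j) : ∃ l, l ≠ i ∧ l ≠ j ∧ J.cr (e i) (e j) = e l := by
  fin_cases i <;> fin_cases j <;> first
    | exact absurd rfl hij
    | exact ⟨0, by decide, by decide, by ext x; fin_cases x <;> simp [cr, e]⟩
    | exact ⟨1, by decide, by decide, by ext x; fin_cases x <;> simp [cr, e]⟩
    | exact ⟨2, by decide, by decide, by ext x; fin_cases x <;> simp [cr, e]⟩

omit [Field E] [Fintype E] [DecidableEq E] in
lemma fin3_cases : ∀ {i j l : Fin 3}, i ≠ j → l ≠ i → l ≠ j → ∀ x : Fin 3,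
    x = i ∨ x = j ∨ x = l := by decide

lemma eq_one_of_fix {i j : Fin 3} (hij : i ≠ j) {k : J.SU} (hi : J.A k (e i) = e i)
    (hj : J.A k (e j) = e j) : k = 1 := by
  obtain ⟨l, hli, hlj, hl⟩ := cr_e (J := J) hij
  have h1 : J.A k (e l) = e l := by
    rw [← hl, A_cr, hi, hj]
  apply A_ext
  intro x
  rw [A_one]
  have : x = i ∨ x = j ∨ x = l := fin3_cases hij hli hlj x
  rcases this with rfl | rfl | rfl
  · exact hi
  · exact hj
  · exact h1

omit [Field E] [Fintype E] [DecidableEq E] in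
lemma fin3_third : ∀ i j : Fin 3, ∃ l : Fin 3, l ≠ i ∧ l ≠ j := by decide

variable (J) in
lemma exists_fix : ∃ f : E, J.σ f = f ∧ f ≠ 0 ∧ f ≠ 1 := by
  by_contra hcon
  push Not at hcon
  have h1 : univ.filter (fun x : E => J.σ x = x) ⊆ {0, 1} := by
    intro x hx
    rw [mem_filter] at hx
    rw [mem_insert, mem_singleton]
    by_cases h0 : x = 0
    · exact Or.inl h0
    · exact Or.inr (hcon x hx.2 h0)
  have h2 := Finset.card_le_card h1
  rw [J.card_fix] at h2
  have h3 : ({0, 1} : Finset E).card ≤ 2 := Finset.card_le_two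
  have := J.q4
  omega

lemma σ_ne_zero {x : E} (hx : x ≠ 0) : J.σ x ≠ 0 := by
  intro h
  apply hx
  have := J.invol x
  rw [h, map_zero] at this
  exact this.symm

lemma norm_ne_zero {x : E} (hx : x ≠ 0) : x * J.σ x ≠ 0 := mul_ne_zero hx (σ_ne_zero hx)

lemma norm_fix (x : E) : J.σ (x * J.σ x) = x * J.σ x := by
  rw [map_mul, J.invol, mul_comm]

variable (J) in
include J in
lemma eq_of_add_eq_zero {x y : E} (hxy : x + y = 0) : x = y := by
  have := J.neg_eq y
  linear_combination hxy + this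

include J in
lemma sq_inj {x y : E} (hxy : x * x = y * y) : x = y := by
  have h1 : (x + y) * (x + y) = 0 := by
    linear_combination J.add_self (y * y) + J.add_self (x * y) + hxy
  exact J.eq_of_add_eq_zero (mul_self_eq_zero.mp h1)

section gen

variable {M : Subgroup J.SU} (hM : ∀ i, J.St (e i) ≤ M)

include hM

lemma gen_e (i : Fin 3) : ∃ m ∈ M, J.A m (e i) = e 2 := by
  by_cases hi : i = 2
  · subst hi; exact ⟨1, M.one_mem, A_one _⟩
  · obtain ⟨l, hl, hl2⟩ : ∃ l : Fin 3, l ≠ i ∧ l ≠ 2 := by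
      revert i; decide
    obtain ⟨k, hk, hk'⟩ := exists_St (J := J) hl (J.h_e_e 2) (by simp [e, hl2])
    exact ⟨k, hM l hk, hk'⟩

lemma gen_plane {v : Fin 3 → E} (hv : J.h v v = 1) {l : Fin 3} (hl : v l = 0) :
    ∃ m ∈ M, J.A m v = e 2 := by
  obtain ⟨j, hj⟩ : ∃ j : Fin 3, l ≠ j := by
    clear hl; revert l; decide
  obtain ⟨k, hk, hk'⟩ := exists_St (J := J) hj hv hl
  obtain ⟨m, hm, hm'⟩ := gen_e hM j
  refine ⟨m * k⁻¹, M.mul_mem hm (M.inv_mem (hM l hk)), ?_⟩
  rw [A_mul, ← hk', A_inv_A, hm']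

lemma gen_step {v : Fin 3 → E} (hv : J.h v v = 1) {i : Fin 3}
    (hi : v i * J.σ (v i) ≠ 1) : ∃ m ∈ M, J.A m v = e 2 := by
  set w : Fin 3 → E := v + v i • e i with hw
  have hwi : w i = 0 := by simp [hw, e, J.add_self]
  have hvw : v = v i • e i + w := by
    rw [hw, add_comm v, ← add_assoc, ← add_smul, J.add_self, zero_smul, zero_add]
  have hew : J.h (e i) w = 0 := by rw [h_e_left, hwi, map_zero]
  have hwe : J.h w (e i) = 0 := J.h_comm_zero hew
  have hn : J.h w w = 1 + v i * J.σ (v i) := by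
    have h1 := hv
    rw [hvw] at h1
    simp only [h_add_left, h_add_right, h_smul_left, h_smul_right, h_e_e, hew, hwe] at h1
    linear_combination h1 - J.add_self (v i * J.σ (v i)) + J.add_self (v i * J.σ (v i)) -
      J.two * (v i * J.σ (v i))
  have hn0 : J.h w w ≠ 0 := by
    rw [hn]
    intro h0
    exact hi (J.eq_of_add_eq_zero h0).symm
  obtain ⟨c, hc⟩ := J.exists_norm (J.h_self w)
  have hc0 : c ≠ 0 := by rintro rfl; rw [zero_mul] at hc; exact hn0 hc.symm
  obtain ⟨j, hj⟩ : ∃ j : Fin 3, i ≠ j := by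
    clear hi hw hwi hvw hew hwe hn hn0 hc; revert i; decide
  have hu : J.h (c⁻¹ • w) (c⁻¹ • w) = 1 := by
    rw [h_smul_left, h_smul_right, ← hc, map_inv₀]
    field_simp [hc0, σ_ne_zero (J := J) hc0]
  obtain ⟨k, hk, hk'⟩ := exists_St (J := J) hj hu (by rw [Pi.smul_apply, hwi, smul_zero])
  have h2 : J.A k⁻¹ v = v i • e i + c • e j := by
    have h3 : v = J.A k (v i • e i + c • e j) := by
      rw [A_add, A_smul, A_smul, hk', mem_St.mp hk, smul_smul, mul_inv_cancel₀ hc0, one_smul]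
      exact hvw
    conv_lhs => rw [h3]
    rw [A_inv_A]
  obtain ⟨l, hli, hlj⟩ : ∃ l : Fin 3, l ≠ i ∧ l ≠ j := fin3_third i j
  obtain ⟨m, hm, hm'⟩ := gen_plane hM (v := J.A k⁻¹ v) (by rw [h_A, hv]) (l := l)
    (by rw [h2]; simp [e, hli, hlj])
  exact ⟨m * k⁻¹, M.mul_mem hm (M.inv_mem (hM i hk)), by rw [A_mul, hm']⟩

lemma gen_trans {v : Fin 3 → E} (hv : J.h v v = 1) : ∃ m ∈ M, J.A m v = e 2 := by
  by_cases h1 : ∃ i, v i * J.σ (v i) ≠ 1
  · obtain ⟨i, hi⟩ := h1
    exact gen_step hM hv hi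
  · push Not at h1
    have h0 : ∀ i, v i ≠ 0 := by
      intro i h
      have := h1 i
      rw [h, zero_mul] at this
      exact zero_ne_one this
    obtain ⟨f, hf, hf0, hf1⟩ := J.exists_fix
    obtain ⟨α, hα⟩ := J.exists_norm hf
    have hα0 : α ≠ 0 := by rintro rfl; rw [zero_mul] at hα; exact hf0 hα.symm
    set κ : E := v 0 * J.σ (v 1) * J.σ α with hκ
    have hκ0 : κ ≠ 0 := mul_ne_zero (mul_ne_zero (h0 0) (σ_ne_zero (h0 1))) (σ_ne_zero hα0)
    -- choose β
    obtain ⟨β, hβ, hβ'⟩ : ∃ β, β * J.σ β = 1 + f ∧ κ * β + J.σ (κ * β) ≠ 0 := by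
      have h1f : (1 : E) + f ≠ 0 := by
        intro h; exact hf1 (J.eq_of_add_eq_zero h).symm
      have hcard := J.norm_fib (1 + f) h1f (by rw [map_add, map_one, hf])
      have hcard2 : 1 < (univ.filter (fun x : E => x * J.σ x = 1 + f)).card := by
        rw [hcard]; have := J.q4; omega
      obtain ⟨β₁, hβ₁, β₂, hβ₂, hne⟩ := Finset.one_lt_card.mp hcard2
      rw [mem_filter] at hβ₁ hβ₂
      by_contra hcon
      push Not at hcon
      have k1 := J.eq_of_add_eq_zero (hcon β₁ hβ₁.2)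
      have k2 := J.eq_of_add_eq_zero (hcon β₂ hβ₂.2)
      apply hne
      have : κ * β₁ = κ * β₂ := by
        apply sq_inj (J := J)
        calc κ * β₁ * (κ * β₁) = κ * β₁ * J.σ (κ * β₁) := by rw [← k1]
          _ = κ * J.σ κ * (β₁ * J.σ β₁) := by rw [map_mul J.σ κ β₁]; ring
          _ = κ * J.σ κ * (β₂ * J.σ β₂) := by rw [hβ₁.2, hβ₂.2]
          _ = κ * β₂ * J.σ (κ * β₂) := by rw [map_mul J.σ κ β₂]; ring
          _ = κ * β₂ * (κ * β₂) := by rw [← k2]
      exact mul_left_cancel₀ hκ0 this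
    set u : Fin 3 → E := ![α, β, 0] with hu
    have hu1 : J.h u u = 1 := by
      simp only [h, hu, Matrix.cons_val_zero, Matrix.cons_val_one, Matrix.cons_val, hα, hβ]
      linear_combination J.add_self f
    obtain ⟨k, hk, hk'⟩ := exists_St (J := J) (i := 2) (j := 0) (by decide) hu1 (by simp [hu])
    have h2 : (J.A k⁻¹ v) 0 = J.h v u := by
      rw [← J.h_e_right (J.A k⁻¹ v) 0, ← hk', ← h_A k, A_A_inv]
    have h3 : J.h v u = v 0 * J.σ α + v 1 * J.σ β := by
      simp [h, hu]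
    obtain ⟨m, hm, hm'⟩ := gen_step hM (v := J.A k⁻¹ v) (by rw [h_A, hv]) (i := 0) (by
      rw [h2, h3]
      intro h4
      apply hβ'
      rw [hκ]
      simp only [map_add, map_mul, J.invol] at h4 ⊢
      linear_combination h4 - (α * J.σ α) * h1 0 - (β * J.σ β) * h1 1 - hα - hβ - J.add_self f)
    exact ⟨m * k⁻¹, M.mul_mem hm (M.inv_mem (hM 2 hk)), by rw [A_mul, hm']⟩

/-- The stabilizers of the basis vectors generate the group. -/
theorem gen_top : M = ⊤ := by
  rw [eq_top_iff]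
  intro g _
  obtain ⟨m, hm, hm'⟩ := gen_trans hM (v := J.A g (e 2)) (by rw [h_A, h_e_e])
  have h1 : m * g ∈ M := hM 2 (by
    rw [mem_St, A_mul, hm'])
  have h2 := M.mul_mem (M.inv_mem hm) h1
  rwa [inv_mul_cancel_left] at h2

end gen

/-- Transitivity on unit vectors. -/
lemma exists_unit {v : Fin 3 → E} (hv : J.h v v = 1) (i : Fin 3) : ∃ g : J.SU, J.A g (e i) = v := by
  obtain ⟨m, -, hm⟩ := gen_trans (M := (⊤ : Subgroup J.SU)) (fun _ => le_top) hv
  obtain ⟨k, -, hk⟩ := gen_e (M := (⊤ : Subgroup J.SU)) (fun _ => le_top) i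
  exact ⟨m⁻¹ * k, by rw [A_mul, hk, ← hm, A_inv_A]⟩

end Inv

end Q20.RankT
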