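import Mathlib
import Pool.Agent.Q20.RankT.Geo

/-!
Counting unit vectors.
-/

namespace Q20.RankT

open Finset Matrix

variable {E : Type} [Field E] [Fintype E] [DecidableEq E]

namespace Inv

variable (J : Inv E)

/-- number of elements of given norm -/
def nf (c : E) : ℕ := (univ.filter (fun x : E => x * J.σ x = c)).card

lemma nf_zero : J.nf 0 = 1 := by
  rw [nf, Finset.card_eq_one]
  refine ⟨0, ?_⟩
  ext x
  simp only [mem_filter, mem_univ, true_and, mem_singleton]
  constructor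
  · intro hx
    by_contra h0
    exact norm_ne_zero (J := J) h0 hx
  · rintro rfl; simp

lemma nf_ne {c : E} (hc : c ≠ 0) (hc' : J.σ c = c) : J.nf c = J.q + 1 := J.norm_fib c hc hc'

omit [Field E] in
lemma card_fin3 (P : (Fin 3 → E) → Prop) [DecidablePred P] :
    (univ.filter P).card = ∑ c : E, ∑ a : E, (univ.filter (fun b : E => P ![a, b, c])).card := by
  let f : (Fin 3 → E) ≃ E × E × E :=
    { toFun := fun v => (v 2, v 0, v 1)
      invFun := fun x => ![x.2.1, x.2.2, x.1]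
      left_inv := fun v => by ext i; fin_cases i <;> rfl
      right_inv := fun x => rfl }
  rw [Finset.card_filter, ← Equiv.sum_comp f.symm, Fintype.sum_prod_type]
  refine Finset.sum_congr rfl fun c _ => ?_
  rw [Fintype.sum_prod_type]
  refine Finset.sum_congr rfl fun a _ => ?_
  rw [Finset.card_filter]
  rfl

lemma h_vec (a b c : E) : J.h ![a, b, c] ![a, b, c] = a * J.σ a + b * J.σ b + c * J.σ c := by
  simp [h]

/-- unit vectors in the plane orthogonal to the last basis vector -/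
lemma card_plane :
    (univ.filter (fun v : Fin 3 → E => J.h v v = 1 ∧ v 2 = 0)).card = J.q ^ 3 - J.q := by
  rw [card_fin3, Finset.sum_eq_single_of_mem (0 : E) (mem_univ _)]
  · have h1 : ∀ a : E, (univ.filter (fun b : E => J.h ![a, b, 0] ![a, b, 0] = 1 ∧
        (![a, b, 0] : Fin 3 → E) 2 = 0)).card = if a * J.σ a = 1 then 1 else J.q + 1 := by
      intro a
      have h2 : univ.filter (fun b : E => J.h ![a, b, 0] ![a, b, 0] = 1 ∧
        (![a, b, 0] : Fin 3 → E) 2 = 0) = univ.filter (fun b : E => b * J.σ b = 1 + a * J.σ a) := by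
        ext b
        simp only [mem_filter, mem_univ, true_and, h_vec, map_zero, mul_zero, add_zero,
          Matrix.cons_val, and_true]
        constructor
        · intro h; linear_combination h - J.add_self (a * J.σ a) + J.two * (0 : E) + 0 +
            (J.two * (a * J.σ a)) - J.two * (a * J.σ a)
        · intro h; linear_combination h + J.add_self (a * J.σ a)
      rw [h2]
      split_ifs with h3
      · rw [h3, J.add_self]; exact J.nf_zero
      · apply J.nf_ne
        · intro h4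
          exact h3 (J.eq_of_add_eq_zero h4).symm
        · rw [map_add, map_one, norm_fix]
    rw [Finset.sum_congr rfl (fun a _ => h1 a), Finset.sum_ite, Finset.sum_const, Finset.sum_const]
    have h3 : (univ.filter (fun a : E => a * J.σ a = 1)).card = J.q + 1 :=
      J.norm_fib 1 one_ne_zero (map_one _)
    have h4 : (univ.filter (fun a : E => ¬ a * J.σ a = 1)).card = J.q ^ 2 - (J.q + 1) := by
      rw [Finset.filter_not, Finset.card_sdiff_of_subset (Finset.filter_subset _ _), h3,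
        Finset.card_univ, J.cardE]
    rw [h3, h4, smul_eq_mul, smul_eq_mul, mul_one]
    have := J.q4
    obtain ⟨c, hc⟩ := Nat.exists_eq_add_of_le this
    rw [hc]
    have e1 : (4 + c) ^ 2 - (4 + c + 1) = c ^ 2 + 7 * c + 11 := by
      have : (4 + c) ^ 2 = c ^ 2 + 7 * c + 11 + (4 + c + 1) := by ring
      rw [this, Nat.add_sub_cancel]
    have e2 : (4 + c) ^ 3 - (4 + c) = (4 + c + 1) + (c ^ 2 + 7 * c + 11) * (4 + c + 1) := by
      have : (4 + c) ^ 3 = ((4 + c + 1) + (c ^ 2 + 7 * c + 11) * (4 + c + 1)) + (4 + c) := by ring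
      rw [this, Nat.add_sub_cancel]
    rw [e1, e2]
  · intro c _ hc
    apply Finset.sum_eq_zero
    intro a _
    rw [Finset.card_eq_zero, Finset.filter_eq_empty_iff]
    rintro b _ ⟨-, h2⟩
    exact hc h2

/-- the number of neighbours -/
lemma card_perp {v : Fin 3 → E} (hv : J.h v v = 1) :
    (univ.filter (fun u : Fin 3 → E => J.h u u = 1 ∧ J.h u v = 0)).card = J.q ^ 3 - J.q := by
  rw [← J.card_plane]
  obtain ⟨g, hg⟩ := exists_unit hv 2
  refine Finset.card_nbij' (fun u => J.A g⁻¹ u) (fun u => J.A g u) ?_ ?_ ?_ ?_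
  · intro u hu
    simp only [Finset.coe_filter, mem_univ, true_and] at hu ⊢
    refine ⟨by rw [h_A]; exact hu.1, ?_⟩
    rw [← J.h_e_right (J.A g⁻¹ u) 2, ← h_A g, A_A_inv, hg]
    exact hu.2
  · intro u hu
    simp only [Finset.coe_filter, mem_univ, true_and] at hu ⊢
    refine ⟨by rw [h_A]; exact hu.1, ?_⟩
    rw [← hg, h_A, h_e_right]
    exact hu.2
  · intro u _; exact A_A_inv g u
  · intro u _; exact A_inv_A g u

/-- the number of common neighbours of `e 2` and `u` -/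
def c2 (u : Fin 3 → E) : ℕ :=
  (univ.filter (fun x : Fin 3 → E => J.h x x = 1 ∧ x 2 = 0 ∧ J.h x u = 0)).card

lemma unit_norm {u : Fin 3 → E} (hu : J.h u u = 1) :
    u 0 * J.σ (u 0) + u 1 * J.σ (u 1) = 1 + u 2 * J.σ (u 2) := by
  simp only [h] at hu
  linear_combination hu - J.add_self (u 2 * J.σ (u 2)) + J.two * (u 2 * J.σ (u 2)) -
    J.two * (u 2 * J.σ (u 2))

lemma c2_generic {u : Fin 3 → E} (hu : J.h u u = 1) (h2 : u 2 * J.σ (u 2) ≠ 1) :
    J.c2 u = J.q + 1 := by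
  set n : E := 1 + u 2 * J.σ (u 2) with hn
  have hn' := J.unit_norm hu
  rw [← hn] at hn'
  have hn0 : n ≠ 0 := by
    intro h0; exact h2 (J.eq_of_add_eq_zero h0).symm
  have hσn : J.σ n = n := by rw [hn, map_add, map_one, norm_fix]
  have hcard : J.nf (n⁻¹) = J.q + 1 := J.nf_ne (inv_ne_zero hn0) (by rw [map_inv₀, hσn])
  rw [← hcard, nf, c2]
  refine Finset.card_nbij' (fun x => (x 0 * u 1 + x 1 * u 0) / n)
    (fun l => ![l * J.σ (u 1), l * J.σ (u 0), 0]) ?_ ?_ ?_ ?_
  · intro x hx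
    simp only [Finset.coe_filter, mem_univ, true_and, Set.mem_ofPred_eq] at hx ⊢
    obtain ⟨hx1, hx2, hx3⟩ := hx
    simp only [h, hx2, zero_mul, add_zero] at hx1 hx3
    have e1 : x 1 * J.σ (u 1) = x 0 * J.σ (u 0) := (J.eq_of_add_eq_zero hx3).symm
    have e2 : J.σ (x 1) * u 1 = J.σ (x 0) * u 0 := by
      have := congrArg J.σ e1
      simpa [map_mul, J.invol] using this
    rw [map_div₀, hσn, map_add, map_mul, map_mul]
    field_simp
    have key : (x 0 * u 1 + x 1 * u 0) * (J.σ (x 0) * J.σ (u 1) + J.σ (x 1) * J.σ (u 0)) =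
        (x 0 * J.σ (x 0) + x 1 * J.σ (x 1)) * (u 0 * J.σ (u 0) + u 1 * J.σ (u 1)) := by
      linear_combination (u 1 * J.σ (x 1) - u 0 * J.σ (x 0)) * (-1) * e1 * 0 +
        (x 0 * J.σ (u 0) - x 1 * J.σ (u 1)) * (e2) * 1 + J.add_self (0 : E)
    rw [key, hx1, hn']
    ring
  · intro l hl
    simp only [Finset.coe_filter, mem_univ, true_and, Set.mem_ofPred_eq] at hl ⊢
    refine ⟨?_, rfl, ?_⟩
    · rw [h_vec]
      simp only [map_mul, J.invol, map_zero, mul_zero, add_zero]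
      have : l * J.σ (u 1) * (J.σ l * u 1) + l * J.σ (u 0) * (J.σ l * u 0) =
          (l * J.σ l) * (u 0 * J.σ (u 0) + u 1 * J.σ (u 1)) := by ring
      rw [this, hl, hn', inv_mul_cancel₀ hn0]
    · simp only [h, Matrix.cons_val_zero, Matrix.cons_val_one, Matrix.cons_val, zero_mul, add_zero]
      linear_combination J.add_self (l * J.σ (u 0) * J.σ (u 1))
  · intro x hx
    simp only [Finset.coe_filter, mem_univ, true_and, Set.mem_ofPred_eq] at hx
    obtain ⟨hx1, hx2, hx3⟩ := hx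
    simp only [h, hx2, zero_mul, add_zero] at hx1 hx3
    have e1 : x 1 * J.σ (u 1) = x 0 * J.σ (u 0) := (J.eq_of_add_eq_zero hx3).symm
    ext i
    fin_cases i
    · simp only [Matrix.cons_val_zero]
      show (x 0 * u 1 + x 1 * u 0) / n * J.σ (u 1) = x 0
      field_simp
      linear_combination x 0 * hn' + u 0 * e1
    · show (x 0 * u 1 + x 1 * u 0) / n * J.σ (u 0) = x 1
      field_simp
      linear_combination x 1 * hn' - u 1 * e1
    · exact hx2.symm
  · intro l hl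
    show (l * J.σ (u 1) * u 1 + l * J.σ (u 0) * u 0) / n = l
    field_simp
    linear_combination l * hn'

lemma c2_zero {u : Fin 3 → E} (h0 : u 0 = 0) (h1 : u 1 = 0) : J.c2 u = J.q ^ 3 - J.q := by
  rw [← J.card_plane, c2]
  congr 1
  ext x
  simp only [mem_filter, mem_univ, true_and]
  constructor
  · rintro ⟨a, b, -⟩; exact ⟨a, b⟩
  · rintro ⟨a, b⟩
    refine ⟨a, b, ?_⟩
    simp [h, h0, h1, b]

lemma isotropic {u : Fin 3 → E} (hu : J.h u u = 1) (h2 : u 2 * J.σ (u 2) = 1)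
    (hne : ¬ (u 0 = 0 ∧ u 1 = 0)) :
    u 0 * J.σ (u 0) = u 1 * J.σ (u 1) ∧ u 0 ≠ 0 ∧ u 1 ≠ 0 := by
  have hn' := J.unit_norm hu
  rw [h2, J.add_self] at hn'
  have e1 := J.eq_of_add_eq_zero hn'
  refine ⟨e1, ?_, ?_⟩
  · intro h0
    rw [h0, zero_mul] at e1
    by_cases h1 : u 1 = 0
    · exact hne ⟨h0, h1⟩
    · exact norm_ne_zero (J := J) h1 e1.symm
  · intro h1
    rw [h1, zero_mul] at e1
    by_cases h0 : u 0 = 0
    · exact hne ⟨h0, h1⟩
    · exact norm_ne_zero (J := J) h0 e1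

lemma c2_iso {u : Fin 3 → E} (hu : J.h u u = 1) (h2 : u 2 * J.σ (u 2) = 1)
    (hne : ¬ (u 0 = 0 ∧ u 1 = 0)) : J.c2 u = 0 := by
  obtain ⟨e1, h0, h1⟩ := J.isotropic hu h2 hne
  rw [c2, Finset.card_eq_zero, Finset.filter_eq_empty_iff]
  rintro x - ⟨hx1, hx2, hx3⟩
  simp only [h, hx2, zero_mul, add_zero] at hx1 hx3
  have e2 : x 0 * J.σ (u 0) = x 1 * J.σ (u 1) := J.eq_of_add_eq_zero hx3
  have e3 : J.σ (x 0) * u 0 = J.σ (x 1) * u 1 := by
    have := congrArg J.σ e2
    simpa [map_mul, J.invol] using this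
  have e4 : (x 0 * J.σ (x 0)) * (u 0 * J.σ (u 0)) = (x 1 * J.σ (x 1)) * (u 0 * J.σ (u 0)) := by
    rw [e1]
    linear_combination (J.σ (x 0) * u 0) * e2 + (x 1 * J.σ (u 1)) * e3 -
      (x 0 * J.σ (x 0)) * e1
  have e5 := mul_right_cancel₀ (norm_ne_zero (J := J) h0) e4
  rw [e5, J.add_self] at hx1
  exact zero_ne_one hx1

/-- the vectors counted by `m` -/
def mc (v : Fin 3 → E) : ℕ :=
  (univ.filter (fun u : Fin 3 → E => (J.h u u = 1 ∧ J.h u v = 0) ∧ u 2 * J.σ (u 2) = 1)).card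

/-- the vectors proportional to `e 2` orthogonal to `v` -/
def dc (v : Fin 3 → E) : ℕ :=
  (univ.filter (fun u : Fin 3 → E => (J.h u u = 1 ∧ J.h u v = 0) ∧ (u 0 = 0 ∧ u 1 = 0))).card

lemma dc_zero {v : Fin 3 → E} (hv : v 2 = 0) : J.dc v = J.q + 1 := by
  rw [← J.nf_ne one_ne_zero (map_one _), dc, nf]
  refine Finset.card_nbij' (fun u => u 2) (fun l => ![0, 0, l]) ?_ ?_ ?_ ?_
  · intro u hu
    simp only [Finset.coe_filter, mem_univ, true_and, Set.mem_ofPred_eq] at hu ⊢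
    obtain ⟨⟨h1, -⟩, h2, h3⟩ := hu
    simpa [h, h2, h3] using h1
  · intro l hl
    simp only [Finset.coe_filter, mem_univ, true_and, Set.mem_ofPred_eq] at hl ⊢
    refine ⟨⟨?_, ?_⟩, rfl, rfl⟩
    · rw [h_vec]; simpa using hl
    · simp [h, hv]
  · intro u hu
    simp only [Finset.coe_filter, mem_univ, true_and, Set.mem_ofPred_eq] at hu
    obtain ⟨-, h2, h3⟩ := hu
    ext i
    fin_cases i
    · exact h2.symm
    · exact h3.symm
    · rfl
  · intro l _; rfl

lemma dc_ne {v : Fin 3 → E} (hv : v 2 ≠ 0) : J.dc v = 0 := by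
  rw [dc, Finset.card_eq_zero, Finset.filter_eq_empty_iff]
  rintro u - ⟨⟨h1, h2⟩, h3, h4⟩
  simp only [h, h3, h4, zero_mul, zero_add] at h1 h2
  rcases mul_eq_zero.mp h2 with h5 | h5
  · rw [h5, zero_mul] at h1; exact zero_ne_one h1
  · exact σ_ne_zero (J := J) hv h5

lemma mc_zero {v : Fin 3 → E} (hv : J.h v v = 1) (h0 : v 0 = 0) (h1 : v 1 = 0) :
    J.mc v = 0 := by
  have h2 : v 2 ≠ 0 := by
    intro h2
    have := J.unit_norm hv
    rw [h0, h1, h2] at this
    simp at this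
  rw [mc, Finset.card_eq_zero, Finset.filter_eq_empty_iff]
  rintro u - ⟨⟨h3, h4⟩, h5⟩
  simp only [h, h0, h1, map_zero, mul_zero, zero_add] at h4
  rcases mul_eq_zero.mp h4 with h6 | h6
  · rw [h6, zero_mul] at h5; exact zero_ne_one h5
  · exact σ_ne_zero (J := J) h2 h6

lemma mc_generic {v : Fin 3 → E} (hv : J.h v v = 1) (h2 : v 2 * J.σ (v 2) ≠ 1) :
    J.mc v = (J.q + 1) * J.nf (v 2 * J.σ (v 2) / (1 + v 2 * J.σ (v 2)) ^ 2) := by
  set n : E := 1 + v 2 * J.σ (v 2) with hn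
  have hn' := J.unit_norm hv
  rw [← hn] at hn'
  have hn0 : n ≠ 0 := by
    intro h0; exact h2 (J.eq_of_add_eq_zero h0).symm
  have hσn : J.σ n = n := by rw [hn, map_add, map_one, norm_fix]
  rw [← J.nf_ne one_ne_zero (map_one _), mc, nf, nf, ← Finset.card_product]
  refine Finset.card_nbij' (fun u => (u 2, (u 0 * v 1 + u 1 * v 0) / n))
    (fun x => ![x.1 * J.σ (v 2) / n * v 0 + x.2 * J.σ (v 1),
      x.1 * J.σ (v 2) / n * v 1 + x.2 * J.σ (v 0), x.1]) ?_ ?_ ?_ ?_
  · intro u hu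
    simp only [Finset.coe_filter, mem_univ, true_and, Set.mem_ofPred_eq, Finset.coe_product,
      Set.mem_prod] at hu ⊢
    obtain ⟨⟨h3, h4⟩, h5⟩ := hu
    refine ⟨h5, ?_⟩
    have h6 := J.unit_norm h3
    rw [h5, J.add_self] at h6
    simp only [h] at h4
    have h7 : u 0 * J.σ (v 0) + u 1 * J.σ (v 1) = u 2 * J.σ (v 2) := J.eq_of_add_eq_zero h4
    have h8 : J.σ (u 0) * v 0 + J.σ (u 1) * v 1 = J.σ (u 2) * v 2 := by
      have := congrArg J.σ h7
      simpa [map_mul, J.invol] using this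
    rw [map_div₀, hσn, map_add, map_mul, map_mul]
    field_simp
    have key : (u 0 * v 1 + u 1 * v 0) * (J.σ (u 0) * J.σ (v 1) + J.σ (u 1) * J.σ (v 0)) =
        (u 0 * J.σ (u 0) + u 1 * J.σ (u 1)) * (v 0 * J.σ (v 0) + v 1 * J.σ (v 1)) +
        (u 2 * J.σ (v 2)) * (J.σ (u 2) * v 2) := by
      rw [← h7, ← h8]
      linear_combination (-(u 0 * v 0 * J.σ (u 0) * J.σ (v 0)) -
        u 1 * v 1 * J.σ (u 1) * J.σ (v 1)) * J.two
    rw [key, h6, zero_mul, zero_add]
    linear_combination (v 2 * J.σ (v 2)) * h5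
  · rintro ⟨a, b⟩ hab
    simp only [Finset.coe_filter, mem_univ, true_and, Set.mem_ofPred_eq, Finset.coe_product,
      Set.mem_prod] at hab ⊢
    obtain ⟨ha, hb⟩ := hab
    have hb' : b * J.σ b * n ^ 2 = v 2 * J.σ (v 2) := by
      rw [hb]; field_simp
    refine ⟨⟨?_, ?_⟩, ha⟩
    · rw [h_vec]
      simp only [map_add, map_mul, map_div₀, J.invol, hσn]
      have e : (a * J.σ (v 2) / n * v 0 + b * J.σ (v 1)) *
          (J.σ a * v 2 / n * J.σ (v 0) + J.σ b * v 1) +
          (a * J.σ (v 2) / n * v 1 + b * J.σ (v 0)) *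
          (J.σ a * v 2 / n * J.σ (v 1) + J.σ b * v 0) =
          ((a * J.σ a) * (v 2 * J.σ (v 2)) / n ^ 2 + b * J.σ b) *
            (v 0 * J.σ (v 0) + v 1 * J.σ (v 1)) := by
        field_simp
        linear_combination (a * J.σ (v 2) * v 0 * J.σ b * v 1 * n +
          b * J.σ (v 1) * n * J.σ a * v 2 * J.σ (v 0)) * J.two
      rw [e, ha, hn', hb, one_mul, J.add_self, zero_mul, zero_add]
    · simp only [h, Matrix.cons_val_zero, Matrix.cons_val_one, Matrix.cons_val]
      have e : (a * J.σ (v 2) / n * v 0 + b * J.σ (v 1)) * J.σ (v 0) +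
          (a * J.σ (v 2) / n * v 1 + b * J.σ (v 0)) * J.σ (v 1) =
          a * J.σ (v 2) / n * (v 0 * J.σ (v 0) + v 1 * J.σ (v 1)) := by
        linear_combination (b * J.σ (v 0) * J.σ (v 1)) * J.two
      rw [e, hn', div_mul_cancel₀ _ hn0, J.add_self]
  · intro u hu
    simp only [Finset.coe_filter, mem_univ, true_and, Set.mem_ofPred_eq] at hu
    obtain ⟨⟨h3, h4⟩, h5⟩ := hu
    simp only [h] at h4
    have h7 : u 0 * J.σ (v 0) + u 1 * J.σ (v 1) = u 2 * J.σ (v 2) := J.eq_of_add_eq_zero h4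
    ext i
    fin_cases i
    · show u 2 * J.σ (v 2) / n * v 0 + (u 0 * v 1 + u 1 * v 0) / n * J.σ (v 1) = u 0
      rw [← h7]
      field_simp
      linear_combination u 0 * hn' + (u 1 * v 0 * J.σ (v 1)) * J.two
    · show u 2 * J.σ (v 2) / n * v 1 + (u 0 * v 1 + u 1 * v 0) / n * J.σ (v 0) = u 1
      rw [← h7]
      field_simp
      linear_combination u 1 * hn' + (u 0 * v 1 * J.σ (v 0)) * J.two
    · rfl
  · rintro ⟨a, b⟩ hab
    refine Prod.ext rfl ?_
    show ((a * J.σ (v 2) / n * v 0 + b * J.σ (v 1)) * v 1 +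
      (a * J.σ (v 2) / n * v 1 + b * J.σ (v 0)) * v 0) / n = b
    have e : (a * J.σ (v 2) / n * v 0 + b * J.σ (v 1)) * v 1 +
      (a * J.σ (v 2) / n * v 1 + b * J.σ (v 0)) * v 0 =
        b * (v 0 * J.σ (v 0) + v 1 * J.σ (v 1)) := by
      linear_combination (a * J.σ (v 2) / n * v 0 * v 1) * J.two
    rw [e, hn', mul_div_cancel_right₀ _ hn0]

lemma mc_iso {v : Fin 3 → E} (hv : J.h v v = 1) (h2 : v 2 * J.σ (v 2) = 1)
    (hne : ¬ (v 0 = 0 ∧ v 1 = 0)) : J.mc v = (J.q + 1) * J.q := by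
  obtain ⟨e1, h0, h1⟩ := J.isotropic hv h2 hne
  have hs0 := σ_ne_zero (J := J) h0
  have hs1 := σ_ne_zero (J := J) h1
  have h20 : v 2 ≠ 0 := by
    intro h; rw [h, zero_mul] at h2; exact zero_ne_one h2
  rw [← J.nf_ne one_ne_zero (map_one _), ← J.tr_fib 1 (map_one _), mc, nf, ← Finset.card_product]
  refine Finset.card_nbij' (fun u => (u 2, J.σ (u 2) * v 2 * J.σ (v 0) * u 0))
    (fun x => ![x.2 / (J.σ x.1 * v 2 * J.σ (v 0)),
      (x.1 * J.σ (v 2) + x.2 / (J.σ x.1 * v 2 * J.σ (v 0)) * J.σ (v 0)) / J.σ (v 1),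
      x.1]) ?_ ?_ ?_ ?_
  · intro u hu
    simp only [Finset.coe_filter, mem_univ, true_and, Set.mem_ofPred_eq, Finset.coe_product,
      Set.mem_prod] at hu ⊢
    obtain ⟨⟨h3, h4⟩, h5⟩ := hu
    refine ⟨h5, ?_⟩
    have h6 := J.unit_norm h3
    rw [h5, J.add_self] at h6
    simp only [h] at h4
    have h6' : u 0 * J.σ (u 0) = u 1 * J.σ (u 1) := J.eq_of_add_eq_zero h6
    have h7 : u 0 * J.σ (v 0) + u 2 * J.σ (v 2) = u 1 * J.σ (v 1) := by
      apply J.eq_of_add_eq_zero
      linear_combination h4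
    have h8 : J.σ (u 0) * v 0 + J.σ (u 2) * v 2 = J.σ (u 1) * v 1 := by
      have := congrArg J.σ h7
      simpa [map_mul, J.invol] using this
    simp only [map_mul, J.invol]
    have key : (u 0 * J.σ (v 0) + u 2 * J.σ (v 2)) * (J.σ (u 0) * v 0 + J.σ (u 2) * v 2) =
        (u 1 * J.σ (u 1)) * (v 1 * J.σ (v 1)) := by
      rw [h7, h8]; ring
    rw [← e1, ← h6'] at key
    have key2 : J.σ (u 2) * v 2 * J.σ (v 0) * u 0 + u 2 * J.σ (v 2) * v 0 * J.σ (u 0) +
        (u 2 * J.σ (u 2)) * (v 2 * J.σ (v 2)) = 0 := by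
      linear_combination key
    rw [h5, h2, mul_one] at key2
    exact J.eq_of_add_eq_zero key2
  · rintro ⟨a, b⟩ hab
    simp only [Finset.coe_filter, mem_univ, true_and, Set.mem_ofPred_eq, Finset.coe_product,
      Set.mem_prod] at hab ⊢
    obtain ⟨ha, hb⟩ := hab
    have ha0 : a ≠ 0 := by rintro rfl; rw [zero_mul] at ha; exact zero_ne_one ha
    have has := σ_ne_zero (J := J) ha0
    have hv2s := σ_ne_zero (J := J) h20
    -- simplify using norms
    have hinv : (J.σ a * v 2)⁻¹ = a * J.σ (v 2) := by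
      apply inv_eq_of_mul_eq_one_right
      linear_combination (v 2 * J.σ (v 2)) * ha + h2
    have hu0 : b / (J.σ a * v 2 * J.σ (v 0)) = b * (a * J.σ (v 2)) / J.σ (v 0) := by
      rw [← hinv]; field_simp
    rw [hu0]
    have hu1 : (a * J.σ (v 2) + b * (a * J.σ (v 2)) / J.σ (v 0) * J.σ (v 0)) / J.σ (v 1) =
        (1 + b) * (a * J.σ (v 2)) / J.σ (v 1) := by
      field_simp
    rw [hu1]
    have hσb : J.σ b = 1 + b := by
      linear_combination hb - J.add_self b
    refine ⟨⟨?_, ?_⟩, ha⟩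
    · rw [h_vec]
      simp only [map_mul, map_div₀, J.invol, map_add, map_one, hσb]
      have e0 : b * (a * J.σ (v 2)) / J.σ (v 0) * ((1 + b) * (J.σ a * v 2) / v 0) =
          b * (1 + b) * ((a * J.σ a) * (v 2 * J.σ (v 2))) / (v 0 * J.σ (v 0)) := by
        field_simp
      have e2 : (1 + b) * (a * J.σ (v 2)) / J.σ (v 1) * ((1 + (1 + b)) * (J.σ a * v 2) / v 1) =
          b * (1 + b) * ((a * J.σ a) * (v 2 * J.σ (v 2))) / (v 1 * J.σ (v 1)) := by
        have : (1 : E) + (1 + b) = b := by linear_combination J.two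
        rw [this]
        field_simp
      rw [e0, e2, ← e1, J.add_self, zero_add, ha]
    · simp only [h, Matrix.cons_val_zero, Matrix.cons_val_one, Matrix.cons_val]
      field_simp
      linear_combination (a * J.σ (v 2) * (1 + b)) * J.two
  · intro u hu
    simp only [Finset.coe_filter, mem_univ, true_and, Set.mem_ofPred_eq] at hu
    obtain ⟨⟨h3, h4⟩, h5⟩ := hu
    simp only [h] at h4
    have hu2 : u 2 ≠ 0 := by
      intro h; rw [h, zero_mul] at h5; exact zero_ne_one h5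
    have hu2s := σ_ne_zero (J := J) hu2
    have h7 : u 0 * J.σ (v 0) + u 2 * J.σ (v 2) = u 1 * J.σ (v 1) := by
      apply J.eq_of_add_eq_zero
      linear_combination h4
    have e0 : J.σ (u 2) * v 2 * J.σ (v 0) * u 0 / (J.σ (u 2) * v 2 * J.σ (v 0)) = u 0 := by
      field_simp
    ext i
    fin_cases i
    · exact e0
    · show (u 2 * J.σ (v 2) + J.σ (u 2) * v 2 * J.σ (v 0) * u 0 /
        (J.σ (u 2) * v 2 * J.σ (v 0)) * J.σ (v 0)) / J.σ (v 1) = u 1
      rw [e0]
      field_simp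
      linear_combination h7
    · rfl
  · rintro ⟨a, b⟩ hab
    simp only [Finset.coe_filter, mem_univ, true_and, Set.mem_ofPred_eq, Finset.coe_product,
      Set.mem_prod] at hab
    obtain ⟨ha, hb⟩ := hab
    have ha0 : a ≠ 0 := by rintro rfl; rw [zero_mul] at ha; exact zero_ne_one ha
    have has := σ_ne_zero (J := J) ha0
    refine Prod.ext rfl ?_
    show J.σ a * v 2 * J.σ (v 0) * (b / (J.σ a * v 2 * J.σ (v 0))) = b
    field_simp

end Inv

end Q20.RankT
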