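import Mathlib
import Pool.Agent.Q20.RankT.Geo

/-!
Transvections and diagonal elements.
-/

namespace Q20.RankT

open Finset Matrix

variable {E : Type} [Field E] [Fintype E] [DecidableEq E]

namespace Inv

variable {J : Inv E}

lemma mem_SU_of_basis (M : SpecialLinearGroup (Fin 3) E)
    (hM : ∀ i j, J.h (SpecialLinearGroup.toLin' M (e i)) (SpecialLinearGroup.toLin' M (e j)) =
      J.h (e i) (e j)) : M ∈ J.SU := by
  intro v w
  have h1 : ∀ v : Fin 3 → E, SpecialLinearGroup.toLin' M v =
      v 0 • SpecialLinearGroup.toLin' M (e 0) + v 1 • SpecialLinearGroup.toLin' M (e 1) +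
      v 2 • SpecialLinearGroup.toLin' M (e 2) := by
    intro v
    conv_lhs => rw [vec_eq v]
    rw [map_add, map_add, map_smul, map_smul, map_smul]
  rw [h1 v, h1 w]
  conv_rhs => rw [vec_eq v, vec_eq w]
  simp only [h_add_left, h_add_right, h_smul_left, h_smul_right, hM]

/-- The matrix of a transvection. -/
def tvM (J : Inv E) (x : Fin 3 → E) (a : E) : Matrix (Fin 3) (Fin 3) E :=
  Matrix.of fun i j => (if i = j then 1 else 0) + a * x i * J.σ (x j)

lemma tvM_det {x : Fin 3 → E} {a : E} (hx : J.h x x = 0) : (tvM J x a).det = 1 := by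
  have h1 : (tvM J x a).det = 1 + a * J.h x x := by
    rw [Matrix.det_fin_three]
    simp [tvM, h]
    ring
  rw [h1, hx, mul_zero, add_zero]

lemma tvM_mulVec (x : Fin 3 → E) (a : E) (v : Fin 3 → E) :
    tvM J x a *ᵥ v = v + (a * J.h v x) • x := by
  ext i
  simp only [Matrix.mulVec, dotProduct, Fin.sum_univ_three, tvM, Matrix.of_apply, Pi.add_apply,
    Pi.smul_apply, smul_eq_mul, h]
  fin_cases i <;> simp <;> ring

/-- Transvections. -/
def tv (x : Fin 3 → E) (a : E) (hx : J.h x x = 0) (ha : J.σ a = a) : J.SU :=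
  ⟨⟨tvM J x a, tvM_det hx⟩, by
    intro v w
    show J.h (tvM J x a *ᵥ v) (tvM J x a *ᵥ w) = J.h v w
    rw [tvM_mulVec, tvM_mulVec]
    simp only [h_add_left, h_add_right, h_smul_left, h_smul_right, hx, map_mul, ha, h_symm]
    linear_combination J.two * (a * J.h v x * J.h x w)⟩

lemma A_tv (x : Fin 3 → E) (a : E) (hx : J.h x x = 0) (ha : J.σ a = a) (v : Fin 3 → E) :
    J.A (tv x a hx ha) v = v + (a * J.h v x) • x := tvM_mulVec x a v

lemma tv_congr {x y : Fin 3 → E} {a b : E} (hx : J.h x x = 0) (ha : J.σ a = a) (hy : J.h y y = 0)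
    (hb : J.σ b = b) (h1 : x = y) (h2 : a = b) : tv x a hx ha = tv y b hy hb := by
  subst h1; subst h2; rfl

lemma tv_smul {x : Fin 3 → E} {a : E} (c : E) (hx : J.h x x = 0) (ha : J.σ a = a)
    (hcx : J.h (c • x) (c • x) = 0) (hac : J.σ (a * (c * J.σ c)) = a * (c * J.σ c)) :
    tv (c • x) a hcx ha = tv x (a * (c * J.σ c)) hx hac := by
  apply A_ext
  intro i
  rw [A_tv, A_tv, h_smul_right, smul_smul]
  congr 2
  ring

lemma tv_conj (g : J.SU) {x : Fin 3 → E} {a : E} (hx : J.h x x = 0) (ha : J.σ a = a)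
    (hgx : J.h (J.A g x) (J.A g x) = 0) : g * tv x a hx ha * g⁻¹ = tv (J.A g x) a hgx ha := by
  apply A_ext
  intro i
  rw [A_mul, A_mul, A_tv, A_tv, A_add, A_smul, A_A_inv]
  congr 3
  rw [← h_A g (J.A g⁻¹ (e i)) x, A_A_inv]

lemma tv_mul {x : Fin 3 → E} {a b : E} (hx : J.h x x = 0) (ha : J.σ a = a) (hb : J.σ b = b)
    (hab : J.σ (a + b) = a + b) :
    tv x a hx ha * tv x b hx hb = tv x (a + b) hx hab := by
  apply A_ext
  intro i
  rw [A_mul, A_tv, A_tv, A_tv, h_add_left, h_smul_left, hx, mul_zero, add_zero, add_assoc,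
    ← add_smul]
  congr 2
  ring

lemma tv_inv {x : Fin 3 → E} {a : E} (hx : J.h x x = 0) (ha : J.σ a = a) :
    (tv x a hx ha)⁻¹ = tv x a hx ha := by
  rw [inv_eq_iff_mul_eq_one, tv_mul hx ha ha (by rw [map_add, ha])]
  apply A_ext
  intro i
  rw [A_tv, A_one, J.add_self, zero_mul, zero_smul, add_zero]

/-- Diagonal elements. -/
def dg (a b c : E) (ha : a * J.σ a = 1) (hb : b * J.σ b = 1) (hc : c * J.σ c = 1)
    (habc : a * b * c = 1) : J.SU :=
  ⟨⟨Matrix.diagonal ![a, b, c], by
    rw [Matrix.det_diagonal, Fin.prod_univ_three]; exact habc⟩, by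
    intro v w
    show J.h (Matrix.diagonal ![a, b, c] *ᵥ v) (Matrix.diagonal ![a, b, c] *ᵥ w) = J.h v w
    simp only [h, Matrix.mulVec_diagonal, Matrix.cons_val_zero, Matrix.cons_val_one,
      Matrix.cons_val, map_mul]
    linear_combination (v 0 * J.σ (w 0)) * ha + (v 1 * J.σ (w 1)) * hb +
      (v 2 * J.σ (w 2)) * hc⟩

lemma A_dg (a b c : E) (ha : a * J.σ a = 1) (hb : b * J.σ b = 1) (hc : c * J.σ c = 1)
    (habc : a * b * c = 1) (v : Fin 3 → E) :
    J.A (dg a b c ha hb hc habc) v = ![a * v 0, b * v 1, c * v 2] := by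
  show Matrix.diagonal ![a, b, c] *ᵥ v = _
  ext i
  rw [Matrix.mulVec_diagonal]
  fin_cases i <;> simp

/-- Elements of a stabilizer commute with suitable elements. -/
lemma comm_St {i : Fin 3} {k d : J.SU} (hk : k ∈ J.St (e i)) (a b : E)
    (hd : J.A d (e i) = a • e i) (hd' : ∀ v : Fin 3 → E, v i = 0 → J.A d v = b • v) :
    d * k = k * d := by
  have hk1 := mem_St.mp hk
  apply A_ext
  intro j
  rw [A_mul, A_mul]
  by_cases hij : j = i
  · subst hij
    rw [hk1, hd, A_smul, hk1]
  · have h1 : (J.A k (e j)) i = 0 := by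
      rw [← J.h_e_right (J.A k (e j)) i, ← hk1, h_A]
      exact J.h_e_ne hij
    rw [hd' _ h1, hd' (e j) (by simp [e, Ne.symm hij]), A_smul]

/-- Transitivity of transvections on unit vectors in a plane, giving the stabilizer. -/
lemma plane_gen (i : Fin 3) {M : Subgroup J.SU}
    (hM : ∀ (x : Fin 3 → E) (a : E) (hx : J.h x x = 0) (ha : J.σ a = a), x i = 0 →
      tv x a hx ha ∈ M) : J.St (e i) ≤ M := by
  obtain ⟨j, hj⟩ : ∃ j : Fin 3, i ≠ j := by
    clear hM; revert i; decide
  obtain ⟨l, hli, hlj⟩ := fin3_third i j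
  -- single step
  have step : ∀ v w : Fin 3 → E, J.h v v = 1 → J.h w w = 1 → v i = 0 → w i = 0 →
      J.σ (J.h v w) = J.h v w → ∃ m ∈ M, J.A m (e i) = e i ∧ J.A m v = w := by
    intro v w hv hw hvi hwi hvw
    by_cases h1 : J.h v w = 1
    · -- then v = w
      have h2 : J.h w v = 1 := by rw [← J.h_symm, h1, map_one]
      have h3 : v + w = 0 := by
        -- v + w is isotropic and orthogonal to v in the plane
        have hz : J.h (v + w) (v + w) = 0 := by
          simp only [h_add_left, h_add_right, hv, hw, h1, h2]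
          linear_combination 2 * J.two
        have hzv : J.h (v + w) v = 0 := by
          rw [h_add_left, hv, h2]; exact J.add_self 1
        obtain ⟨k, hk, hk'⟩ := exists_St (J := J) hj hv hvi
        set z := J.A k⁻¹ (v + w) with hz'
        have e1 : z j = 0 := by
          rw [← J.h_e_right z j, hz', ← h_A k, A_A_inv, hk', hzv]
        have e2 : z i = 0 := by
          rw [← J.h_e_right z i, hz', ← h_A k, A_A_inv, mem_St.mp hk, h_e_right, Pi.add_apply,
            hvi, hwi, add_zero]
        have e3 : J.h z z = 0 := by rw [hz', h_A, hz]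
        have e4 : z = z l • e l := by
          ext x
          rcases fin3_cases hj hli hlj x with rfl | rfl | rfl
          · rw [e2]; simp [e, hli.symm]
          · rw [e1]; simp [e, hlj.symm]
          · simp [e]
        have e5 : z l = 0 := by
          rw [e4, h_smul_left, h_smul_right, h_e_e, mul_one] at e3
          by_contra h0
          exact norm_ne_zero (J := J) h0 e3
        have e6 : z = 0 := by rw [e4, e5, zero_smul]
        rw [← A_A_inv k (v + w), ← hz', e6, A_zero]
      have h4 : v = w := by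
        ext x
        have := congrFun h3 x
        exact J.eq_of_add_eq_zero this
      exact ⟨1, M.one_mem, A_one _, by rw [A_one, h4]⟩
    · have hd : (1 : E) + J.h v w ≠ 0 := by
        intro h0; exact h1 (J.eq_of_add_eq_zero h0).symm
      have h2 : J.h w v = J.h v w := by rw [← J.h_symm, hvw]
      have hz : J.h (v + w) (v + w) = 0 := by
        simp only [h_add_left, h_add_right, hv, hw, h2]
        linear_combination (1 + J.h v w) * J.two
      have ha : J.σ ((1 + J.h v w)⁻¹) = (1 + J.h v w)⁻¹ := by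
        rw [map_inv₀, map_add, map_one, hvw]
      refine ⟨tv (v + w) _ hz ha, hM _ _ hz ha (by rw [Pi.add_apply, hvi, hwi, add_zero]), ?_, ?_⟩
      · rw [A_tv, h_e_left, Pi.add_apply, hvi, hwi, add_zero, map_zero, mul_zero, zero_smul,
          add_zero]
      · rw [A_tv, h_add_right, hv, inv_mul_cancel₀ hd, one_smul]
        ext x
        show v x + (v x + w x) = w x
        linear_combination J.add_self (v x)
  intro g hg
  set w := J.A g (e j) with hw
  have hw1 : J.h w w = 1 := by rw [hw, h_A, h_e_e]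
  have hwi : w i = 0 := by
    rw [← J.h_e_right w i, hw, ← mem_St.mp hg, h_A]
    exact J.h_e_ne hj.symm
  have heji : (e j : Fin 3 → E) i = 0 := by simp [e, hj]
  have heli : (e l : Fin 3 → E) i = 0 := by simp [e, hli.symm]
  -- an intermediate vector
  obtain ⟨y2, hy, hyw⟩ : ∃ y2 : E, y2 * J.σ y2 = 1 ∧ J.σ (y2 * J.σ (w l)) = y2 * J.σ (w l) := by
    by_cases hwl : w l = 0
    · exact ⟨1, by simp, by rw [hwl]; simp⟩
    · obtain ⟨f, hf⟩ := FiniteField.isSquare_of_char_two (F := E)
        (ringChar.eq_iff.mpr (CharTwo.of_one_ne_zero_of_two_eq_zero one_ne_zero J.two)) (w l * J.σ (w l))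
      have hf' : J.σ f = f := by
        apply sq_inj (J := J)
        rw [← hf, ← map_mul, ← hf, norm_fix]
      have hσ := σ_ne_zero (J := J) hwl
      have hf0 : f ≠ 0 := by
        rintro rfl
        rw [mul_zero] at hf
        exact norm_ne_zero (J := J) hwl hf
      refine ⟨f / J.σ (w l), ?_, ?_⟩
      · rw [map_div₀, J.invol, hf', div_mul_div_comm, ← hf, mul_comm (J.σ (w l))]
        exact div_self (norm_ne_zero (J := J) hwl)
      · rw [div_mul_cancel₀ _ hσ, hf']
  have hyl : J.h (y2 • e l) (y2 • e l) = 1 := by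
    rw [h_smul_left, h_smul_right, h_e_e, mul_one, hy]
  obtain ⟨m1, hm1, m1i, m1'⟩ := step (e j) (y2 • e l) (J.h_e_e j) hyl heji
    (by rw [Pi.smul_apply, heli, smul_zero])
    (by rw [h_smul_right, J.h_e_ne hlj.symm, mul_zero, map_zero])
  obtain ⟨m2, hm2, m2i, m2'⟩ := step (y2 • e l) w hyl hw1
    (by rw [Pi.smul_apply, heli, smul_zero]) hwi
    (by rw [h_smul_left, h_e_left, hyw])
  have h1 : g⁻¹ * (m2 * m1) = 1 := by
    apply eq_one_of_fix hj
    · rw [A_mul, A_mul, m1i, m2i]
      exact (J.St (e i)).inv_mem hg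
    · rw [A_mul, A_mul, m1', m2', hw, A_inv_A]
  have h2 : g = m2 * m1 := by
    rw [inv_mul_eq_one] at h1
    exact h1
  rw [h2]
  exact M.mul_mem hm2 hm1

/-- The transvections generate. -/
lemma tv_gen {M : Subgroup J.SU}
    (hM : ∀ (x : Fin 3 → E) (a : E) (hx : J.h x x = 0) (ha : J.σ a = a), tv x a hx ha ∈ M) :
    M = ⊤ := gen_top fun i => plane_gen i fun x a hx ha _ => hM x a hx ha

end Inv

end Q20.RankT
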