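import Mathlib
import Pool.Agent.Q20.RankT.Elem

/-!
The action on isotropic points: double transitivity, the unipotent radical, simplicity.
-/

namespace Q20.RankT

open Finset Matrix

variable {E : Type} [Field E] [Fintype E] [DecidableEq E]

namespace Inv

variable {J : Inv E}

/-- isotropic vectors extend to hyperbolic pairs -/
lemma completion {x : Fin 3 → E} (hx0 : x ≠ 0) (hx : J.h x x = 0) :
    ∃ y : Fin 3 → E, J.h y y = 0 ∧ J.h x y = 1 := by
  obtain ⟨i, hi⟩ : ∃ i, x i ≠ 0 := by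
    by_contra hcon
    push Not at hcon
    exact hx0 (funext hcon)
  set α : E := J.σ ((x i)⁻¹) with hα
  have hασ : J.σ α = (x i)⁻¹ := J.invol _
  obtain ⟨β, hβ⟩ := J.exists_trace (c := α * J.σ α) (norm_fix α)
  have h1 : J.h x (e i) = x i := J.h_e_right x i
  have h2 : J.h (e i) x = J.σ (x i) := J.h_e_left x i
  have h3 : α * J.σ (x i) = 1 := by rw [hα, ← map_mul, inv_mul_cancel₀ hi, map_one]
  refine ⟨α • e i + β • x, ?_, ?_⟩
  · simp only [h_add_left, h_add_right, h_smul_left, h_smul_right, hx, h1, h2, h_e_e, hασ]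
    have h4 : (x i)⁻¹ * x i = 1 := inv_mul_cancel₀ hi
    rw [hασ] at hβ
    linear_combination (J.σ β) * h3 + hβ + β * h4 + J.two * (α * (x i)⁻¹)
  · simp only [h_add_right, h_smul_right, hx, h1, hασ]
    rw [inv_mul_cancel₀ hi]; ring

/-- an orthonormal pair attached to a hyperbolic pair -/
lemma hyp_ortho {x y : Fin 3 → E} (hx : J.h x x = 0) (hy : J.h y y = 0) (hxy : J.h x y = 1)
    {t : E} (ht : t + J.σ t = 1) :
    J.h (x + t • y) (x + t • y) = 1 ∧ J.h (x + J.σ t • y) (x + J.σ t • y) = 1 ∧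
    J.h (x + t • y) (x + J.σ t • y) = 0 := by
  have hyx : J.h y x = 1 := by rw [← J.h_symm, hxy, map_one]
  refine ⟨?_, ?_, ?_⟩
  · simp only [h_add_left, h_add_right, h_smul_left, h_smul_right, hx, hy, hxy, hyx]
    linear_combination ht
  · simp only [h_add_left, h_add_right, h_smul_left, h_smul_right, hx, hy, hxy, hyx, J.invol]
    linear_combination ht
  · simp only [h_add_left, h_add_right, h_smul_left, h_smul_right, hx, hy, hxy, hyx, J.invol]
    linear_combination J.two * t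

lemma hyp_solve (x y : Fin 3 → E) {t : E} (ht : t + J.σ t = 1) :
    (x + t • y) + (x + J.σ t • y) = y ∧ (x + t • y) + t • y = x := by
  constructor
  · ext i
    simp only [Pi.add_apply, Pi.smul_apply, smul_eq_mul]
    linear_combination J.two * x i + y i * ht
  · ext i
    simp only [Pi.add_apply, Pi.smul_apply, smul_eq_mul]
    linear_combination J.two * (t * y i)

lemma hyp_trans {x y x' y' : Fin 3 → E} (hx : J.h x x = 0) (hy : J.h y y = 0)
    (hxy : J.h x y = 1) (hx' : J.h x' x' = 0) (hy' : J.h y' y' = 0) (hxy' : J.h x' y' = 1) :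
    ∃ g : J.SU, J.A g x = x' ∧ J.A g y = y' := by
  obtain ⟨t, ht⟩ := J.exists_trace (c := 1) (map_one _)
  obtain ⟨a1, a2, a3⟩ := hyp_ortho hx hy hxy ht
  obtain ⟨b1, b2, b3⟩ := hyp_ortho hx' hy' hxy' ht
  obtain ⟨g, g1, g2⟩ := exists_of_pair' a1 a2 a3 b1 b2 b3
  obtain ⟨s1, s2⟩ := hyp_solve (J := J) x y ht
  obtain ⟨s1', s2'⟩ := hyp_solve (J := J) x' y' ht
  have hgy : J.A g y = y' := by
    conv_lhs => rw [← s1]
    rw [A_add, g1, g2, s1']
  refine ⟨g, ?_, hgy⟩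
  conv_lhs => rw [← s2]
  rw [A_add, g1, A_smul, hgy, s2']

lemma hyp_fix {x y : Fin 3 → E} (hx : J.h x x = 0) (hy : J.h y y = 0)
    (hxy : J.h x y = 1) {g : J.SU} (gx : J.A g x = x) (gy : J.A g y = y) : g = 1 := by
  obtain ⟨t, ht⟩ := J.exists_trace (c := 1) (map_one _)
  obtain ⟨a1, a2, a3⟩ := hyp_ortho hx hy hxy ht
  obtain ⟨k, k1, k2⟩ := exists_of_pair a1 a2 a3
  have h1 : k⁻¹ * g * k = 1 := by
    apply eq_one_of_fix (i := 0) (j := 1) (by decide)
    · rw [A_mul, A_mul, k1, A_add, A_smul, gx, gy, ← k1, A_inv_A]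
    · rw [A_mul, A_mul, k2, A_add, A_smul, gx, gy, ← k2, A_inv_A]
  have h2 : g = k * (k⁻¹ * g * k) * k⁻¹ := by group
  rw [h2, h1, mul_one, mul_inv_cancel]

/-- the base vector -/
def x₀ (E : Type) [Field E] : Fin 3 → E := ![1, 1, 0]

omit [Fintype E] [DecidableEq E] in
lemma x₀_ne : x₀ E ≠ 0 := by
  intro h
  have := congrFun h 0
  simp [x₀] at this

variable (J) in
lemma x₀_iso : J.h (x₀ E) (x₀ E) = 0 := by
  simp only [h, x₀, Matrix.cons_val_zero, Matrix.cons_val_one, Matrix.cons_val, map_one, map_zero]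
  linear_combination J.two

lemma to_x₀ {x : Fin 3 → E} (hx0 : x ≠ 0) (hx : J.h x x = 0) : ∃ g : J.SU, J.A g x = x₀ E := by
  obtain ⟨y, hy, hxy⟩ := completion hx0 hx
  obtain ⟨z, hz, hxz⟩ := completion x₀_ne (x₀_iso J)
  obtain ⟨g, g1, -⟩ := hyp_trans hx hy hxy (x₀_iso J) hz hxz
  exact ⟨g, g1⟩

/-- The Witt index is one. -/
lemma witt {x y : Fin 3 → E} (hx0 : x ≠ 0) (hx : J.h x x = 0) (hy0 : y ≠ 0) (hy : J.h y y = 0)
    (hxy : J.h x y = 0) : ∃ c : E, c ≠ 0 ∧ y = c • x := by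
  obtain ⟨g, hg⟩ := to_x₀ hx0 hx
  set z := J.A g y with hz
  have h1 : J.h (x₀ E) z = 0 := by rw [← hg, hz, h_A, hxy]
  have h2 : J.h z z = 0 := by rw [hz, h_A, hy]
  simp only [h, x₀, Matrix.cons_val_zero, Matrix.cons_val_one, Matrix.cons_val, one_mul,
    zero_mul, add_zero] at h1
  rw [← map_add] at h1
  have h3 : z 0 + z 1 = 0 := by
    by_contra h0
    exact σ_ne_zero (J := J) h0 h1
  have h4 := J.eq_of_add_eq_zero h3
  have h5 : z 2 = 0 := by
    simp only [h] at h2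
    rw [h4, J.add_self, zero_add] at h2
    by_contra h0
    exact norm_ne_zero (J := J) h0 h2
  have h6 : z = z 1 • x₀ E := by
    ext i
    fin_cases i
    · simpa [x₀] using h4
    · simp [x₀]
    · simpa [x₀] using h5
  have h7 : y = z 1 • x := by
    apply A_inj g
    rw [A_smul, hg, ← hz]
    exact h6
  refine ⟨z 1, ?_, h7⟩
  intro h0
  rw [h0, zero_smul] at h7
  exact hy0 h7

/-- linear version of the action -/
def Al (g : J.SU) : (Fin 3 → E) →ₗ[E] (Fin 3 → E) where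
  toFun := J.A g
  map_add' := A_add g
  map_smul' := A_smul g

lemma Al_apply (g : J.SU) (v : Fin 3 → E) : Al g v = J.A g v := rfl

variable (J) in
/-- The isotropic points. -/
def Pt : Type := {L : Submodule E (Fin 3 → E) // ∃ x, x ≠ 0 ∧ J.h x x = 0 ∧
  L = Submodule.span E {x}}

/-- the point of an isotropic vector -/
def pt (x : Fin 3 → E) (hx0 : x ≠ 0) (hx : J.h x x = 0) : J.Pt :=
  ⟨Submodule.span E {x}, x, hx0, hx, rfl⟩

lemma exists_pt (p : J.Pt) : ∃ (x : Fin 3 → E) (hx0 : x ≠ 0) (hx : J.h x x = 0),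
    p = pt x hx0 hx := by
  obtain ⟨L, x, hx0, hx, rfl⟩ := p
  exact ⟨x, hx0, hx, rfl⟩

lemma pt_eq {x y : Fin 3 → E} {hx0 : x ≠ 0} {hx : J.h x x = 0} {hy0 : y ≠ 0}
    {hy : J.h y y = 0} : pt x hx0 hx = pt y hy0 hy ↔ ∃ c : E, c ≠ 0 ∧ y = c • x := by
  have h1 : pt x hx0 hx = pt y hy0 hy ↔ Submodule.span E {x} = Submodule.span E {y} :=
    Subtype.ext_iff
  rw [h1, Submodule.span_singleton_eq_span_singleton]
  constructor
  · rintro ⟨c, hc⟩
    exact ⟨c, c.ne_zero, hc.symm⟩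
  · rintro ⟨c, hc0, hc⟩
    exact ⟨Units.mk0 c hc0, hc.symm⟩

lemma A_ne {x : Fin 3 → E} (hx0 : x ≠ 0) (g : J.SU) : J.A g x ≠ 0 := by
  intro h
  apply hx0
  apply A_inj g
  rw [h, A_zero]

lemma A_iso {x : Fin 3 → E} (hx : J.h x x = 0) (g : J.SU) : J.h (J.A g x) (J.A g x) = 0 := by
  rw [h_A, hx]

instance : MulAction J.SU J.Pt where
  smul g p := ⟨p.1.map (Al g), by
    obtain ⟨L, x, hx0, hx, rfl⟩ := p
    refine ⟨J.A g x, A_ne hx0 g, A_iso hx g, ?_⟩
    show Submodule.map (Al g) (Submodule.span E {x}) = _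
    rw [Submodule.map_span, Set.image_singleton]
    rfl⟩
  one_smul p := by
    apply Subtype.ext
    show p.1.map (Al 1) = p.1
    have : (Al (1 : J.SU)) = LinearMap.id := by
      ext1 v; ext i; simp [Al_apply, A_one]
    rw [this, Submodule.map_id]
  mul_smul g k p := by
    apply Subtype.ext
    show p.1.map (Al (g * k)) = (p.1.map (Al k)).map (Al g)
    rw [← Submodule.map_comp]
    congr 1
    apply LinearMap.ext
    intro v
    exact A_mul g k v

lemma smul_pt (g : J.SU) {x : Fin 3 → E} (hx0 : x ≠ 0) (hx : J.h x x = 0) :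
    g • pt x hx0 hx = pt (J.A g x) (A_ne hx0 g) (A_iso hx g) := by
  apply Subtype.ext
  show Submodule.map (Al g) (Submodule.span E {x}) = _
  rw [Submodule.map_span, Set.image_singleton]
  rfl

/-- distinct points can be normalized -/
lemma exists_norm_pt {x : Fin 3 → E} (hx0 : x ≠ 0) (hx : J.h x x = 0) {p : J.Pt}
    (hp : p ≠ pt x hx0 hx) : ∃ (y : Fin 3 → E) (hy0 : y ≠ 0) (hy : J.h y y = 0),
    p = pt y hy0 hy ∧ J.h x y = 1 := by
  obtain ⟨y, hy0, hy, rfl⟩ := exists_pt p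
  have hxy : J.h x y ≠ 0 := by
    intro h0
    apply hp
    obtain ⟨c, hc, h1⟩ := witt hx0 hx hy0 hy h0
    symm
    exact pt_eq.mpr ⟨c, hc, h1⟩
  have hc : J.σ ((J.h x y)⁻¹) ≠ 0 := σ_ne_zero (inv_ne_zero hxy)
  refine ⟨J.σ ((J.h x y)⁻¹) • y, smul_ne_zero hc hy0, ?_, ?_, ?_⟩
  · rw [h_smul_left, h_smul_right, hy, mul_zero, mul_zero]
  · exact pt_eq.mpr ⟨_, hc, rfl⟩
  · rw [h_smul_right, J.invol, inv_mul_cancel₀ hxy]

theorem two_trans {a b c d : J.Pt} (hab : a ≠ b) (hcd : c ≠ d) :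
    ∃ g : J.SU, g • a = c ∧ g • b = d := by
  obtain ⟨x, hx0, hx, rfl⟩ := exists_pt a
  obtain ⟨x', hx0', hx', rfl⟩ := exists_pt c
  obtain ⟨y, hy0, hy, rfl, hxy⟩ := exists_norm_pt hx0 hx hab.symm
  obtain ⟨y', hy0', hy', rfl, hxy'⟩ := exists_norm_pt hx0' hx' hcd.symm
  obtain ⟨g, g1, g2⟩ := hyp_trans hx hy hxy hx' hy' hxy'
  refine ⟨g, ?_, ?_⟩
  · rw [smul_pt]; exact Subtype.ext (by simp only [pt]; rw [g1])
  · rw [smul_pt]; exact Subtype.ext (by simp only [pt]; rw [g2])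

/-- the base point -/
def p₀ (J : Inv E) : J.Pt := pt (x₀ E) x₀_ne (x₀_iso J)

lemma U_fix {u : J.SU} (hu : u ∈ J.St (x₀ E)) : u • p₀ J = p₀ J := by
  rw [p₀, smul_pt]
  exact Subtype.ext (by simp only [pt]; rw [mem_St.mp hu])

lemma U_normal {u : J.SU} (hu : u ∈ J.St (x₀ E)) {k : J.SU} (hk : k • p₀ J = p₀ J) :
    k * u * k⁻¹ ∈ J.St (x₀ E) := by
  rw [p₀, smul_pt] at hk
  obtain ⟨c, hc, h1⟩ := pt_eq.mp hk
  -- x₀ = c • A k x₀
  have h2 : J.A k⁻¹ (x₀ E) = c • x₀ E := by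
    conv_lhs => rw [h1]
    rw [A_smul, A_inv_A]
  rw [mem_St, A_mul, A_mul, h2, A_smul, A_smul, mem_St.mp hu]
  exact h1.symm

lemma U_regular {y z : J.Pt} (hy : y ≠ p₀ J) (hz : z ≠ p₀ J) :
    ∃! u : J.SU, u ∈ J.St (x₀ E) ∧ u • y = z := by
  obtain ⟨y, hy0, hy1, rfl, hxy⟩ := exists_norm_pt x₀_ne (x₀_iso J) hy
  obtain ⟨z, hz0, hz1, rfl, hxz⟩ := exists_norm_pt x₀_ne (x₀_iso J) hz
  obtain ⟨g, g1, g2⟩ := hyp_trans (x₀_iso J) hy1 hxy (x₀_iso J) hz1 hxz
  refine ⟨g, ⟨g1, ?_⟩, ?_⟩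
  · rw [smul_pt]; exact Subtype.ext (by simp only [pt]; rw [g2])
  · rintro u ⟨hu, hu'⟩
    rw [smul_pt] at hu'
    obtain ⟨c, hc, h1⟩ := pt_eq.mp hu'
    have h2 : J.h (x₀ E) (J.A u y) = 1 := by
      conv_lhs => rw [← mem_St.mp hu]
      rw [h_A, hxy]
    have h3 : J.σ c = 1 := by
      have := hxz
      rw [h1, h_smul_right, h2, mul_one] at this
      exact this
    have h4 : c = 1 := by rw [← J.invol c, h3, map_one]
    rw [h4, one_smul] at h1
    have h5 : g⁻¹ * u = 1 := by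
      apply hyp_fix (x₀_iso J) hy1 hxy
      · rw [A_mul, mem_St.mp hu]
        conv_lhs => rw [← g1]
        rw [A_inv_A]
      · rw [A_mul, ← h1, ← g2, A_inv_A]
    rw [inv_mul_eq_one] at h5
    exact h5.symm

instance : Finite J.Pt := by
  have : Function.Injective (fun p : J.Pt => (p.1 : Set (Fin 3 → E))) := by
    intro p p' h
    exact Subtype.ext (SetLike.coe_injective h)
  exact Finite.of_injective _ this

lemma three_pts : 3 ≤ Nat.card J.Pt := by
  have h1 := J.two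
  have h1' : (1 : E) + 1 = 0 := J.add_self 1
  let f : Fin 3 → J.Pt := ![p₀ J, pt ![1, 0, 1] (by
      intro h; have := congrFun h 0; simp at this) (by simp [h, h1']), pt ![0, 1, 1] (by
      intro h; have := congrFun h 1; simp at this) (by simp [h, h1'])]
  have hf : Function.Injective f := by
    intro a b hab
    fin_cases a <;> fin_cases b <;> first
      | rfl
      | (exfalso
         simp only [f, p₀, Matrix.cons_val_zero, Matrix.cons_val_one, Matrix.cons_val,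
          Fin.zero_eta, Fin.mk_one, Fin.reduceFinMk] at hab
         obtain ⟨c, hc, h2⟩ := pt_eq.mp hab
         have e0 := congrFun h2 0
         have e1 := congrFun h2 1
         have e2 := congrFun h2 2
         simp [x₀, hc, hc.symm] at e0 e1 e2)
  have := Nat.card_le_card_of_injective f hf
  simpa using this

end Inv

end Q20.RankT
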