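import Mathlib
import Pool.Agent.Q20.RankT.Simple

/-!
Simplicity of the special unitary group by the Iwasawa criterion.
-/

namespace Q20.RankT

open Finset Matrix commutatorElement

variable {E : Type} [Field E] [Fintype E] [DecidableEq E]

namespace Inv

variable {J : Inv E}

lemma tv_zero_coef {x : Fin 3 → E} (hx : J.h x x = 0) (h0 : J.σ 0 = 0) :
    tv x 0 hx h0 = 1 := by
  apply A_ext
  intro i
  rw [A_tv, A_one, zero_mul, zero_smul, add_zero]

lemma tv_zero_vec {a : E} (ha : J.σ a = a) (h0 : J.h (0 : Fin 3 → E) 0 = 0) :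
    tv 0 a h0 ha = 1 := by
  apply A_ext
  intro i
  rw [A_tv, A_one, smul_zero, add_zero]

lemma norm_coef {a c : E} (ha : J.σ a = a) : J.σ (a * (c * J.σ c)) = a * (c * J.σ c) := by
  rw [map_mul, ha, norm_fix]

/-- the root group of a point -/
def root (p : J.Pt) : Subgroup J.SU where
  carrier := {g | ∃ (x : Fin 3 → E) (a : E) (hx : J.h x x = 0) (ha : J.σ a = a), x ∈ p.1 ∧
    g = tv x a hx ha}
  one_mem' := ⟨0, 0, J.h_zero_left 0, map_zero _, p.1.zero_mem, (tv_zero_vec _ _).symm⟩
  mul_mem' := by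
    rintro _ _ ⟨x, a, hx, ha, hxp, rfl⟩ ⟨y, b, hy, hb, hyp, rfl⟩
    obtain ⟨L, z, hz0, hz, rfl⟩ := p
    obtain ⟨c, rfl⟩ := Submodule.mem_span_singleton.mp hxp
    obtain ⟨d, rfl⟩ := Submodule.mem_span_singleton.mp hyp
    refine ⟨z, a * (c * J.σ c) + b * (d * J.σ d), hz, ?_, Submodule.mem_span_singleton_self z, ?_⟩
    · rw [map_add, norm_coef ha, norm_coef hb]
    · rw [tv_smul c hz ha hx (norm_coef ha), tv_smul d hz hb hy (norm_coef hb), tv_mul]
  inv_mem' := by
    rintro _ ⟨x, a, hx, ha, hxp, rfl⟩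
    exact ⟨x, a, hx, ha, hxp, tv_inv hx ha⟩

lemma mem_root {z : Fin 3 → E} (hz0 : z ≠ 0) (hz : J.h z z = 0) (g : J.SU) :
    g ∈ root (pt z hz0 hz) ↔ ∃ (a : E) (ha : J.σ a = a), g = tv z a hz ha := by
  constructor
  · rintro ⟨x, a, hx, ha, hxp, rfl⟩
    obtain ⟨c, rfl⟩ := Submodule.mem_span_singleton.mp hxp
    exact ⟨a * (c * J.σ c), norm_coef ha, tv_smul c hz ha hx _⟩
  · rintro ⟨a, ha, rfl⟩
    exact ⟨z, a, hz, ha, Submodule.mem_span_singleton_self z, rfl⟩

lemma root_comm (p : J.Pt) : IsMulCommutative (root p) := by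
  obtain ⟨z, hz0, hz, rfl⟩ := exists_pt p
  refine ⟨⟨?_⟩⟩
  rintro ⟨g, hg⟩ ⟨k, hk⟩
  obtain ⟨a, ha, rfl⟩ := (mem_root hz0 hz g).mp hg
  obtain ⟨b, hb, rfl⟩ := (mem_root hz0 hz k).mp hk
  apply Subtype.ext
  show tv z a hz ha * tv z b hz hb = tv z b hz hb * tv z a hz ha
  rw [tv_mul hz ha hb (by rw [map_add, ha, hb]), tv_mul hz hb ha (by rw [map_add, ha, hb])]
  exact tv_congr _ _ _ _ rfl (add_comm _ _)

open scoped Pointwise in
lemma root_conj (g : J.SU) (p : J.Pt) : root (g • p) = MulAut.conj g • root p := by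
  obtain ⟨z, hz0, hz, rfl⟩ := exists_pt p
  ext k
  rw [smul_pt, mem_root, Subgroup.mem_pointwise_smul_iff_inv_smul_mem, mem_root]
  have h1 : (MulAut.conj g)⁻¹ • k = g⁻¹ * k * g := by
    rw [← map_inv]
    show g⁻¹ * k * g⁻¹⁻¹ = _
    rw [inv_inv]
  rw [h1]
  constructor
  · rintro ⟨a, ha, rfl⟩
    refine ⟨a, ha, ?_⟩
    rw [← tv_conj g hz ha (A_iso hz g)]
    group
  · rintro ⟨a, ha, h2⟩
    refine ⟨a, ha, ?_⟩
    rw [← tv_conj g hz ha (A_iso hz g), ← h2]
    group

lemma root_gen : iSup (root (J := J)) = ⊤ := by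
  apply tv_gen
  intro x a hx ha
  by_cases hx0 : x = 0
  · subst hx0
    rw [tv_zero_vec]
    exact one_mem _
  · exact (le_iSup (root (J := J)) (pt x hx0 hx)) ((mem_root hx0 hx _).mpr ⟨a, ha, rfl⟩)

/-- The Iwasawa structure. -/
def iwa : MulAction.IwasawaStructure J.SU J.Pt where
  T := root
  is_comm := root_comm
  is_conj := root_conj
  is_generator := root_gen

lemma perfect : commutator J.SU = ⊤ := by
  apply tv_gen
  intro x b hx hb
  by_cases hx0 : x = 0
  · subst hx0
    rw [tv_zero_vec]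
    exact one_mem _
  · obtain ⟨f, hf, hf0, hf1⟩ := J.exists_fix
    obtain ⟨l, hl⟩ := J.exists_norm hf
    have hl0 : l ≠ 0 := by rintro rfl; rw [zero_mul] at hl; exact hf0 hl.symm
    obtain ⟨y, hy, hxy⟩ := completion hx0 hx
    have hs := σ_ne_zero (J := J) hl0
    obtain ⟨g, hgx, -⟩ := hyp_trans (J := J) hx hy hxy (x' := l • x) (y' := (J.σ l)⁻¹ • y)
      (by rw [h_smul_left, h_smul_right, hx, mul_zero, mul_zero])
      (by rw [h_smul_left, h_smul_right, hy, mul_zero, mul_zero])
      (by rw [h_smul_left, h_smul_right, hxy, map_inv₀, J.invol, mul_one, mul_inv_cancel₀ hl0])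
    have hf1' : f + 1 ≠ 0 := by
      intro h0; exact hf1 (J.eq_of_add_eq_zero h0)
    have ha : J.σ (b / (f + 1)) = b / (f + 1) := by
      rw [map_div₀, map_add, map_one, hb, hf]
    have h1 : tv x b hx hb = ⁅g, tv x (b / (f + 1)) hx ha⁆ := by
      rw [commutatorElement_def, tv_conj g hx ha (A_iso hx g), tv_inv]
      apply A_ext
      intro i
      rw [A_mul]
      simp only [A_tv, hgx, h_smul_right, h_add_left, h_smul_left, hx, mul_zero, add_zero,
        smul_smul]
      rw [add_assoc, ← add_smul]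
      congr 2
      rw [← hl] at hf1' ⊢
      field_simp
      linear_combination (-(b * J.h (e i) x)) * J.two * 0
    rw [h1]
    exact Subgroup.commutator_mem_commutator (Subgroup.mem_top _) (Subgroup.mem_top _)

lemma scalar_eq {g : J.SU} (hg : ∀ p : J.Pt, g • p = p) {x y : Fin 3 → E} (hx : J.h x x = 0)
    (hy : J.h y y = 0) (hxy : J.h x y ≠ 0) {l k : E} (hl : J.A g x = l • x)
    (hk : J.A g y = k • y) : l = k := by
  set c : E := J.h x y with hc
  have hyx : J.h y x = J.σ c := by rw [hc, J.h_symm]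
  set w : Fin 3 → E := x + c • y with hw
  have hww : J.h w w = 0 := by
    rw [hw]
    simp only [h_add_left, h_add_right, h_smul_left, h_smul_right, hx, hy, hyx]
    rw [← hc]
    linear_combination J.two * (c * J.σ c)
  have hwy : J.h w y = c := by
    rw [hw, h_add_left, h_smul_left, hy, mul_zero, add_zero]
  have hwx : J.h w x = c * J.σ c := by
    rw [hw, h_add_left, h_smul_left, hx, zero_add, hyx]
  have hw0 : w ≠ 0 := by
    intro h0
    rw [h0, h_zero_left] at hwy
    exact hxy hwy.symm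
  have h1 := hg (pt w hw0 hww)
  rw [smul_pt] at h1
  obtain ⟨d, hd, h2⟩ := pt_eq.mp h1
  -- w = d • A g w
  have h3 : J.A g w = l • x + (c * k) • y := by
    rw [hw, A_add, A_smul, hl, hk, smul_smul]
  have e1 : c = d * (l * c) := by
    have := congrArg (fun v => J.h v y) h2
    simp only [h3, hwy, h_smul_left, h_add_left, hy, mul_zero, add_zero] at this
    exact this
  have e2 : c * J.σ c = d * (c * k * J.σ c) := by
    have := congrArg (fun v => J.h v x) h2
    simp only [h3, hwx, h_smul_left, h_add_left, hx, mul_zero, zero_add, hyx] at this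
    exact this
  have hsc := σ_ne_zero (J := J) hxy
  have e3 : d * l = 1 := by
    have : (d * l) * c = 1 * c := by rw [one_mul]; linear_combination -e1
    exact mul_right_cancel₀ hxy this
  have e4 : d * k = 1 := by
    have : (d * k) * (c * J.σ c) = 1 * (c * J.σ c) := by rw [one_mul]; linear_combination -e2
    exact mul_right_cancel₀ (mul_ne_zero hxy hsc) this
  exact mul_left_cancel₀ hd (e3.trans e4.symm)

/-- the hypothesis on cube roots of unity -/
def NoCube (J : Inv E) : Prop := ∀ l : E, l * J.σ l = 1 → l ^ 3 = 1 → l = 1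

lemma eq_one_of_fix_all (hJ : NoCube J) {g : J.SU} (hg : ∀ p : J.Pt, g • p = p) : g = 1 := by
  have hsc : ∀ x : Fin 3 → E, x ≠ 0 → J.h x x = 0 → ∃ l : E, J.A g x = l • x := by
    intro x hx0 hx
    have h1 := hg (pt x hx0 hx)
    rw [smul_pt] at h1
    obtain ⟨d, hd, h2⟩ := pt_eq.mp h1.symm
    exact ⟨d, h2⟩
  -- an element of norm one different from one
  obtain ⟨z, hz, hz1⟩ : ∃ z : E, z * J.σ z = 1 ∧ z ≠ 1 := by
    have h1 := J.norm_fib 1 one_ne_zero (map_one _)
    have h2 : 1 < (univ.filter (fun x : E => x * J.σ x = 1)).card := by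
      rw [h1]; have := J.q4; omega
    obtain ⟨a, ha, b, hb, hab⟩ := Finset.one_lt_card.mp h2
    by_cases ha1 : a = 1
    · refine ⟨b, (mem_filter.mp hb).2, ?_⟩
      rintro rfl; exact hab ha1
    · exact ⟨a, (mem_filter.mp ha).2, ha1⟩
  have hz1' : (1 : E) + z ≠ 0 := fun h0 => hz1 (J.eq_of_add_eq_zero h0).symm
  have t1 : J.h (e 0 + e 1) (e 0 + e 1) = 0 := by
    rw [h_add_left, h_add_right, h_add_right, h_e_e, h_e_e, J.h_e_ne (by decide),
      J.h_e_ne (by decide)]
    linear_combination J.two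
  have t2 : J.h (e 0 + z • e 1) (e 0 + z • e 1) = 0 := by
    rw [h_add_left, h_add_right, h_add_right, h_smul_left, h_smul_right, h_smul_left,
      h_smul_right, h_e_e, h_e_e, J.h_e_ne (by decide),
      J.h_e_ne (by decide)]
    linear_combination J.two + hz
  have t3 : J.h (e 0 + e 2) (e 0 + e 2) = 0 := by
    rw [h_add_left, h_add_right, h_add_right, h_e_e, h_e_e, J.h_e_ne (by decide),
      J.h_e_ne (by decide)]
    linear_combination J.two
  have n1 : (e 0 + e 1 : Fin 3 → E) ≠ 0 := by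
    intro h0; have := congrFun h0 0; simp [e] at this
  have n2 : (e 0 + z • e 1 : Fin 3 → E) ≠ 0 := by
    intro h0; have := congrFun h0 0; simp [e] at this
  have n3 : (e 0 + e 2 : Fin 3 → E) ≠ 0 := by
    intro h0; have := congrFun h0 0; simp [e] at this
  obtain ⟨l, hl⟩ := hsc _ n1 t1
  obtain ⟨l2, hl2⟩ := hsc _ n2 t2
  obtain ⟨l3, hl3⟩ := hsc _ n3 t3
  have c12 : J.h (e 0 + e 1) (e 0 + z • e 1) ≠ 0 := by
    rw [h_add_left, h_add_right, h_add_right, h_smul_right, h_smul_right, h_e_e, h_e_e,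
      J.h_e_ne (by decide), J.h_e_ne (by decide)]
    rw [mul_zero, add_zero, zero_add, mul_one]
    intro h0
    apply σ_ne_zero (J := J) hz1'
    rw [map_add, map_one]
    exact h0
  have c13 : J.h (e 0 + e 1) (e 0 + e 2) ≠ 0 := by
    rw [h_add_left, h_add_right, h_add_right, h_e_e, J.h_e_ne (by decide),
      J.h_e_ne (by decide), J.h_e_ne (by decide)]
    simp
  have q2 := scalar_eq hg t1 t2 c12 hl hl2
  have q3 := scalar_eq hg t1 t3 c13 hl hl3
  subst q2
  subst q3
  have a1 : J.A g (e 1) = l • e 1 := by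
    have h1 : (1 + z) • (e 1 : Fin 3 → E) = (e 0 + e 1) + (e 0 + z • e 1) := by
      ext i
      simp only [Pi.smul_apply, Pi.add_apply, smul_eq_mul]
      linear_combination (-(e 0 : Fin 3 → E) i) * J.two
    have h2 : (1 + z) • J.A g (e 1) = (1 + z) • (l • (e 1 : Fin 3 → E)) := by
      rw [← A_smul, h1, A_add, hl, hl2, ← smul_add, ← h1, smul_comm]
    exact smul_right_injective _ hz1' h2
  have a0 : J.A g (e 0) = l • e 0 := by
    have h1 : (e 0 : Fin 3 → E) = (e 0 + e 1) + e 1 := by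
      ext i
      simp only [Pi.add_apply]
      linear_combination (-(e 1 : Fin 3 → E) i) * J.two
    conv_lhs => rw [h1]
    rw [A_add, hl, a1, ← smul_add, ← h1]
  have a2 : J.A g (e 2) = l • e 2 := by
    have h1 : (e 2 : Fin 3 → E) = (e 0 + e 2) + e 0 := by
      ext i
      simp only [Pi.add_apply]
      linear_combination (-(e 0 : Fin 3 → E) i) * J.two
    conv_lhs => rw [h1]
    rw [A_add, hl3, a0, ← smul_add, ← h1]
  have hN : l * J.σ l = 1 := by
    have h1 := h_A g (e 0) (e 0)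
    rw [a0, h_smul_left, h_smul_right, h_e_e, mul_one] at h1
    exact h1
  have hcube : l ^ 3 = 1 := by
    have h1 := J.A_cr g (e 0) (e 1)
    have h2 : J.cr (e 0) (e 1) = e 2 := by ext x; fin_cases x <;> simp [cr, e]
    rw [h2, a0, a1, a2] at h1
    have h3 := congrFun h1 2
    have h4 : l = J.σ (l * l) := by
      simpa [cr, e] using h3
    rw [map_mul] at h4
    have h5 : l ^ 3 = l ^ 2 * (J.σ l * J.σ l) := by
      rw [← h4]; ring
    rw [h5]
    linear_combination (l * J.σ l + 1) * hN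
  have hl1 := hJ l hN hcube
  subst hl1
  apply A_ext
  intro i
  rw [A_one]
  fin_cases i
  · simpa using a0
  · simpa using a1
  · simpa using a2

theorem simple (hJ : NoCube J) : IsSimpleGroup J.SU := by
  have hq : MulAction.IsMultiplyPretransitive J.SU J.Pt 2 :=
    MulAction.is_two_pretransitive_iff.mpr fun hab hcd => two_trans hab hcd
  have hp : MulAction.IsPreprimitive J.SU J.Pt :=
    MulAction.isPreprimitive_of_is_two_pretransitive hq
  have hqp : MulAction.IsQuasiPreprimitive J.SU J.Pt := inferInstance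
  have hnt : Nontrivial J.SU := by
    refine ⟨tv (x₀ E) 1 (x₀_iso J) (map_one _), 1, ?_⟩
    intro h0
    have h1 := congrArg (fun g => J.A g (e 0)) h0
    simp only [A_tv, A_one] at h1
    rw [h_e_left] at h1
    have h2 := congrFun h1 0
    simp [x₀, e] at h2
  have hf : FaithfulSMul J.SU J.Pt := by
    refine ⟨fun {a b} hab => ?_⟩
    have h1 : a⁻¹ * b = 1 := by
      apply eq_one_of_fix_all hJ
      intro p
      rw [mul_smul, ← hab p, inv_smul_smul]
    rw [inv_mul_eq_one] at h1
    exact h1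
  exact iwa.isSimpleGroup perfect hf

end Inv

end Q20.RankT
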