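import Mathlib
import Pool.Agent.Q20.RankT.Iwa

/-!
A special unitary group over a subfield together with a conjugate by a diagonal element generates
the whole special unitary group.
-/

namespace Q20.RankT

open Finset Matrix

variable {K E : Type} [Field K] [Fintype K] [DecidableEq K] [Field E] [Fintype E] [DecidableEq E]

namespace Inv

variable {J₀ : Inv K} {J : Inv E}

lemma h_map (ι : K →+* E) (hι : ∀ x, J.σ (ι x) = ι (J₀.σ x)) (v w : Fin 3 → K) :
    J.h (ι ∘ v) (ι ∘ w) = ι (J₀.h v w) := by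
  simp only [h, Function.comp, map_add, map_mul, hι]

omit [Fintype K] [DecidableEq K] [Fintype E] [DecidableEq E] in
lemma e_map (ι : K →+* E) (i : Fin 3) : (e i : Fin 3 → E) = ι ∘ (e i : Fin 3 → K) := by
  ext j
  by_cases hij : j = i
  · subst hij; simp [e]
  · simp [e, hij]

/-- The embedding. -/
def emb (ι : K →+* E) (hι : ∀ x, J.σ (ι x) = ι (J₀.σ x)) : J₀.SU →* J.SU :=
  ((Matrix.SpecialLinearGroup.map ι).comp J₀.SU.subtype).codRestrict J.SU (by
    intro g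
    have key : ∀ v : Fin 3 → K, SpecialLinearGroup.toLin'
        (((Matrix.SpecialLinearGroup.map ι).comp J₀.SU.subtype) g) (ι ∘ v) = ι ∘ (J₀.A g v) := by
      intro v
      ext i
      exact (RingHom.map_mulVec ι ((g : SpecialLinearGroup (Fin 3) K) : Matrix (Fin 3) (Fin 3) K)
        v i).symm
    apply mem_SU_of_basis
    intro i j
    rw [e_map ι i, e_map ι j, key, key, h_map ι hι, h_map ι hι, h_A])

lemma A_emb (ι : K →+* E) (hι : ∀ x, J.σ (ι x) = ι (J₀.σ x)) (g : J₀.SU) (v : Fin 3 → K) :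
    J.A (emb ι hι g) (ι ∘ v) = ι ∘ (J₀.A g v) := by
  ext i
  exact (RingHom.map_mulVec ι ((g : SpecialLinearGroup (Fin 3) K) : Matrix (Fin 3) (Fin 3) K)
        v i).symm

lemma A_emb_e (ι : K →+* E) (hι : ∀ x, J.σ (ι x) = ι (J₀.σ x)) (g : J₀.SU) (i : Fin 3) :
    J.A (emb ι hι g) (e i) = ι ∘ (J₀.A g (e i)) := by
  rw [e_map ι i, A_emb]

lemma emb_St (ι : K →+* E) (hι : ∀ x, J.σ (ι x) = ι (J₀.σ x)) {i : Fin 3} {g : J₀.SU}
    (hg : g ∈ J₀.St (e i)) : emb ι hι g ∈ J.St (e i) := by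
  rw [mem_St, A_emb_e, mem_St.mp hg, ← e_map]

variable (J₀) in
/-- a swap -/
lemma exists_swap : ∃ k : J₀.SU, J₀.A k (e 0) = e 2 ∧ J₀.A k (e 1) = e 1 ∧
    J₀.A k (e 2) = e 0 := by
  obtain ⟨k, hk, hk'⟩ := exists_St (J := J₀) (i := 1) (j := 0) (by decide) (J₀.h_e_e 2)
    (by simp [e])
  refine ⟨k, hk', mem_St.mp hk, ?_⟩
  have h2 : J₀.cr (e 0) (e 1) = e 2 := by ext x; fin_cases x <;> simp [cr, e]
  have h3 : J₀.cr (e 2) (e 1) = e 0 := by ext x; fin_cases x <;> simp [cr, e]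
  conv_lhs => rw [← h2]
  rw [A_cr, hk', mem_St.mp hk, h3]

/-- isotropic vectors of the plane -/
def xz (z : E) : Fin 3 → E := ![1, 0, z]

lemma xz_iso {z : E} (hz : z * J.σ z = 1) : J.h (xz z) (xz z) = 0 := by
  simp only [h, xz, Matrix.cons_val_zero, Matrix.cons_val_one, Matrix.cons_val, map_one, map_zero]
  linear_combination J.two + hz

lemma norm_one : (1 : E) * J.σ 1 = 1 := by rw [map_one, mul_one]

lemma h_xz (z w : E) : J.h (xz z) (xz w) = 1 + z * J.σ w := by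
  simp [h, xz]

section

variable {M : Subgroup J.SU}

/-- the torus condition -/
def Tor (M : Subgroup J.SU) : Prop := ∀ n : E, n * J.σ n = 1 → ∃ m ∈ M,
  J.A m (e 0) = n • e 0 ∧ J.A m (e 1) = e 1 ∧ J.A m (e 2) = n⁻¹ • e 2

lemma tor_conj (hT : Tor M) {z a : E} (hz : z * J.σ z = 1) (ha : J.σ a = a) :
    tv (xz z) a (xz_iso hz) ha ∈ M ↔ tv (xz 1) a (xz_iso norm_one) ha ∈ M := by
  obtain ⟨n, hn⟩ := FiniteField.isSquare_of_char_two (F := E)
    (ringChar.eq_iff.mpr (CharTwo.of_one_ne_zero_of_two_eq_zero one_ne_zero J.two)) (J.σ z)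
  have hnn : n * J.σ n = 1 := by
    apply sq_inj (J := J)
    have h1 : J.σ n * J.σ n = z := by rw [← map_mul, ← hn, J.invol]
    linear_combination (J.σ n * J.σ n) * (-hn) + (J.σ z) * h1 + hz
  have hn0 : n ≠ 0 := by rintro rfl; rw [zero_mul] at hnn; exact zero_ne_one hnn
  have hni : n⁻¹ = J.σ n := by
    rw [inv_eq_iff_eq_inv]
    exact (eq_inv_of_mul_eq_one_left hnn)
  obtain ⟨m, hm, m0, -, m2⟩ := hT n hnn
  have hAm : J.A m (xz 1) = n • xz z := by
    have h1 : (xz 1 : Fin 3 → E) = e 0 + e 2 := by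
      ext i; fin_cases i <;> simp [xz, e]
    rw [h1, A_add, m0, m2]
    have h2 : n⁻¹ = n * z := by
      rw [hni]
      have h3 : J.σ n * J.σ n = z := by rw [← map_mul, ← hn, J.invol]
      linear_combination n * h3 - (J.σ n) * hnn
    ext i; fin_cases i <;> simp [xz, e, h2]
  have h1 : m * tv (xz 1) a (xz_iso norm_one) ha * m⁻¹ = tv (xz z) a (xz_iso hz) ha := by
    rw [tv_conj m (xz_iso norm_one) ha (A_iso (xz_iso norm_one) m)]
    have hns : J.h (n • xz z) (n • xz z) = 0 := by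
      rw [h_smul_left, h_smul_right, xz_iso hz, mul_zero, mul_zero]
    rw [tv_congr _ ha hns ha hAm rfl, tv_smul n (xz_iso hz) ha hns (norm_coef ha)]
    exact tv_congr _ _ _ _ rfl (by rw [hnn, mul_one])
  constructor
  · intro h
    have h2 : tv (xz 1) a (xz_iso norm_one) ha = m⁻¹ * tv (xz z) a (xz_iso hz) ha * m := by
      rw [← h1]; group
    rw [h2]
    exact M.mul_mem (M.mul_mem (M.inv_mem hm) h) hm
  · intro h
    rw [← h1]
    exact M.mul_mem (M.mul_mem hm h) (M.inv_mem hm)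

lemma plane_vec {y : Fin 3 → E} (hy0 : y ≠ 0) (hy : J.h y y = 0) (hy1 : y 1 = 0) :
    y 0 ≠ 0 ∧ (y 2 / y 0) * J.σ (y 2 / y 0) = 1 ∧ y = y 0 • xz (y 2 / y 0) := by
  have h1 : y 0 * J.σ (y 0) + y 2 * J.σ (y 2) = 0 := by
    have h2 := hy
    simp only [h, hy1, map_zero, mul_zero, add_zero] at h2
    exact h2
  have h3 := J.eq_of_add_eq_zero h1
  have hy00 : y 0 ≠ 0 := by
    intro h0
    apply hy0
    rw [h0, zero_mul] at h3
    have h4 : y 2 = 0 := by
      by_contra h5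
      exact norm_ne_zero (J := J) h5 h3.symm
    ext i; fin_cases i
    · exact h0
    · exact hy1
    · exact h4
  refine ⟨hy00, ?_, ?_⟩
  · rw [map_div₀, div_mul_div_comm, ← h3]
    exact div_self (norm_ne_zero (J := J) hy00)
  · ext i; fin_cases i
    · simp [xz]
    · simp [xz, hy1]
    · simp only [xz, Pi.smul_apply, smul_eq_mul]
      show y 2 = y 0 * (y 2 / y 0)
      rw [mul_div_cancel₀ _ hy00]

variable (M) in
/-- the root coefficients in `M` -/
def coef : AddSubgroup E where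
  carrier := {a | ∃ ha : J.σ a = a, tv (xz 1) a (xz_iso norm_one) ha ∈ M}
  zero_mem' := ⟨map_zero _, by rw [tv_zero_coef]; exact M.one_mem⟩
  add_mem' := by
    rintro a b ⟨ha, ha'⟩ ⟨hb, hb'⟩
    have hab : J.σ (a + b) = a + b := by rw [map_add, ha, hb]
    refine ⟨hab, ?_⟩
    rw [← tv_mul (xz_iso norm_one) ha hb hab]
    exact M.mul_mem ha' hb'
  neg_mem' := by
    rintro a ⟨ha, ha'⟩
    rw [J.neg_eq]
    exact ⟨ha, ha'⟩

variable (J) in
/-- the fixed field -/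
def fixF : AddSubgroup E where
  carrier := {a | J.σ a = a}
  zero_mem' := map_zero _
  add_mem' := by
    intro a b ha hb
    change J.σ a = a at ha
    change J.σ b = b at hb
    show J.σ (a + b) = a + b
    rw [map_add, ha, hb]
  neg_mem' := by
    intro a ha
    change J.σ a = a at ha
    show J.σ (-a) = -a
    rw [map_neg, ha]

lemma coef_le : coef M ≤ fixF J := fun _ ha => ha.1

variable (J) in
lemma card_fixF : Nat.card (fixF J) = J.q := by
  classical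
  rw [← J.card_fix, Nat.card_eq_fintype_card, ← Fintype.card_coe]
  refine Fintype.card_congr ⟨fun a => ⟨a.1, by rw [mem_filter]; exact ⟨mem_univ _, a.2⟩⟩,
    fun a => ⟨a.1, (mem_filter.mp a.2).2⟩, fun a => rfl, fun a => rfl⟩

lemma coef_trace (hT : Tor M) {a b : E} (hab : b * (a + a * a) = 1) (ha : a ∈ coef M)
    (hb : b ∈ coef M) {η : E} (hη : η * J.σ η = 1) : η + J.σ η ∈ coef M := by
  obtain ⟨ha1, ha2⟩ := ha
  obtain ⟨hb1, hb2⟩ := hb
  have h1 := (tor_conj hT hη ha1).mpr ha2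
  set g := tv (xz η) a (xz_iso hη) ha1 with hg
  set y := J.A g (xz 1) with hy
  have hyv : y = ![1 + a * (1 + J.σ η), 0, 1 + a * (1 + J.σ η) * η] := by
    rw [hy, hg, A_tv, h_xz]
    ext i; fin_cases i <;> simp [xz]
  have hy0 : y ≠ 0 := by
    apply A_ne
    intro h0; have := congrFun h0 0; simp [xz] at this
  have hyy : J.h y y = 0 := A_iso (xz_iso norm_one) g
  obtain ⟨y00, yN, yeq⟩ := plane_vec hy0 hyy (by rw [hyv]; simp)
  have h2 : g * tv (xz 1) b (xz_iso norm_one) hb1 * g⁻¹ ∈ M :=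
    M.mul_mem (M.mul_mem h1 hb2) (M.inv_mem h1)
  rw [tv_conj g (xz_iso norm_one) hb1 hyy] at h2
  have hyy' : J.h (y 0 • xz (y 2 / y 0)) (y 0 • xz (y 2 / y 0)) = 0 := by
    rw [← yeq]; exact hyy
  rw [tv_congr hyy hb1 hyy' hb1 yeq rfl, tv_smul (y 0) (xz_iso yN) hb1 hyy' (norm_coef hb1)] at h2
  have h3 := (tor_conj hT yN (norm_coef hb1)).mp h2
  have h4 : b * (y 0 * J.σ (y 0)) ∈ coef M := ⟨norm_coef hb1, h3⟩
  have h5 : η + J.σ η = b + b * (y 0 * J.σ (y 0)) := by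
    have h6 : y 0 = 1 + a * (1 + J.σ η) := by rw [hyv]; simp
    rw [h6]
    simp only [map_add, map_mul, map_one, J.invol, ha1]
    linear_combination (-(b * a ^ 2)) * hη - (η + J.σ η) * hab - (b * (1 + a + a ^ 2)) * J.two
  rw [h5]
  exact (coef M).add_mem ⟨hb1, hb2⟩ h4

lemma coef_top (hT : Tor M) {a b : E} (hab : b * (a + a * a) = 1) (ha : a ∈ coef M)
    (hb : b ∈ coef M) : coef M = fixF J := by
  have hdvd : Nat.card (coef M) ∣ J.q := by
    rw [← card_fixF J]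
    exact AddSubgroup.card_dvd_of_le coef_le
  set μ : Finset E := univ.filter (fun x : E => x * J.σ x = 1) with hμ
  have hμc : μ.card = J.q + 1 := J.norm_fib 1 one_ne_zero (map_one _)
  have h1 : μ.card ≤ 2 * (μ.image (fun x => x + J.σ x)).card := by
    apply Finset.card_le_mul_card_image
    intro c hc
    rw [mem_image] at hc
    obtain ⟨x, hx, rfl⟩ := hc
    rw [hμ, mem_filter] at hx
    refine (Finset.card_le_card (t := {x, J.σ x}) ?_).trans Finset.card_le_two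
    intro y hy
    rw [mem_filter, hμ, mem_filter] at hy
    rw [mem_insert, mem_singleton]
    have h2 : (y - x) * (y - J.σ x) = 0 := by
      linear_combination y * hy.2 - hy.1.2 + hx.2
    rcases mul_eq_zero.mp h2 with h3 | h3
    · exact Or.inl (sub_eq_zero.mp h3)
    · exact Or.inr (sub_eq_zero.mp h3)
  have h2 : (μ.image (fun x => x + J.σ x)).card ≤ Nat.card (coef M) := by
    classical
    rw [Nat.card_eq_fintype_card, ← Fintype.card_coe]
    refine Fintype.card_le_of_injective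
      (fun c => (⟨c.1, ?_⟩ : coef M)) ?_
    · obtain ⟨x, hx, hc⟩ := mem_image.mp c.2
      rw [← hc]
      exact coef_trace hT hab ha hb (mem_filter.mp hx).2
    · intro c c' hcc
      exact Subtype.ext (congrArg (fun x : coef M => (x : E)) hcc)
  obtain ⟨d, hd⟩ := hdvd
  have hd1 : d = 1 := by
    have h4 := J.q4
    rcases Nat.lt_or_ge d 2 with h5 | h5
    · interval_cases d
      · omega
      · rfl
    · nlinarith
  apply AddSubgroup.eq_of_le_of_card_ge coef_le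
  rw [card_fixF, hd, hd1, mul_one]

lemma plane_all (hT : Tor M) {a b : E} (hab : b * (a + a * a) = 1) (ha : a ∈ coef M)
    (hb : b ∈ coef M) : J.St (e 1) ≤ M := by
  apply plane_gen
  intro x c hx hc hx1
  by_cases hx0 : x = 0
  · subst hx0; rw [tv_zero_vec]; exact M.one_mem
  · obtain ⟨x00, xN, xeq⟩ := plane_vec hx0 hx hx1
    have hx' : J.h (x 0 • xz (x 2 / x 0)) (x 0 • xz (x 2 / x 0)) = 0 := by
      rw [← xeq]; exact hx
    rw [tv_congr hx hc hx' hc xeq rfl, tv_smul (x 0) (xz_iso xN) hc hx' (norm_coef hc)]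
    rw [tor_conj hT xN (norm_coef hc)]
    have h1 : c * (x 0 * J.σ (x 0)) ∈ coef M := by
      rw [coef_top hT hab ha hb]
      exact norm_coef hc
    exact h1.2

end

/-- The diagonal element with distinguished entry `i`. -/
lemma dinv {w : E} (hw : w * J.σ w = 1) : w⁻¹ * J.σ (w⁻¹) = 1 := by
  rw [map_inv₀, ← mul_inv, hw, inv_one]

lemma dsq {w : E} (hw : w * J.σ w = 1) : (w ^ 2) * J.σ (w ^ 2) = 1 := by
  rw [map_pow, ← mul_pow, hw, one_pow]

lemma dne {w : E} (hw : w * J.σ w = 1) : w ≠ 0 := by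
  rintro rfl; rw [zero_mul] at hw; exact zero_ne_one hw

/-- diagonal element with entries `w ^ 2, w⁻¹, w⁻¹` -/
def d₀ {w : E} (hw : w * J.σ w = 1) : J.SU :=
  dg (w ^ 2) w⁻¹ w⁻¹ (dsq hw) (dinv hw) (dinv hw) (by have := dne hw; field_simp)

/-- diagonal element with entries `w, w ^ (-2), w` -/
def d₁ {w : E} (hw : w * J.σ w = 1) : J.SU :=
  dg w (w⁻¹ ^ 2) w hw (dsq (dinv hw)) hw (by have := dne hw; field_simp)

/-- diagonal element with entries `w, w, w ^ (-2)` -/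
def d₂ {w : E} (hw : w * J.σ w = 1) : J.SU :=
  dg w w (w⁻¹ ^ 2) hw hw (dsq (dinv hw)) (by have := dne hw; field_simp)

lemma A_d₀ {w : E} (hw : w * J.σ w = 1) (v : Fin 3 → E) :
    J.A (d₀ hw) v = ![w ^ 2 * v 0, w⁻¹ * v 1, w⁻¹ * v 2] := A_dg _ _ _ _ _ _ _ v

lemma A_d₁ {w : E} (hw : w * J.σ w = 1) (v : Fin 3 → E) :
    J.A (d₁ hw) v = ![w * v 0, w⁻¹ ^ 2 * v 1, w * v 2] := A_dg _ _ _ _ _ _ _ v

lemma A_d₂ {w : E} (hw : w * J.σ w = 1) (v : Fin 3 → E) :
    J.A (d₂ hw) v = ![w * v 0, w * v 1, w⁻¹ ^ 2 * v 2] := A_dg _ _ _ _ _ _ _ v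

lemma comm_d₀ {w : E} (hw : w * J.σ w = 1) {k : J.SU} (hk : k ∈ J.St (e 0)) :
    d₀ hw * k = k * d₀ hw := by
  apply comm_St hk (w ^ 2) w⁻¹
  · rw [A_d₀]; ext i; fin_cases i <;> simp [e]
  · intro v hv
    rw [A_d₀]; ext i; fin_cases i <;> simp [hv]

lemma comm_d₁ {w : E} (hw : w * J.σ w = 1) {k : J.SU} (hk : k ∈ J.St (e 1)) :
    d₁ hw * k = k * d₁ hw := by
  apply comm_St hk (w⁻¹ ^ 2) w
  · rw [A_d₁]; ext i; fin_cases i <;> simp [e]
  · intro v hv
    rw [A_d₁]; ext i; fin_cases i <;> simp [hv]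

lemma comm_d₂ {w : E} (hw : w * J.σ w = 1) {k : J.SU} (hk : k ∈ J.St (e 2)) :
    d₂ hw * k = k * d₂ hw := by
  apply comm_St hk (w⁻¹ ^ 2) w
  · rw [A_d₂]; ext i; fin_cases i <;> simp [e]
  · intro v hv
    rw [A_d₂]; ext i; fin_cases i <;> simp [hv]

lemma d_mul {w : E} (hw : w * J.σ w = 1) : d₀ hw = d₂ hw * d₁ hw := by
  have h0 := dne hw
  apply A_ext
  intro i
  rw [A_mul, A_d₀, A_d₁, A_d₂]
  ext j
  fin_cases j
  · simp; ring
  · simp; field_simp
  · simp; field_simp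

section main

variable (ι : K →+* E) (hι : ∀ x, J.σ (ι x) = ι (J₀.σ x))

/-- elements of the subgroup acting on the basis as torus elements -/
def torU (M : Subgroup J.SU) : Subgroup Eˣ where
  carrier := {n | ∃ m ∈ M, J.A m (e 0) = (n : E) • e 0 ∧ J.A m (e 1) = e 1 ∧
    J.A m (e 2) = ((n⁻¹ : Eˣ) : E) • e 2}
  one_mem' := ⟨1, M.one_mem, by simp [A_one], A_one _, by simp [A_one]⟩
  mul_mem' := by
    rintro n n' ⟨m, hm, h0, h1, h2⟩ ⟨m', hm', h0', h1', h2'⟩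
    refine ⟨m * m', M.mul_mem hm hm', ?_, ?_, ?_⟩
    · rw [A_mul, h0', A_smul, h0, smul_smul, Units.val_mul, mul_comm]
    · rw [A_mul, h1', h1]
    · rw [A_mul, h2', A_smul, h2, smul_smul, ← Units.val_mul, ← mul_inv, mul_comm n' n]
  inv_mem' := by
    rintro n ⟨m, hm, h0, h1, h2⟩
    refine ⟨m⁻¹, M.inv_mem hm, ?_, ?_, ?_⟩
    · apply A_inj m
      rw [A_A_inv, A_smul, h0, smul_smul, ← Units.val_mul, inv_mul_cancel, Units.val_one,
        one_smul]
    · apply A_inj m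
      rw [A_A_inv, h1]
    · apply A_inj m
      rw [A_A_inv, A_smul, h2, smul_smul, ← Units.val_mul, inv_mul_cancel, Units.val_one,
        one_smul]

lemma exists_tor {w : E} (hw : w * J.σ w = 1) {M : Subgroup J.SU}
    (hM1 : ∀ g : J₀.SU, emb ι hι g ∈ M)
    (hM2 : ∀ g : J₀.SU, d₀ hw * emb ι hι g * (d₀ hw)⁻¹ ∈ M)
    (hgen : ∀ n : E, n * J.σ n = 1 → ∃ k : ℤ, n = (w ^ 3) ^ k) : Tor M := by
  have hw0 := dne hw
  obtain ⟨k, k0, k1, k2⟩ := exists_swap J₀
  have a0 : J.A (emb ι hι k) (e 0) = e 2 := by rw [A_emb_e, k0, ← e_map]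
  have a1 : J.A (emb ι hι k) (e 1) = e 1 := by rw [A_emb_e, k1, ← e_map]
  have a2 : J.A (emb ι hι k) (e 2) = e 0 := by rw [A_emb_e, k2, ← e_map]
  set κ := emb ι hι k with hκ
  have b0 : J.A κ⁻¹ (e 0) = e 2 := by apply A_inj κ; rw [A_A_inv, a2]
  have b1 : J.A κ⁻¹ (e 1) = e 1 := by apply A_inj κ; rw [A_A_inv, a1]
  have b2 : J.A κ⁻¹ (e 2) = e 0 := by apply A_inj κ; rw [A_A_inv, a0]
  have c0 : J.A (d₀ hw) (e 0) = w ^ 2 • e 0 := by
    rw [A_d₀]; ext i; fin_cases i <;> simp [e]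
  have c1 : J.A (d₀ hw) (e 1) = w⁻¹ • e 1 := by
    rw [A_d₀]; ext i; fin_cases i <;> simp [e]
  have c2 : J.A (d₀ hw) (e 2) = w⁻¹ • e 2 := by
    rw [A_d₀]; ext i; fin_cases i <;> simp [e]
  have i0 : J.A (d₀ hw)⁻¹ (e 0) = (w ^ 2)⁻¹ • e 0 := by
    apply A_inj (d₀ hw)
    rw [A_A_inv, A_smul, c0, smul_smul, inv_mul_cancel₀ (pow_ne_zero _ hw0), one_smul]
  have i1 : J.A (d₀ hw)⁻¹ (e 1) = w • e 1 := by
    apply A_inj (d₀ hw)
    rw [A_A_inv, A_smul, c1, smul_smul, mul_inv_cancel₀ hw0, one_smul]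
  have i2 : J.A (d₀ hw)⁻¹ (e 2) = w • e 2 := by
    apply A_inj (d₀ hw)
    rw [A_A_inv, A_smul, c2, smul_smul, mul_inv_cancel₀ hw0, one_smul]
  have hu : (Units.mk0 (w ^ 3) (pow_ne_zero _ hw0)) ∈ torU M := by
    refine ⟨(d₀ hw * κ * (d₀ hw)⁻¹) * κ⁻¹, M.mul_mem (hM2 k) (M.inv_mem (hM1 k)), ?_, ?_, ?_⟩
    · rw [A_mul, A_mul, A_mul, b0, i2, A_smul, A_smul, a2, c0, smul_smul]
      congr 1
      rw [Units.val_mk0]; ring
    · rw [A_mul, A_mul, A_mul, b1, i1, A_smul, A_smul, a1, c1, smul_smul, mul_inv_cancel₀ hw0,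
        one_smul]
    · rw [A_mul, A_mul, A_mul, b2, i0, A_smul, A_smul, a0, c2, smul_smul]
      congr 1
      rw [Units.val_inv_eq_inv_val, Units.val_mk0]
      field_simp
  intro n hn
  obtain ⟨j, hj⟩ := hgen n hn
  obtain ⟨m, hm, h0, h1, h2⟩ := (torU M).zpow_mem hu j
  refine ⟨m, hm, ?_, h1, ?_⟩
  · rw [h0, Units.val_zpow_eq_zpow_val, Units.val_mk0, ← hj]
  · rw [h2, Units.val_inv_eq_inv_val, Units.val_zpow_eq_zpow_val, Units.val_mk0, ← hj]

include hι in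
lemma emb_coef {M : Subgroup J.SU} (hM1 : ∀ g : J₀.SU, emb ι hι g ∈ M) {a : K}
    (ha : J₀.σ a = a) : ι a ∈ coef M := by
  have ha' : J.σ (ι a) = ι a := by rw [hι, ha]
  refine ⟨ha', ?_⟩
  have h1 : emb ι hι (tv (xz 1) a (xz_iso norm_one) ha) = tv (xz 1) (ι a) (xz_iso norm_one) ha' := by
    apply A_ext
    intro i
    rw [A_emb_e, A_tv, A_tv]
    have h2 : (xz 1 : Fin 3 → E) = ι ∘ (xz 1 : Fin 3 → K) := by
      ext i; fin_cases i <;> simp [xz]
    rw [h2, e_map ι i, h_map ι hι]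
    ext j
    simp
  rw [← h1]
  exact hM1 _

/-- The generation theorem. -/
theorem surj {w : E} (hw : w * J.σ w = 1) {M : Subgroup J.SU}
    (hM1 : ∀ g : J₀.SU, emb ι hι g ∈ M)
    (hM2 : ∀ g : J₀.SU, d₀ hw * emb ι hι g * (d₀ hw)⁻¹ ∈ M)
    (hgen : ∀ n : E, n * J.σ n = 1 → ∃ k : ℤ, n = (w ^ 3) ^ k) : M = ⊤ := by
  have hT := exists_tor ι hι hw hM1 hM2 hgen
  obtain ⟨f, hf, hf0, hf1⟩ := J₀.exists_fix
  have hff : f + f * f ≠ 0 := by
    have h1 : f + f * f = f * (1 + f) := by ring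
    rw [h1]
    refine mul_ne_zero hf0 ?_
    intro h0
    exact hf1 (J₀.eq_of_add_eq_zero h0).symm
  have hb : J₀.σ (f + f * f)⁻¹ = (f + f * f)⁻¹ := by rw [map_inv₀, map_add, map_mul, hf]
  have h1 : J.St (e 1) ≤ M := by
    apply plane_all hT (a := ι f) (b := ι (f + f * f)⁻¹) ?_ (emb_coef ι hι hM1 hf)
      (emb_coef ι hι hM1 hb)
    rw [← map_mul, ← map_add, ← map_mul, inv_mul_cancel₀ hff, map_one]
  apply gen_top
  intro i
  by_cases hi : i = 1
  · subst hi; exact h1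
  · obtain ⟨l, hl1, hli⟩ := fin3_third 1 i
    obtain ⟨k, hk, hk'⟩ := exists_St (J := J₀) (i := l) (j := 1) hl1 (J₀.h_e_e i)
      (by simp [e, hli])
    have h2 : J.A (emb ι hι k) (e 1) = e i := by rw [A_emb_e, hk', ← e_map]
    intro g hg
    have h3 : (emb ι hι k)⁻¹ * g * emb ι hι k ∈ J.St (e 1) := by
      rw [mem_St, A_mul, A_mul, h2, mem_St.mp hg, ← h2, A_inv_A]
    have h4 : g = emb ι hι k * ((emb ι hι k)⁻¹ * g * emb ι hι k) * (emb ι hι k)⁻¹ := by group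
    rw [h4]
    exact M.mul_mem (M.mul_mem (hM1 k) (h1 h3)) (M.inv_mem (hM1 k))

end main

end Inv

end Q20.RankT
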