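import Mathlib
import Pool.Agent.Q20.RankT.Count

/-!
The identity for paths of length three in the orthogonality graph on unit vectors.
-/

namespace Q20.RankT

open Finset Matrix

variable {E : Type} [Field E] [Fintype E] [DecidableEq E]

namespace Inv

variable (J : Inv E)

lemma c2_formula {u : Fin 3 → E} (hu : J.h u u = 1) :
    J.c2 u + (if u 2 * J.σ (u 2) = 1 then (J.q + 1) else 0) =
      (J.q + 1) + (if u 0 = 0 ∧ u 1 = 0 then (J.q ^ 3 - J.q) else 0) := by
  by_cases h2 : u 2 * J.σ (u 2) = 1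
  · rw [if_pos h2]
    by_cases h0 : u 0 = 0 ∧ u 1 = 0
    · rw [if_pos h0, J.c2_zero h0.1 h0.2]; ring
    · rw [if_neg h0, J.c2_iso hu h2 h0]; ring
  · rw [if_neg h2, J.c2_generic hu h2, if_neg]
    rintro ⟨h0, h1⟩
    have := J.unit_norm hu
    rw [h0, h1] at this
    apply h2
    simp only [zero_mul, add_zero] at this
    exact (J.eq_of_add_eq_zero this.symm).symm

/-- paths of length three from `e 2` to `v` -/
def c3 (v : Fin 3 → E) : ℕ :=
  ∑ u ∈ univ.filter (fun u : Fin 3 → E => J.h u u = 1 ∧ J.h u v = 0), J.c2 u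

lemma c3_formula {v : Fin 3 → E} (hv : J.h v v = 1) :
    J.c3 v + (J.q + 1) * J.mc v =
      (J.q + 1) * (J.q ^ 3 - J.q) + (J.q ^ 3 - J.q) * J.dc v := by
  have h1 : J.c3 v + ∑ u ∈ univ.filter (fun u : Fin 3 → E => J.h u u = 1 ∧ J.h u v = 0),
      (if u 2 * J.σ (u 2) = 1 then (J.q + 1) else 0) =
      ∑ u ∈ univ.filter (fun u : Fin 3 → E => J.h u u = 1 ∧ J.h u v = 0),
        ((J.q + 1) + (if u 0 = 0 ∧ u 1 = 0 then (J.q ^ 3 - J.q) else 0)) := by
    rw [c3, ← Finset.sum_add_distrib]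
    refine Finset.sum_congr rfl fun u hu => ?_
    rw [mem_filter] at hu
    exact J.c2_formula hu.2.1
  rw [Finset.sum_add_distrib, Finset.sum_const, J.card_perp hv, smul_eq_mul] at h1
  rw [← Finset.sum_filter, ← Finset.sum_filter, Finset.sum_const, Finset.sum_const,
    Finset.filter_filter, Finset.filter_filter, smul_eq_mul, smul_eq_mul] at h1
  have h2 : (univ.filter (fun u : Fin 3 → E => (J.h u u = 1 ∧ J.h u v = 0) ∧
      u 2 * J.σ (u 2) = 1)).card = J.mc v := rfl
  have h3 : (univ.filter (fun u : Fin 3 → E => (J.h u u = 1 ∧ J.h u v = 0) ∧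
      (u 0 = 0 ∧ u 1 = 0))).card = J.dc v := rfl
  rw [h2, h3] at h1
  linarith

/-- the constant -/
def C : ℕ := (J.q + 1) ^ 2 * J.q * (J.q - 2)

theorem path_identity {v : Fin 3 → E} (hv : J.h v v = 1) :
    J.c3 v + (J.q + 1) * J.c2 v = (J.q + 1) ^ 2 * J.q ^ 2 *
      ((if v 2 = 0 then 1 else 0) + (if v 0 = 0 ∧ v 1 = 0 then 1 else 0)) + J.C := by
  have h1 := J.c3_formula hv
  have h2 := J.c2_formula hv
  have h4 := J.q4
  obtain ⟨c, hc⟩ := Nat.exists_eq_add_of_le h4
  have ek : J.q ^ 3 - J.q = (J.q + 1) * (J.q * (J.q - 1)) := by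
    rw [hc]
    have e1 : 4 + c - 1 = 3 + c := by omega
    rw [e1]
    have : (4 + c) ^ 3 = (4 + c + 1) * ((4 + c) * (3 + c)) + (4 + c) := by ring
    rw [this, Nat.add_sub_cancel]
  have e1 : J.q - 1 = 3 + c := by omega
  have e2 : J.q - 2 = 2 + c := by omega
  rw [ek, e1] at h1 h2
  rw [C, e2]
  by_cases h0 : v 0 = 0 ∧ v 1 = 0
  · have hv2 : v 2 * J.σ (v 2) = 1 := by
      have := J.unit_norm hv
      rw [h0.1, h0.2] at this
      simp only [zero_mul, add_zero] at this
      exact (J.eq_of_add_eq_zero this.symm).symm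
    have hv20 : v 2 ≠ 0 := by
      intro h; rw [h, zero_mul] at hv2; exact zero_ne_one hv2
    rw [J.mc_zero hv h0.1 h0.2, J.dc_ne hv20] at h1
    rw [if_pos hv2, if_pos h0] at h2
    rw [if_neg hv20, if_pos h0]
    have h3 : J.c2 v = (J.q + 1) * (J.q * (3 + c)) := by omega
    have h5 : J.c3 v = (J.q + 1) * ((J.q + 1) * (J.q * (3 + c))) := by omega
    rw [h3, h5, hc]
    ring
  · rw [if_neg h0] at h2 ⊢
    by_cases h20 : v 2 = 0
    · have hv2 : v 2 * J.σ (v 2) ≠ 1 := by rw [h20, zero_mul]; exact zero_ne_one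
      rw [J.mc_generic hv hv2, J.dc_zero h20, h20, zero_mul, zero_div, J.nf_zero] at h1
      rw [if_neg hv2] at h2
      rw [if_pos h20]
      have h3 : J.c2 v = J.q + 1 := by omega
      rw [h3]
      rw [hc] at h1 ⊢
      nlinarith [h1]
    · rw [if_neg h20]
      rw [J.dc_ne h20] at h1
      by_cases hv2 : v 2 * J.σ (v 2) = 1
      · rw [J.mc_iso hv hv2 h0] at h1
        rw [if_pos hv2] at h2
        have h3 : J.c2 v = 0 := by omega
        rw [h3]
        rw [hc] at h1 ⊢
        nlinarith [h1]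
      · have hn0 : (1 : E) + v 2 * J.σ (v 2) ≠ 0 := by
          intro h; exact hv2 (J.eq_of_add_eq_zero h).symm
        have hnf : J.nf (v 2 * J.σ (v 2) / (1 + v 2 * J.σ (v 2)) ^ 2) = J.q + 1 := by
          apply J.nf_ne
          · exact div_ne_zero (norm_ne_zero (J := J) h20) (pow_ne_zero _ hn0)
          · rw [map_div₀, map_pow, map_add, map_one, norm_fix]
        rw [J.mc_generic hv hv2, hnf] at h1
        rw [if_neg hv2] at h2
        have h3 : J.c2 v = J.q + 1 := by omega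
        rw [h3]
        rw [hc] at h1 ⊢
        nlinarith [h1]

end Inv

end Q20.RankT
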