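import Mathlib
import Pool.Agent.Q20.RankT.Ident

/-!
The orthogonality operator on functions on unit vectors.
-/

namespace Q20.RankT

open Finset Matrix

section spectral

variable {V : Type} [AddCommGroup V]

/-- A spectral bound extracted from a polynomial identity. -/
lemma spectral (B : V →+ V →+ ℝ) (hsymm : ∀ x y, B x y = B y x) (hpos : ∀ x, 0 ≤ B x x)
    (T : V →+ V) (hT : ∀ x y, B (T x) y = B x (T y)) {s q : ℕ} (hs : 1 ≤ s) (hq : 2 ≤ q) {F : V}
    (hF : ∀ z, B (T (T (T (T F))) + s • T (T (T F))) z =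
      B ((s ^ 2 * q ^ 2) • (T (T F) + s • T F)) z) :
    B (T F) (T F) ≤ (s ^ 2 * q ^ 2) * B F F := by
  have hsm : ∀ (n : ℕ) x y, B (n • x) y = n * B x y := by
    intro n x y
    rw [map_nsmul, AddMonoidHom.nsmul_apply, nsmul_eq_mul]
  have hadd : ∀ x y z, B (x + y) z = B x z + B y z := by
    intro x y z; rw [map_add, AddMonoidHom.add_apply]
  have hsub : ∀ x y z, B (x - y) z = B x z - B y z := by
    intro x y z; rw [map_sub, AddMonoidHom.sub_apply]
  simp only [hadd, hsm] at hF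
  push_cast at hF
  set G : V := (s ^ 2 * q ^ 2) • F - T (T F) with hG
  set c : ℝ := (s : ℝ) ^ 2 * q ^ 2 with hc
  have hTG : T G = (s ^ 2 * q ^ 2) • T F - T (T (T F)) := by
    rw [hG, map_sub, map_nsmul]
  have hTTG : T (T G) = (s ^ 2 * q ^ 2) • T (T F) - T (T (T (T F))) := by
    rw [hTG, map_sub, map_nsmul]
  -- the key relation
  have k1 : ∀ z, B (T (T G)) z = - (s * B (T G) z) := by
    intro z
    have := hF z
    rw [hTTG, hTG, hsub, hsub, hsm, hsm]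
    push_cast
    linarith
  have k2 : ∀ z, B (T (T (T G))) z = s ^ 2 * B (T G) z := by
    intro z
    rw [hT, k1, ← hT, k1]
    ring
  have e1 : B G G = c * B G F + s * B (T G) F := by
    have h1 : B G G = c * B G F - B G (T (T F)) := by
      conv_lhs => rw [hsymm]
      conv_lhs => arg 1; rw [hG]
      rw [hsub, hsm, hsymm F, hsymm (T (T F))]
      push_cast
      rfl
    rw [h1, ← hT, ← hT, k1]
    ring
  have e2 : B (T G) G = (c - s ^ 2) * B (T G) F := by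
    have h1 : B (T G) G = c * B (T G) F - B (T G) (T (T F)) := by
      rw [hsymm (T G) G]
      conv_lhs => arg 1; rw [hG]
      rw [hsub, hsm, hsymm F, hsymm (T (T F))]
      push_cast
      rfl
    rw [h1, ← hT, ← hT, k2]
    ring
  have e3 : B (T G) (T G) = - (s * ((c - s ^ 2) * B (T G) F)) := by
    rw [← hT, k1, e2]
  have e4 : B G F = c * B F F - B (T F) (T F) := by
    rw [hG, hsub, hsm, hT (T F)]
    push_cast
    rfl
  have p1 := hpos G
  have p2 := hpos (T G)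
  have hs' : (1 : ℝ) ≤ s := by exact_mod_cast hs
  have hq' : (2 : ℝ) ≤ q := by exact_mod_cast hq
  have hcs : 0 < c - s ^ 2 := by
    rw [hc]
    have : (4 : ℝ) ≤ q ^ 2 := by nlinarith
    nlinarith [sq_nonneg ((s : ℝ)), mul_pos (show (0 : ℝ) < s by linarith) (show (0 : ℝ) < s by linarith)]
  have hc0 : 0 < c := by nlinarith [sq_nonneg (s : ℝ)]
  have hneg : s * B (T G) F ≤ 0 := by
    rw [e3] at p2
    by_contra hcon
    push Not at hcon
    have : 0 < (c - s ^ 2) * (s * B (T G) F) := mul_pos hcs hcon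
    nlinarith
  have h5 : 0 ≤ c * B G F := by linarith
  have h6 : 0 ≤ B G F := by
    by_contra hcon
    push Not at hcon
    have : c * B G F < 0 := mul_neg_of_pos_of_neg hc0 hcon
    linarith
  linarith

end spectral

variable {E : Type} [Field E] [Fintype E] [DecidableEq E]

namespace Inv

variable (J : Inv E)

/-- the unit vectors -/
def U : Finset (Fin 3 → E) := univ.filter (fun v => J.h v v = 1)

/-- the unit vectors orthogonal to a vector -/
def nb (w : Fin 3 → E) : Finset (Fin 3 → E) := univ.filter (fun v => J.h v v = 1 ∧ J.h v w = 0)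

variable {J} in
lemma mem_U {v : Fin 3 → E} : v ∈ J.U ↔ J.h v v = 1 := by simp [U]

variable {J} in
lemma mem_nb {v w : Fin 3 → E} : v ∈ J.nb w ↔ J.h v v = 1 ∧ J.h v w = 0 := by simp [nb]

lemma card_nb {w : Fin 3 → E} (hw : J.h w w = 1) : (J.nb w).card = J.q ^ 3 - J.q := J.card_perp hw

variable {H : Type} [AddCommGroup H]

lemma swap (f : (Fin 3 → E) → (Fin 3 → E) → H) :
    ∑ w ∈ J.U, ∑ v ∈ J.nb w, f v w = ∑ v ∈ J.U, ∑ w ∈ J.nb v, f v w := by
  apply Finset.sum_comm'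
  intro w v
  rw [mem_U, mem_U, mem_nb, mem_nb]
  constructor
  · rintro ⟨h1, h2, h3⟩; exact ⟨⟨h1, J.h_comm_zero h3⟩, h2⟩
  · rintro ⟨⟨h1, h3⟩, h2⟩; exact ⟨h1, h2, J.h_comm_zero h3⟩

/-- the orthogonality operator -/
def N : ((Fin 3 → E) → H) →+ ((Fin 3 → E) → H) where
  toFun F w := ∑ v ∈ J.nb w, F v
  map_zero' := by ext w; simp
  map_add' F G := by ext w; simp [Finset.sum_add_distrib]

lemma N_apply (F : (Fin 3 → E) → H) (w : Fin 3 → E) : J.N F w = ∑ v ∈ J.nb w, F v := rfl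

lemma N_A (g : J.SU) (F : (Fin 3 → E) → H) (w : Fin 3 → E) :
    J.N (fun v => F (J.A g v)) w = J.N F (J.A g w) := by
  rw [N_apply, N_apply]
  refine Finset.sum_nbij' (fun v => J.A g v) (fun v => J.A g⁻¹ v) ?_ ?_ ?_ ?_ ?_
  · intro v hv
    rw [mem_nb] at hv ⊢
    rwa [h_A, h_A]
  · intro v hv
    rw [mem_nb] at hv ⊢
    have e1 : J.h (J.A g⁻¹ v) w = J.h v (J.A g w) := by
      rw [← h_A g, A_A_inv]
    rwa [h_A, e1]
  · intro v _; exact A_inv_A g v
  · intro v _; exact A_A_inv g v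
  · intro v _; rfl

lemma N_A' (g : J.SU) (F : (Fin 3 → E) → H) :
    J.N (fun v => F (J.A g v)) = fun w => J.N F (J.A g w) := by
  ext w; exact J.N_A g F w

lemma N_smul (F : (Fin 3 → E) → H) {l : E} (hl : l ≠ 0) (w : Fin 3 → E) :
    J.N F (l • w) = J.N F w := by
  rw [N_apply, N_apply]
  congr 1
  ext v
  rw [mem_nb, mem_nb, h_smul_right]
  constructor
  · rintro ⟨h1, h2⟩
    exact ⟨h1, (mul_eq_zero.mp h2).resolve_left (σ_ne_zero hl)⟩
  · rintro ⟨h1, h2⟩
    exact ⟨h1, by rw [h2, mul_zero]⟩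

lemma N2_e (F : (Fin 3 → E) → H) : J.N (J.N F) (e 2) = ∑ v ∈ J.U, J.c2 v • F v := by
  rw [N_apply]
  simp only [N_apply]
  rw [Finset.sum_comm' (t' := J.U)
    (s' := fun v => univ.filter (fun x : Fin 3 → E => J.h x x = 1 ∧ x 2 = 0 ∧ J.h x v = 0))]
  · refine Finset.sum_congr rfl fun v _ => ?_
    rw [Finset.sum_const]
    rfl
  · intro u v
    rw [mem_U, mem_nb, mem_nb, mem_filter, h_e_right]
    constructor
    · rintro ⟨⟨h1, h2⟩, h3, h4⟩
      exact ⟨⟨mem_univ _, h1, h2, J.h_comm_zero h4⟩, h3⟩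
    · rintro ⟨⟨-, h1, h2, h4⟩, h3⟩
      exact ⟨⟨h1, h2⟩, h3, J.h_comm_zero h4⟩

lemma N3_e (F : (Fin 3 → E) → H) : J.N (J.N (J.N F)) (e 2) = ∑ v ∈ J.U, J.c3 v • F v := by
  rw [N2_e]
  have h1 : ∀ u ∈ J.U, J.c2 u • J.N F u = ∑ v ∈ J.nb u, J.c2 u • F v := by
    intro u _
    rw [N_apply, Finset.smul_sum]
  rw [Finset.sum_congr rfl h1, J.swap (fun v w => J.c2 w • F v)]
  refine Finset.sum_congr rfl fun v _ => ?_
  rw [← Finset.sum_smul]
  rfl

lemma N1_e (F : (Fin 3 → E) → H) :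
    J.N F (e 2) = ∑ v ∈ J.U, (if v 2 = 0 then 1 else 0 : ℕ) • F v := by
  rw [N_apply]
  simp only [ite_smul, one_smul, zero_smul]
  rw [← Finset.sum_filter]
  congr 1
  ext v
  rw [mem_filter, mem_U, mem_nb, h_e_right]

lemma N3_identity_e (F : (Fin 3 → E) → H) (hF : ∑ v ∈ J.U, F v = 0) :
    J.N (J.N (J.N F)) (e 2) + (J.q + 1) • J.N (J.N F) (e 2) =
      ((J.q + 1) ^ 2 * J.q ^ 2) • (J.N F (e 2) +
        ∑ v ∈ J.U.filter (fun v => v 0 = 0 ∧ v 1 = 0), F v) := by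
  have h1 : ∑ v ∈ J.U.filter (fun v => v 0 = 0 ∧ v 1 = 0), F v =
      ∑ v ∈ J.U, (if v 0 = 0 ∧ v 1 = 0 then 1 else 0 : ℕ) • F v := by
    simp only [ite_smul, one_smul, zero_smul]
    rw [← Finset.sum_filter]
  rw [N3_e, N2_e, N1_e, h1, ← Finset.sum_add_distrib, Finset.smul_sum, Finset.smul_sum,
    ← Finset.sum_add_distrib]
  have h2 : ∑ v ∈ J.U, J.C • F v = 0 := by rw [← Finset.smul_sum, hF, smul_zero]
  rw [← add_zero (∑ v ∈ J.U, _ • (_ + _)), ← h2, ← Finset.sum_add_distrib]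
  refine Finset.sum_congr rfl fun v hv => ?_
  rw [mem_U] at hv
  rw [smul_smul, ← add_smul, ← add_smul, smul_smul, ← add_smul, J.path_identity hv]

lemma card_par : (J.U.filter (fun v => v 0 = 0 ∧ v 1 = 0)).card = J.q + 1 := by
  have h1 := J.dc_zero (v := e 0) (by simp [e])
  rw [← h1, dc]
  congr 1
  ext v
  simp only [mem_filter, mem_U, mem_univ, true_and, h_e_right]
  constructor
  · rintro ⟨h1, h2, h3⟩; exact ⟨⟨h1, h2⟩, h2, h3⟩
  · rintro ⟨⟨h1, h2⟩, -, h3⟩; exact ⟨h1, h2, h3⟩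

lemma sum_N (F : (Fin 3 → E) → H) (hF : ∑ v ∈ J.U, F v = 0) : ∑ v ∈ J.U, J.N F v = 0 := by
  simp only [N_apply]
  rw [J.swap (fun v _ => F v)]
  have h1 : ∀ v ∈ J.U, ∑ _w ∈ J.nb v, F v = (J.q ^ 3 - J.q) • F v := by
    intro v hv
    rw [Finset.sum_const, J.card_nb (mem_U.mp hv)]
  rw [Finset.sum_congr rfl h1, ← Finset.smul_sum, hF, smul_zero]

lemma N4_identity_e (F : (Fin 3 → E) → H) (hF : ∑ v ∈ J.U, F v = 0) :
    J.N (J.N (J.N (J.N F))) (e 2) + (J.q + 1) • J.N (J.N (J.N F)) (e 2) =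
      ((J.q + 1) ^ 2 * J.q ^ 2) • (J.N (J.N F) (e 2) + (J.q + 1) • J.N F (e 2)) := by
  rw [J.N3_identity_e (J.N F) (J.sum_N F hF)]
  congr 2
  rw [← J.card_par, ← Finset.sum_const]
  refine Finset.sum_congr rfl fun v hv => ?_
  rw [mem_filter, mem_U] at hv
  obtain ⟨h1, h2, h3⟩ := hv
  have h4 : v = v 2 • e 2 := by
    conv_lhs => rw [vec_eq v]
    rw [h2, h3]; simp
  rw [h4, N_smul]
  intro h5
  rw [h5, zero_smul] at h4
  rw [h4, h_zero_left] at h1
  exact zero_ne_one h1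

lemma N4_identity (F : (Fin 3 → E) → H) (hF : ∑ v ∈ J.U, F v = 0) {w : Fin 3 → E}
    (hw : J.h w w = 1) :
    J.N (J.N (J.N (J.N F))) w + (J.q + 1) • J.N (J.N (J.N F)) w =
      ((J.q + 1) ^ 2 * J.q ^ 2) • (J.N (J.N F) w + (J.q + 1) • J.N F w) := by
  obtain ⟨g, rfl⟩ := exists_unit hw 2
  have h1 := J.N4_identity_e (fun v => F (J.A g v)) (by
    rw [← hF]
    refine Finset.sum_nbij' (fun v => J.A g v) (fun v => J.A g⁻¹ v) ?_ ?_ ?_ ?_ ?_
    · intro v hv
      rw [mem_U] at hv ⊢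
      rwa [h_A]
    · intro v hv
      rw [mem_U] at hv ⊢
      rwa [h_A]
    · intro v _; exact A_inv_A g v
    · intro v _; exact A_A_inv g v
    · intro v _; rfl)
  simp only [N_A'] at h1
  exact h1

end Inv

end Q20.RankT
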