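import Mathlib

/-!
Three projections with small pairwise angles.
-/

namespace Q20.RankT

open Finset Filter Topology

variable {H : Type} [NormedAddCommGroup H] [InnerProductSpace ℂ H] [CompleteSpace H]

/-- The real part of the inner product. -/
noncomputable def r (x y : H) : ℝ := RCLike.re (inner ℂ x y)

omit [CompleteSpace H]

lemma r_symm (x y : H) : r x y = r y x := by unfold r; exact inner_re_symm x y
lemma r_self (x : H) : r x x = ‖x‖ ^ 2 := by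
  unfold r; exact (norm_sq_eq_re_inner (𝕜 := ℂ) x).symm
lemma r_add_left (x y z : H) : r (x + y) z = r x z + r y z := by simp [r, inner_add_left]
lemma r_add_right (x y z : H) : r x (y + z) = r x y + r x z := by simp [r, inner_add_right]
lemma r_sub_left (x y z : H) : r (x - y) z = r x z - r y z := by simp [r, inner_sub_left]
lemma r_sub_right (x y z : H) : r x (y - z) = r x y - r x z := by simp [r, inner_sub_right]
lemma r_smul_left (a : ℝ) (x y : H) : r ((a : ℂ) • x) y = a * r x y := by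
  simp [r, inner_smul_left]
lemma r_smul_right (a : ℝ) (x y : H) : r x ((a : ℂ) • y) = a * r x y := by
  simp [r, inner_smul_right]

/-- An orthogonal projection, as a function. -/
structure IsProj (P : H → H) : Prop where
  sub : ∀ v w, P (v - w) = P v - P w
  smul : ∀ (c : ℂ) v, P (c • v) = c • P v
  idem : ∀ v, P (P v) = P v
  symm : ∀ v w, inner ℂ (P v) w = inner ℂ v (P w)

lemma nsq_sub (a b : H) : ‖a - b‖ ^ 2 = ‖a‖ ^ 2 - 2 * r a b + ‖b‖ ^ 2 := by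
  rw [← r_self, r_sub_left, r_sub_right, r_sub_right, r_self, r_self, r_symm b a]; ring

lemma IsProj.r_symm {P : H → H} (hP : IsProj P) (v w : H) : r (P v) w = r v (P w) := by
  unfold r; rw [hP.symm]

lemma IsProj.orth {P : H → H} (hP : IsProj P) (v w : H) : r (v - P v) (P w) = 0 := by
  rw [r_sub_left, ← hP.r_symm, ← hP.r_symm, hP.idem, sub_self]

lemma IsProj.norm_sq {P : H → H} (hP : IsProj P) (v : H) : ‖v - P v‖ ^ 2 = r (v - P v) v := by
  rw [← r_self, r_sub_right, hP.orth, sub_zero]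

lemma IsProj.pyth {P : H → H} (hP : IsProj P) (v : H) : ‖v‖ ^ 2 = ‖v - P v‖ ^ 2 + ‖P v‖ ^ 2 := by
  have h1 := hP.orth v v
  have h2 : v = (v - P v) + P v := by abel
  conv_lhs => rw [h2, ← r_self]
  rw [r_add_left, r_add_right, r_add_right, h1, RankT.r_symm (P v), h1, r_self, r_self]
  ring

lemma IsProj.le {P : H → H} (hP : IsProj P) (v : H) : ‖v - P v‖ ≤ ‖v‖ := by
  have := hP.pyth v
  nlinarith [norm_nonneg v, norm_nonneg (v - P v), sq_nonneg ‖P v‖]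

lemma IsProj.diff {P : H → H} (hP : IsProj P) (v w : H) :
    (v - w) - P (v - w) = (v - P v) - (w - P w) := by
  rw [hP.sub]; abel

lemma IsProj.zero {P : H → H} (hP : IsProj P) : P 0 = 0 := by
  have := hP.sub 0 0
  simpa using this

section

variable {P₀ P₁ P₂ : H → H} (h₀ : IsProj P₀) (h₁ : IsProj P₁) (h₂ : IsProj P₂)

/-- the sum of the complementary projections -/
noncomputable def Dd (P₀ P₁ P₂ : H → H) (v : H) : H := (v - P₀ v) + (v - P₁ v) + (v - P₂ v)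

/-- the quadratic form -/
noncomputable def qf (P₀ P₁ P₂ : H → H) (v : H) : ℝ :=
  ‖v - P₀ v‖ ^ 2 + ‖v - P₁ v‖ ^ 2 + ‖v - P₂ v‖ ^ 2

/-- small angle -/
def Ang (P Q : H → H) : Prop := ∀ v : H,
  -(1 / 3 : ℝ) * (‖v - P v‖ ^ 2 + ‖v - Q v‖ ^ 2) ≤ 2 * r (v - P v) (v - Q v)

lemma Dd_sq (v : H) : ‖Dd P₀ P₁ P₂ v‖ ^ 2 = qf P₀ P₁ P₂ v +
    2 * r (v - P₀ v) (v - P₁ v) + 2 * r (v - P₀ v) (v - P₂ v) + 2 * r (v - P₁ v) (v - P₂ v) := by
  rw [← r_self, Dd, qf]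
  simp only [r_add_left, r_add_right]
  rw [r_symm (v - P₁ v) (v - P₀ v), r_symm (v - P₂ v) (v - P₀ v), r_symm (v - P₂ v) (v - P₁ v),
    r_self, r_self, r_self]
  ring

lemma Dd_lower (a : Ang P₀ P₁) (b : Ang P₀ P₂) (c : Ang P₁ P₂) (v : H) :
    (1 / 3) * qf P₀ P₁ P₂ v ≤ ‖Dd P₀ P₁ P₂ v‖ ^ 2 := by
  rw [Dd_sq]
  have := a v
  have := b v
  have := c v
  unfold qf
  linarith

lemma two_r_le (x y : H) : 2 * r x y ≤ ‖x‖ ^ 2 + ‖y‖ ^ 2 := by
  have h := sq_nonneg ‖x - y‖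
  rw [← r_self, r_sub_left, r_sub_right, r_sub_right, r_self, r_self, r_symm y x] at h
  linarith

lemma Dd_upper (v : H) : ‖Dd P₀ P₁ P₂ v‖ ^ 2 ≤ 3 * qf P₀ P₁ P₂ v := by
  rw [Dd_sq]
  have := two_r_le (v - P₀ v) (v - P₁ v)
  have := two_r_le (v - P₀ v) (v - P₂ v)
  have := two_r_le (v - P₁ v) (v - P₂ v)
  unfold qf
  linarith

include h₀ h₁ h₂

lemma qf_le (v : H) : qf P₀ P₁ P₂ v ≤ 3 * ‖v‖ ^ 2 := by
  have a := h₀.pyth v
  have b := h₁.pyth v
  have c := h₂.pyth v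
  have := sq_nonneg ‖P₀ v‖
  have := sq_nonneg ‖P₁ v‖
  have := sq_nonneg ‖P₂ v‖
  unfold qf
  linarith

lemma qf_sub (v x : H) : qf P₀ P₁ P₂ (v - x) = qf P₀ P₁ P₂ v - 2 * r (Dd P₀ P₁ P₂ v) x +
    qf P₀ P₁ P₂ x := by
  have key : ∀ {P : H → H}, IsProj P → ‖(v - x) - P (v - x)‖ ^ 2 =
      ‖v - P v‖ ^ 2 - 2 * r (v - P v) x + ‖x - P x‖ ^ 2 := by
    intro P hP
    have this : r (v - P v) (x - P x) = r (v - P v) x := by
      rw [r_sub_right (v - P v) x, hP.orth, sub_zero]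
    rw [hP.diff, nsq_sub, this]
  unfold qf Dd
  rw [key h₀, key h₁, key h₂]
  simp only [r_add_left]
  ring

/-- one step of the iteration -/
noncomputable def stp (P₀ P₁ P₂ : H → H) (v : H) : H := v - ((1 / 3 : ℝ) : ℂ) • Dd P₀ P₁ P₂ v

lemma qf_step (a : Ang P₀ P₁) (b : Ang P₀ P₂) (c : Ang P₁ P₂) (v : H) :
    qf P₀ P₁ P₂ (stp P₀ P₁ P₂ v) ≤ (8 / 9) * qf P₀ P₁ P₂ v := by
  have h3 := Dd_lower a b c v
  have h4 := qf_le h₀ h₁ h₂ (((1 / 3 : ℝ) : ℂ) • Dd P₀ P₁ P₂ v)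
  have h5 : ‖(((1 / 3 : ℝ) : ℂ) • Dd P₀ P₁ P₂ v)‖ ^ 2 = (1 / 9) * ‖Dd P₀ P₁ P₂ v‖ ^ 2 := by
    rw [← r_self, r_smul_left, r_smul_right, r_self]; ring
  rw [h5] at h4
  rw [stp, qf_sub h₀ h₁ h₂, r_smul_right, r_self]
  linarith

lemma exists_fixed [CompleteSpace H] (a : Ang P₀ P₁) (b : Ang P₀ P₂) (c : Ang P₁ P₂) {v : H}
    {δ : ℝ} (hδ : 0 ≤ δ)
    (hv₀ : ‖v - P₀ v‖ ≤ δ) (hv₁ : ‖v - P₁ v‖ ≤ δ) (hv₂ : ‖v - P₂ v‖ ≤ δ) :
    ∃ w : H, P₀ w = w ∧ P₁ w = w ∧ P₂ w = w ∧ ‖v - w‖ ≤ 20 * δ := by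
  set s : ℕ → H := fun n => (stp P₀ P₁ P₂)^[n] v with hs
  have hs0 : s 0 = v := rfl
  have hsS : ∀ n, s (n + 1) = stp P₀ P₁ P₂ (s n) := by
    intro n; simp only [hs, Function.iterate_succ_apply']
  have hq0 : qf P₀ P₁ P₂ v ≤ 3 * δ ^ 2 := by
    have e0 := pow_le_pow_left₀ (norm_nonneg _) hv₀ 2
    have e1 := pow_le_pow_left₀ (norm_nonneg _) hv₁ 2
    have e2 := pow_le_pow_left₀ (norm_nonneg _) hv₂ 2
    unfold qf; linarith
  have hqnn : ∀ x, 0 ≤ qf P₀ P₁ P₂ x := by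
    intro x; unfold qf; positivity
  have hqn : ∀ n, qf P₀ P₁ P₂ (s n) ≤ 3 * (δ * (19 / 20) ^ n) ^ 2 := by
    intro n
    induction n with
    | zero => rw [hs0]; simpa using hq0
    | succ n ih =>
      rw [hsS]
      have h3 := qf_step h₀ h₁ h₂ a b c (s n)
      have h4 : 3 * (δ * (19 / 20) ^ (n + 1)) ^ 2 = (361 / 400) * (3 * (δ * (19 / 20) ^ n) ^ 2) := by
        rw [pow_succ]; ring
      rw [h4]
      have h5 : 0 ≤ 3 * (δ * (19 / 20 : ℝ) ^ n) ^ 2 := by positivity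
      linarith
  have hstep : ∀ n, dist (s n) (s (n + 1)) ≤ δ * (19 / 20) ^ n := by
    intro n
    rw [dist_eq_norm, hsS, stp, sub_sub_cancel, norm_smul]
    have h3 := Dd_upper (P₀ := P₀) (P₁ := P₁) (P₂ := P₂) (s n)
    have h4 : ‖Dd P₀ P₁ P₂ (s n)‖ ^ 2 ≤ (3 * (δ * (19 / 20) ^ n)) ^ 2 := by
      have := hqn n
      nlinarith
    have h5 : ‖Dd P₀ P₁ P₂ (s n)‖ ≤ 3 * (δ * (19 / 20) ^ n) := by
      apply le_of_sq_le_sq h4
      positivity
    have h6 : ‖((1 / 3 : ℝ) : ℂ)‖ = 1 / 3 := by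
      rw [Complex.norm_real]; norm_num
    rw [h6]
    linarith
  have hcau : CauchySeq s := cauchySeq_of_le_geometric (19 / 20) δ (by norm_num) hstep
  obtain ⟨w, hw⟩ := cauchySeq_tendsto_of_complete hcau
  have hdist := dist_le_of_le_geometric_of_tendsto₀ (19 / 20) δ (by norm_num) hstep hw
  have hfix : ∀ {P : H → H}, IsProj P →
      (∀ n, ‖s n - P (s n)‖ ^ 2 ≤ qf P₀ P₁ P₂ (s n)) → P w = w := by
    intro P hP hle
    have hP0 : ‖w - P w‖ ≤ 0 := by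
      have hlim : Tendsto (fun n => ‖w - s n‖ + 2 * (δ * (19 / 20) ^ n)) atTop (𝓝 (0 + 2 * (δ * 0))) := by
        refine Tendsto.add ?_ ?_
        · have := (tendsto_const_nhds (x := w)).sub hw
          have h7 := this.norm
          simpa using h7
        · refine Tendsto.const_mul _ (Tendsto.const_mul _ ?_)
          exact tendsto_pow_atTop_nhds_zero_of_lt_one (by norm_num) (by norm_num)
      rw [mul_zero, mul_zero, add_zero] at hlim
      refine ge_of_tendsto' hlim (fun n => ?_)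
      have h8 : w - P w = ((w - s n) - P (w - s n)) + (s n - P (s n)) := by
        rw [hP.diff]; abel
      have h9 : ‖s n - P (s n)‖ ≤ 2 * (δ * (19 / 20) ^ n) := by
        apply le_of_sq_le_sq (b := 2 * (δ * (19 / 20) ^ n))
        · have h10 := (hle n).trans (hqn n)
          nlinarith [sq_nonneg (δ * (19 / 20 : ℝ) ^ n)]
        · positivity
      calc ‖w - P w‖ ≤ ‖(w - s n) - P (w - s n)‖ + ‖s n - P (s n)‖ := by
            rw [h8]; exact norm_add_le _ _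
        _ ≤ ‖w - s n‖ + 2 * (δ * (19 / 20) ^ n) := add_le_add (hP.le _) h9
    have := norm_le_zero_iff.mp hP0
    exact (sub_eq_zero.mp this).symm
  refine ⟨w, ?_, ?_, ?_, ?_⟩
  · apply hfix h₀
    intro n; unfold qf; nlinarith [sq_nonneg ‖s n - P₁ (s n)‖, sq_nonneg ‖s n - P₂ (s n)‖]
  · apply hfix h₁
    intro n; unfold qf; nlinarith [sq_nonneg ‖s n - P₀ (s n)‖, sq_nonneg ‖s n - P₂ (s n)‖]
  · apply hfix h₂
    intro n; unfold qf; nlinarith [sq_nonneg ‖s n - P₀ (s n)‖, sq_nonneg ‖s n - P₁ (s n)‖]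
  · rw [hs0, dist_eq_norm] at hdist
    have : δ / (1 - 19 / 20) = 20 * δ := by ring
    rwa [this] at hdist

end

end Q20.RankT
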