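import Mathlib
import Pool.Agent.Q20.RankT.Oper
import Pool.Agent.Q20.RankT.Avg
import Pool.Agent.Q20.RankT.Three

/-!
The angle between the fixed spaces of two stabilizers in a unitary representation of the special
unitary group.
-/

namespace Q20.RankT

open Finset Matrix

section

variable {H : Type} [NormedAddCommGroup H] [InnerProductSpace ℂ H]

lemma r_zero_left (x : H) : r 0 x = 0 := by simp [r]

lemma r_sum_left {ι : Type} (s : Finset ι) (f : ι → H) (x : H) :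
    r (∑ i ∈ s, f i) x = ∑ i ∈ s, r (f i) x := by
  unfold r
  rw [sum_inner, map_sum]

lemma r_sum_right {ι : Type} (s : Finset ι) (f : ι → H) (x : H) :
    r x (∑ i ∈ s, f i) = ∑ i ∈ s, r x (f i) := by
  unfold r
  rw [inner_sum, map_sum]

lemma r_le (x y : H) : r x y ≤ ‖x‖ * ‖y‖ := by
  unfold r
  exact re_inner_le_norm x y

/-- The angle criterion. -/
lemma ang_of {P Q R : H → H} (hP : IsProj P) (hQ : IsProj Q) (hR : IsProj R)
    (hPR : ∀ v, P (R v) = R v) (hQR : ∀ v, Q (R v) = R v)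
    (hPQ : ∀ v, R v = 0 → ‖Q (P v)‖ ≤ (1 / 3) * ‖P v‖) : Ang P Q := by
  intro v₀
  set v : H := v₀ - R v₀ with hv
  have hv1 : v₀ - P v₀ = v - P v := by
    rw [hv, hP.sub, hPR]; abel
  have hv2 : v₀ - Q v₀ = v - Q v := by
    rw [hv, hQ.sub, hQR]; abel
  have hRv : R v = 0 := by rw [hv, hR.sub, hR.idem, sub_self]
  rw [hv1, hv2]
  have h1 := hPQ v hRv
  have e1 := hP.pyth v
  have e2 := hQ.pyth v
  have e3 : r (P v) v = ‖P v‖ ^ 2 := by
    rw [← r_self, ← hP.r_symm (P v), hP.idem]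
  have e4 : r v (Q v) = ‖Q v‖ ^ 2 := by
    rw [← r_self, hQ.r_symm, hQ.idem]
  have e5 : r (P v) (Q v) ≤ (1 / 3) * (‖P v‖ * ‖Q v‖) := by
    have h2 : r (P v) (Q v) = r (Q (P v)) (Q v) := by
      rw [hQ.r_symm, hQ.idem]
    rw [h2]
    refine (r_le _ _).trans ?_
    nlinarith [norm_nonneg (Q v)]
  have e6 : r (v - P v) (v - Q v) = ‖v‖ ^ 2 - ‖P v‖ ^ 2 - ‖Q v‖ ^ 2 + r (P v) (Q v) := by
    rw [r_sub_left, r_sub_right v v, r_sub_right (P v), r_self, e3, e4]; ring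
  -- nonnegativity of a square
  have e7 : 0 ≤ ‖v‖ ^ 2 - (3 / 2) * (‖P v‖ ^ 2 + ‖Q v‖ ^ 2) +
      (9 / 16) * (‖P v‖ ^ 2 + ‖Q v‖ ^ 2 + 2 * r (P v) (Q v)) := by
    have h2 := sq_nonneg ‖v - ((3 / 4 : ℝ) : ℂ) • (P v + Q v)‖
    rw [nsq_sub, r_smul_right, r_add_right, r_symm v (P v), e3, e4] at h2
    have h3 : ‖((3 / 4 : ℝ) : ℂ) • (P v + Q v)‖ ^ 2 = (9 / 16) * (‖P v‖ ^ 2 + ‖Q v‖ ^ 2 + 2 * r (P v) (Q v)) := by
      rw [← r_self, r_smul_left, r_smul_right, r_add_left, r_add_right, r_add_right, r_self, r_self,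
        r_symm (Q v) (P v)]
      ring
    rw [h3] at h2
    linarith
  rw [e6]
  nlinarith [sq_nonneg (‖P v‖ - ‖Q v‖)]

end

variable {E : Type} [Field E] [Fintype E] [DecidableEq E]

namespace Inv

variable (J : Inv E)

noncomputable instance : Fintype J.SU := Fintype.ofFinite _

noncomputable instance (v : Fin 3 → E) : Fintype (J.St v) := Fintype.ofFinite _

variable {H : Type} [NormedAddCommGroup H] [InnerProductSpace ℂ H]

/-- the bilinear form on functions -/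
noncomputable def B : ((Fin 3 → E) → H) →+ ((Fin 3 → E) → H) →+ ℝ where
  toFun F :=
    { toFun := fun G => ∑ v ∈ J.U, r (F v) (G v)
      map_zero' := by simp [r]
      map_add' := by
        intro G G'
        simp only [Pi.add_apply, r_add_right, Finset.sum_add_distrib] }
  map_zero' := by
    refine AddMonoidHom.ext fun G => ?_
    show ∑ v ∈ J.U, r (0 : H) (G v) = 0
    simp only [r_zero_left, Finset.sum_const_zero]
  map_add' := by
    intro F F'
    refine AddMonoidHom.ext fun G => ?_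
    show ∑ v ∈ J.U, r (F v + F' v) (G v) = ∑ v ∈ J.U, r (F v) (G v) + ∑ v ∈ J.U, r (F' v) (G v)
    simp only [r_add_left, Finset.sum_add_distrib]

lemma B_apply (F G : (Fin 3 → E) → H) : J.B F G = ∑ v ∈ J.U, r (F v) (G v) := rfl

lemma B_symm (F G : (Fin 3 → E) → H) : J.B F G = J.B G F := by
  simp only [B_apply]
  exact Finset.sum_congr rfl fun v _ => r_symm _ _

lemma B_pos (F : (Fin 3 → E) → H) : 0 ≤ J.B F F := by
  rw [B_apply]
  exact Finset.sum_nonneg fun v _ => by rw [r_self]; positivity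

lemma B_N (F G : (Fin 3 → E) → H) : J.B (J.N F) G = J.B F (J.N G) := by
  simp only [B_apply, N_apply, r_sum_left, r_sum_right]
  rw [J.swap (fun v w => r (F v) (G w))]

lemma B_congr {F F' : (Fin 3 → E) → H} (hF : ∀ v, J.h v v = 1 → F v = F' v)
    (G : (Fin 3 → E) → H) : J.B F G = J.B F' G := by
  rw [B_apply, B_apply]
  exact Finset.sum_congr rfl fun v hv => by rw [hF v (mem_U.mp hv)]

/-- The norm bound for the orthogonality operator. -/
lemma N_bound (F : (Fin 3 → E) → H) (hF : ∑ v ∈ J.U, F v = 0) :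
    J.B (J.N F) (J.N F) ≤ ((J.q + 1) ^ 2 * J.q ^ 2) * J.B F F := by
  have h4 := J.q4
  have h1 := spectral (V := (Fin 3 → E) → H) J.B J.B_symm J.B_pos J.N J.B_N (s := J.q + 1)
    (q := J.q) (by omega) (by omega) (F := F) (by
      intro z
      apply J.B_congr
      intro v hv
      have := J.N4_identity F hF hv
      exact this)
  push_cast at h1
  exact h1

variable [CompleteSpace H]

section rep

variable (π : J.SU →* UH H)

/-- The function attached to a vector. -/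
noncomputable def Fu (i : Fin 3) (u : H) (v : Fin 3 → E) : H := by
  classical
  exact if hv : ∃ g : J.SU, J.A g (e i) = v then (π (Classical.choose hv) : H →L[ℂ] H) u else 0

variable {J π}

lemma Fu_A {i : Fin 3} {u : H} (hu : ∀ k ∈ J.St (e i), (π k : H →L[ℂ] H) u = u) (g : J.SU) :
    J.Fu π i u (J.A g (e i)) = (π g : H →L[ℂ] H) u := by
  have hv : ∃ k : J.SU, J.A k (e i) = J.A g (e i) := ⟨g, rfl⟩
  unfold Fu
  rw [dif_pos hv]
  have h1 := Classical.choose_spec hv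
  set k := Classical.choose hv with hk
  have h2 : g⁻¹ * k ∈ J.St (e i) := by
    rw [mem_St, A_mul, h1, A_inv_A]
  have h3 := hu _ h2
  have h4 : (π k : H →L[ℂ] H) u = (π g : H →L[ℂ] H) ((π (g⁻¹ * k) : H →L[ℂ] H) u) := by
    rw [← U_mul, ← map_mul, mul_inv_cancel_left]
  rw [h4, h3]

lemma Fu_equiv {i : Fin 3} {u : H} (hu : ∀ k ∈ J.St (e i), (π k : H →L[ℂ] H) u = u) (g : J.SU)
    {v : Fin 3 → E} (hv : J.h v v = 1) :
    J.Fu π i u (J.A g v) = (π g : H →L[ℂ] H) (J.Fu π i u v) := by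
  obtain ⟨k, rfl⟩ := exists_unit hv i
  rw [← A_mul, Fu_A hu, Fu_A hu, map_mul, U_mul]

lemma N_Fu_equiv {i : Fin 3} {u : H} (hu : ∀ k ∈ J.St (e i), (π k : H →L[ℂ] H) u = u) (g : J.SU)
    (v : Fin 3 → E) :
    J.N (J.Fu π i u) (J.A g v) = (π g : H →L[ℂ] H) (J.N (J.Fu π i u) v) := by
  rw [← N_A, N_apply, N_apply, map_sum]
  exact Finset.sum_congr rfl fun w hw => Fu_equiv hu g (mem_nb.mp hw).1

lemma avg_sum {K : Type} [Group K] [Fintype K] (π : K →* UH H) {ι : Type} (s : Finset ι)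
    (f : ι → H) : avg π (∑ i ∈ s, f i) = ∑ i ∈ s, avg π (f i) := by
  simp only [avg, map_sum]
  rw [Finset.sum_comm, Finset.smul_sum]

lemma sum_Fu {i : Fin 3} {u : H} (hu : ∀ k ∈ J.St (e i), (π k : H →L[ℂ] H) u = u)
    (h0 : avg π u = 0) : ∑ v ∈ J.U, J.Fu π i u v = 0 := by
  have h1 : ∀ g : J.SU, (π g : H →L[ℂ] H) (∑ v ∈ J.U, J.Fu π i u v) = ∑ v ∈ J.U, J.Fu π i u v := by
    intro g
    rw [map_sum]
    refine Finset.sum_nbij' (fun v => J.A g v) (fun v => J.A g⁻¹ v) ?_ ?_ ?_ ?_ ?_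
    · intro v hv
      rw [mem_U] at hv ⊢
      rwa [h_A]
    · intro v hv
      rw [mem_U] at hv ⊢
      rwa [h_A]
    · intro v _; exact A_inv_A g v
    · intro v _; exact A_A_inv g v
    · intro v hv; rw [Fu_equiv hu g (mem_U.mp hv)]
  rw [← avg_fixed π h1, avg_sum]
  refine Finset.sum_eq_zero fun v hv => ?_
  obtain ⟨g, rfl⟩ := exists_unit (mem_U.mp hv) i
  rw [Fu_A hu, avg_π, h0]

/-- The restriction to a stabilizer. -/
noncomputable abbrev res (π : J.SU →* UH H) (i : Fin 3) : J.St (e i) →* UH H :=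
  π.comp (J.St (e i)).subtype

lemma N_Fu_e {i j : Fin 3} (hij : j ≠ i) {u : H}
    (hu : ∀ k ∈ J.St (e i), (π k : H →L[ℂ] H) u = u) :
    J.N (J.Fu π i u) (e j) = ((J.q ^ 3 - J.q : ℕ) : ℂ) • avg (res π j) u := by
  have h1 : ∀ g : J.St (e j), ((res π j) g : H →L[ℂ] H) (J.N (J.Fu π i u) (e j)) =
      J.N (J.Fu π i u) (e j) := by
    rintro ⟨g, hg⟩
    show (π g : H →L[ℂ] H) (J.N (J.Fu π i u) (e j)) = _
    rw [← N_Fu_equiv hu, mem_St.mp hg]
  rw [← avg_fixed (res π j) h1, N_apply, avg_sum, ← J.card_nb (J.h_e_e j), Nat.cast_smul_eq_nsmul,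
    ← Finset.sum_const]
  refine Finset.sum_congr rfl fun v hv => ?_
  rw [mem_nb, h_e_right] at hv
  obtain ⟨k, hk, hk'⟩ := exists_St (J := J) hij hv.1 hv.2
  rw [← hk', Fu_A hu]
  exact avg_π (res π j) ⟨k, hk⟩ u

/-- The key estimate. -/
theorem pair_bound {i j : Fin 3} (hij : j ≠ i) {u : H}
    (hu : ∀ k ∈ J.St (e i), (π k : H →L[ℂ] H) u = u) (h0 : avg π u = 0) :
    ‖avg (res π j) u‖ ≤ (1 / 3) * ‖u‖ := by
  have hN := J.N_bound (J.Fu π i u) (sum_Fu hu h0)
  rw [B_apply, B_apply] at hN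
  have h1 : ∀ v ∈ J.U, r (J.N (J.Fu π i u) v) (J.N (J.Fu π i u) v) =
      ‖J.N (J.Fu π i u) (e j)‖ ^ 2 := by
    intro v hv
    obtain ⟨g, rfl⟩ := exists_unit (mem_U.mp hv) j
    rw [r_self, N_Fu_equiv hu, U_norm]
  have h2 : ∀ v ∈ J.U, r (J.Fu π i u v) (J.Fu π i u v) = ‖u‖ ^ 2 := by
    intro v hv
    obtain ⟨g, rfl⟩ := exists_unit (mem_U.mp hv) i
    rw [r_self, Fu_A hu, U_norm]
  rw [Finset.sum_congr rfl h1, Finset.sum_congr rfl h2, Finset.sum_const, Finset.sum_const,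
    nsmul_eq_mul, nsmul_eq_mul] at hN
  have hc : (0 : ℝ) < (J.U.card : ℝ) := by
    have : 0 < J.U.card := Finset.card_pos.mpr ⟨e i, mem_U.mpr (J.h_e_e i)⟩
    exact_mod_cast this
  have h3 : ‖J.N (J.Fu π i u) (e j)‖ ^ 2 ≤ ((J.q + 1) ^ 2 * J.q ^ 2) * ‖u‖ ^ 2 := by
    have : (J.U.card : ℝ) * ‖J.N (J.Fu π i u) (e j)‖ ^ 2 ≤
        J.U.card * (((J.q + 1) ^ 2 * J.q ^ 2) * ‖u‖ ^ 2) := by
      linarith
    exact le_of_mul_le_mul_left this hc
  have h4 := J.q4
  have hq4 : (4 : ℝ) ≤ J.q := by exact_mod_cast h4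
  rw [N_Fu_e hij hu, norm_smul, Complex.norm_natCast] at h3
  have h5 : ((J.q ^ 3 - J.q : ℕ) : ℝ) = (J.q + 1) * J.q * (J.q - 1) := by
    rw [Nat.cast_sub]
    · push_cast; ring
    · calc J.q = J.q ^ 1 := (pow_one _).symm
        _ ≤ J.q ^ 3 := Nat.pow_le_pow_right (by omega) (by omega)
  rw [h5] at h3
  have h6 : ((J.q + 1) * J.q * (J.q - 1) * ‖avg (res π j) u‖) ^ 2 ≤ (((J.q : ℝ) + 1) * J.q * ‖u‖) ^ 2 := by
    nlinarith
  have h7 : (J.q + 1) * J.q * (J.q - 1) * ‖avg (res π j) u‖ ≤ ((J.q : ℝ) + 1) * J.q * ‖u‖ :=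
    le_of_sq_le_sq h6 (by positivity)
  have h8 : (J.q - 1) * ‖avg (res π j) u‖ ≤ ‖u‖ := by
    have hpos : 0 < ((J.q : ℝ) + 1) * J.q := by nlinarith
    have : ((J.q : ℝ) + 1) * J.q * ((J.q - 1) * ‖avg (res π j) u‖) ≤ ((J.q : ℝ) + 1) * J.q * ‖u‖ := by
      linarith
    exact le_of_mul_le_mul_left this hpos
  nlinarith [norm_nonneg (avg (res π j) u)]

lemma isProj_avg {K : Type} [Group K] [Fintype K] (π : K →* UH H) : IsProj (avg π) where
  sub := avg_sub π
  smul c v := by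
    simp only [avg, map_smul, ← Finset.smul_sum]
    rw [smul_comm]
  idem := avg_avg π
  symm := avg_inner π

theorem ang_pair (π : J.SU →* UH H) {i j : Fin 3} (hij : j ≠ i) :
    Ang (avg (res π i)) (avg (res π j)) := by
  apply ang_of (isProj_avg _) (isProj_avg _) (isProj_avg π)
  · intro v; exact comp_avg π _ v
  · intro v; exact comp_avg π _ v
  · intro v hv
    apply pair_bound hij
    · intro k hk
      exact π_avg (res π i) ⟨k, hk⟩ v
    · rw [avg_comp, hv]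

/-- Common fixed vectors of two stabilizers are fixed. -/
theorem fixed_pair (π : J.SU →* UH H) {i j : Fin 3} (hij : j ≠ i) {w : H}
    (hi : avg (res π i) w = w) (hj : avg (res π j) w = w) (g : J.SU) :
    (π g : H →L[ℂ] H) w = w := by
  let M : Subgroup J.SU :=
    { carrier := {g | (π g : H →L[ℂ] H) w = w}
      one_mem' := by
        show (π 1 : H →L[ℂ] H) w = w
        rw [map_one]; rfl
      mul_mem' := by
        intro a b ha hb
        change (π a : H →L[ℂ] H) w = w at ha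
        change (π b : H →L[ℂ] H) w = w at hb
        show (π (a * b) : H →L[ℂ] H) w = w
        rw [map_mul, U_mul, hb, ha]
      inv_mem' := by
        intro a ha
        change (π a : H →L[ℂ] H) w = w at ha
        show (π a⁻¹ : H →L[ℂ] H) w = w
        conv_lhs => rw [← ha]
        rw [← U_mul, ← map_mul, inv_mul_cancel, map_one]; rfl }
  have hMi : J.St (e i) ≤ M := by
    intro k hk
    show (π k : H →L[ℂ] H) w = w
    rw [← hi]
    exact π_avg (res π i) ⟨k, hk⟩ w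
  have hMj : J.St (e j) ≤ M := by
    intro k hk
    show (π k : H →L[ℂ] H) w = w
    rw [← hj]
    exact π_avg (res π j) ⟨k, hk⟩ w
  obtain ⟨l, hli, hlj⟩ := fin3_third i j
  have hMl : J.St (e l) ≤ M := by
    obtain ⟨k, hk, hk'⟩ := exists_St (J := J) hij (J.h_e_e l) (by simp [e, hlj.symm])
    intro g hg
    have h1 : k⁻¹ * g * k ∈ J.St (e i) := by
      rw [mem_St, A_mul, A_mul, hk', mem_St.mp hg, ← hk', A_inv_A]
    have h2 : g = k * (k⁻¹ * g * k) * k⁻¹ := by group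
    rw [h2]
    exact M.mul_mem (M.mul_mem (hMj hk) (hMi h1)) (M.inv_mem (hMj hk))
  have hM : ∀ x, J.St (e x) ≤ M := by
    intro x
    rcases fin3_cases hij.symm hli hlj x with rfl | rfl | rfl
    · exact hMi
    · exact hMj
    · exact hMl
  have h1 : g ∈ M := by rw [gen_top hM]; exact Subgroup.mem_top g
  exact h1

end rep

end Inv

end Q20.RankT
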