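import Mathlib
import Pool.Agent.Q20.RankT.Pair

/-!
A group generated by three suitably glued copies of the special unitary group has property (T).
-/

namespace Q20.RankT

open Finset Matrix

/-- Property (T) in the form used in the frozen statement. -/
def PropT (Γ : Type) [Group Γ] : Prop :=
  ∀ (H : Type) [NormedAddCommGroup H] [InnerProductSpace ℂ H] [CompleteSpace H]
    (ρ : Γ →* unitary (H →L[ℂ] H)),
    (∀ (S : Finset Γ) (ε : ℝ), 0 < ε →
        ∃ v : H, ‖v‖ = 1 ∧ ∀ s ∈ S, ‖(ρ s : H →L[ℂ] H) v - v‖ < ε) →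
    ∃ v : H, v ≠ 0 ∧ ∀ g : Γ, (ρ g : H →L[ℂ] H) v = v

variable {E : Type} [Field E] [Fintype E] [DecidableEq E]

namespace Inv

variable {J : Inv E}

theorem T_of_three {Γ : Type} [Group Γ] (A01 A02 A12 : J.SU →* Γ)
    (h0 : ∀ k ∈ J.St (e 0), A01 k = A02 k) (h1 : ∀ k ∈ J.St (e 1), A01 k = A12 k)
    (h2 : ∀ k ∈ J.St (e 2), A02 k = A12 k)
    (hgen : ∀ M : Subgroup Γ, A01.range ≤ M → A02.range ≤ M → A12.range ≤ M → M = ⊤) :
    PropT Γ := by
  classical
  intro H _ _ _ ρ hai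
  obtain ⟨v, hv1, hv⟩ := hai (univ.image A01 ∪ univ.image A02 ∪ univ.image A12) (1 / 40)
    (by norm_num)
  have m01 : ∀ k, ‖(ρ (A01 k) : H →L[ℂ] H) v - v‖ ≤ 1 / 40 := fun k =>
    (hv _ (by
      rw [mem_union, mem_union]; exact Or.inl (Or.inl (mem_image_of_mem _ (mem_univ _))))).le
  have m02 : ∀ k, ‖(ρ (A02 k) : H →L[ℂ] H) v - v‖ ≤ 1 / 40 := fun k =>
    (hv _ (by
      rw [mem_union, mem_union]; exact Or.inl (Or.inr (mem_image_of_mem _ (mem_univ _))))).le
  have r0 : res (ρ.comp A01) 0 = res (ρ.comp A02) 0 := by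
    ext k
    show (ρ (A01 k) : H →L[ℂ] H) _ = (ρ (A02 k) : H →L[ℂ] H) _
    rw [h0 k.1 k.2]
  have r1 : res (ρ.comp A01) 1 = res (ρ.comp A12) 1 := by
    ext k
    show (ρ (A01 k) : H →L[ℂ] H) _ = (ρ (A12 k) : H →L[ℂ] H) _
    rw [h1 k.1 k.2]
  have r2 : res (ρ.comp A02) 2 = res (ρ.comp A12) 2 := by
    ext k
    show (ρ (A02 k) : H →L[ℂ] H) _ = (ρ (A12 k) : H →L[ℂ] H) _
    rw [h2 k.1 k.2]
  have a01 := ang_pair (ρ.comp A01) (i := 0) (j := 1) (by decide)
  have a02 := ang_pair (ρ.comp A02) (i := 0) (j := 2) (by decide)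
  have a12 := ang_pair (ρ.comp A12) (i := 1) (j := 2) (by decide)
  rw [← r0] at a02
  rw [← r1, ← r2] at a12
  have c0 : ‖v - avg (res (ρ.comp A01) 0) v‖ ≤ 1 / 40 := avg_close _ (fun k => m01 k)
  have c1 : ‖v - avg (res (ρ.comp A01) 1) v‖ ≤ 1 / 40 := avg_close _ (fun k => m01 k)
  have c2 : ‖v - avg (res (ρ.comp A02) 2) v‖ ≤ 1 / 40 := avg_close _ (fun k => m02 k)
  obtain ⟨w, w0, w1, w2, hw⟩ := exists_fixed (isProj_avg _) (isProj_avg _) (isProj_avg _)
    a01 a02 a12 (by norm_num) c0 c1 c2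
  refine ⟨w, ?_, ?_⟩
  · rintro rfl
    rw [sub_zero, hv1] at hw
    norm_num at hw
  · have f01 := fixed_pair (ρ.comp A01) (i := 0) (j := 1) (by decide) w0 w1
    have f02 := fixed_pair (ρ.comp A02) (i := 0) (j := 2) (by decide) (by rw [← r0]; exact w0) w2
    have f12 := fixed_pair (ρ.comp A12) (i := 1) (j := 2) (by decide) (by rw [← r1]; exact w1)
      (by rw [← r2]; exact w2)
    let M : Subgroup Γ :=
      { carrier := {g | (ρ g : H →L[ℂ] H) w = w}
        one_mem' := by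
          show (ρ 1 : H →L[ℂ] H) w = w
          rw [map_one]; rfl
        mul_mem' := by
          intro a b ha hb
          change (ρ a : H →L[ℂ] H) w = w at ha
          change (ρ b : H →L[ℂ] H) w = w at hb
          show (ρ (a * b) : H →L[ℂ] H) w = w
          rw [map_mul, U_mul, hb, ha]
        inv_mem' := by
          intro a ha
          change (ρ a : H →L[ℂ] H) w = w at ha
          show (ρ a⁻¹ : H →L[ℂ] H) w = w
          conv_lhs => rw [← ha]
          rw [← U_mul, ← map_mul, inv_mul_cancel, map_one]; rfl }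
    have hM : M = ⊤ := by
      apply hgen
      · rintro _ ⟨k, rfl⟩; exact f01 k
      · rintro _ ⟨k, rfl⟩; exact f02 k
      · rintro _ ⟨k, rfl⟩; exact f12 k
    intro g
    have : g ∈ M := by rw [hM]; exact Subgroup.mem_top g
    exact this

end Inv

end Q20.RankT
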