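import Mathlib
import Pool.Agent.Q20.RankT.Surj
import Pool.Agent.Q20.RankT.Tprop

/-!
The concrete finite fields and the final group.
-/

namespace Q20.RankT

open Finset Matrix

noncomputable section

/-- the field with `2 ^ (4 * (2 * n + 1))` elements -/
def EE (n : ℕ) : Type := GaloisField 2 (4 * (2 * n + 1))

instance (n : ℕ) : Field (EE n) := inferInstanceAs (Field (GaloisField 2 (4 * (2 * n + 1))))
instance (n : ℕ) : Algebra (ZMod 2) (EE n) :=
  inferInstanceAs (Algebra (ZMod 2) (GaloisField 2 (4 * (2 * n + 1))))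
instance (n : ℕ) : CharP (EE n) 2 := inferInstanceAs (CharP (GaloisField 2 (4 * (2 * n + 1))) 2)
instance (n : ℕ) : Finite (EE n) := inferInstanceAs (Finite (GaloisField 2 (4 * (2 * n + 1))))
instance (n : ℕ) : Fintype (EE n) := Fintype.ofFinite _
instance (n : ℕ) : DecidableEq (EE n) := Classical.decEq _

lemma card_EE (n : ℕ) : Fintype.card (EE n) = (2 ^ (2 * (2 * n + 1))) ^ 2 := by
  rw [← Nat.card_eq_fintype_card, ← pow_mul]
  have h1 : Nat.card (EE n) = 2 ^ (4 * (2 * n + 1)) := GaloisField.card 2 _ (by omega)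
  rw [h1]
  congr 1
  ring

/-- the involution -/
def JJ (n : ℕ) : Inv (EE n) := stdInv (m := 2 * (2 * n + 1)) (by omega) (card_EE n)

lemma JJ_σ (n : ℕ) (x : EE n) : (JJ n).σ x = x ^ (2 ^ (2 * (2 * n + 1))) :=
  stdInv_σ _ _ x

lemma JJ_q (n : ℕ) : (JJ n).q = 2 ^ (2 * (2 * n + 1)) := rfl

lemma exists_emb (n : ℕ) : ∃ ι : EE 0 →+* EE n, ∀ x, (JJ n).σ (ι x) = ι ((JJ 0).σ x) := by
  have h1 : Module.finrank (ZMod 2) (EE 0) ∣ Module.finrank (ZMod 2) (EE n) := by
    have e1 : Module.finrank (ZMod 2) (EE 0) = 4 * (2 * 0 + 1) := GaloisField.finrank 2 (by omega)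
    have e2 : Module.finrank (ZMod 2) (EE n) = 4 * (2 * n + 1) := GaloisField.finrank 2 (by omega)
    rw [e1, e2]
    exact Nat.mul_dvd_mul_left 4 ⟨2 * n + 1, by ring⟩
  obtain ⟨f⟩ := FiniteField.nonempty_algHom_of_finrank_dvd h1
  refine ⟨f.toRingHom, fun x => ?_⟩
  rw [JJ_σ, JJ_σ, ← map_pow]
  congr 1
  have h2 : x ^ 16 = x := by
    have := FiniteField.pow_card x
    rw [card_EE] at this
    exact this
  have h3 : ∀ k : ℕ, x ^ (16 ^ k) = x := by
    intro k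
    induction k with
    | zero => simp
    | succ k ih => rw [pow_succ, pow_mul, ih, h2]
  have h4 : 2 ^ (2 * (2 * n + 1)) = 16 ^ n * 2 ^ (2 * (2 * 0 + 1)) := by
    have : (16 : ℕ) = 2 ^ 4 := by norm_num
    rw [this, ← pow_mul, ← pow_add]
    congr 1
    ring
  rw [h4, pow_mul, h3]

lemma noCube (n : ℕ) : Inv.NoCube (JJ n) := by
  intro l hl h3
  rw [JJ_σ] at hl
  have h4 : l ^ 4 = l := by
    rw [pow_succ, h3, one_mul]
  have h5 : ∀ k : ℕ, l ^ (4 ^ k) = l := by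
    intro k
    induction k with
    | zero => simp
    | succ k ih => rw [pow_succ, pow_mul, ih, h4]
  have h6 : 2 ^ (2 * (2 * n + 1)) = 4 ^ (2 * n + 1) := by
    rw [pow_mul]; norm_num
  rw [h6, h5] at hl
  have h7 : l ^ 3 = l * (l * l) := by ring
  rw [h7, hl, mul_one] at h3
  exact h3

variable {E : Type} [Field E] [Fintype E] [DecidableEq E]

/-- a cube generator of the norm one group -/
lemma exists_gen (J : Inv E) (hJ : Inv.NoCube J) : ∃ w : E, w * J.σ w = 1 ∧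
    ∀ n : E, n * J.σ n = 1 → ∃ k : ℤ, n = (w ^ 3) ^ k := by
  classical
  let μ : Subgroup Eˣ :=
    { carrier := {u | (u : E) * J.σ u = 1}
      one_mem' := by simp
      mul_mem' := by
        intro a b ha hb
        change (a : E) * J.σ a = 1 at ha
        change (b : E) * J.σ b = 1 at hb
        show ((a * b : Eˣ) : E) * J.σ ((a * b : Eˣ) : E) = 1
        rw [Units.val_mul, map_mul, mul_mul_mul_comm, ha, hb, mul_one]
      inv_mem' := by
        intro a ha
        change (a : E) * J.σ a = 1 at ha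
        show ((a⁻¹ : Eˣ) : E) * J.σ ((a⁻¹ : Eˣ) : E) = 1
        rw [Units.val_inv_eq_inv_val, map_inv₀, ← mul_inv, ha, inv_one] }
  have hcyc : IsCyclic μ := inferInstance
  obtain ⟨g, hg⟩ := hcyc.exists_generator
  have hinj : Function.Injective (fun u : μ => u ^ 3) := by
    intro a b hab
    have h1 : (a * b⁻¹) ^ 3 = 1 := by
      rw [mul_pow, inv_pow]
      have : a ^ 3 = b ^ 3 := hab
      rw [this, mul_inv_cancel]
    have h2 : (((a * b⁻¹ : μ) : Eˣ) : E) = 1 := by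
      apply hJ
      · exact (a * b⁻¹ : μ).2
      · have := congrArg (fun u : μ => ((u : Eˣ) : E)) h1
        simpa using this
    have h3 : a * b⁻¹ = 1 := by
      apply Subtype.ext
      apply Units.ext
      exact h2
    exact mul_inv_eq_one.mp h3
  obtain ⟨w, hw⟩ := Finite.surjective_of_injective hinj g
  refine ⟨((w : Eˣ) : E), w.2, fun n hn => ?_⟩
  have hn0 : n ≠ 0 := by rintro rfl; rw [zero_mul] at hn; exact zero_ne_one hn
  obtain ⟨k, hk⟩ := Subgroup.mem_zpowers_iff.mp (hg ⟨Units.mk0 n hn0, hn⟩)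
  refine ⟨k, ?_⟩
  have h1 := congrArg (fun u : μ => ((u : Eˣ) : E)) hk
  simp only [← hw] at h1
  simpa using h1.symm

lemma fix_of (J : Inv E) (a : Inv.fixF J) : J.σ a.1 = a.1 := a.2

lemma q_le_card (J : Inv E) : J.q ≤ Nat.card J.SU := by
  rw [← Inv.card_fixF J]
  refine Nat.card_le_card_of_injective
    (fun a : Inv.fixF J => Inv.tv (Inv.xz 1) a.1 (Inv.xz_iso Inv.norm_one) (fix_of J a)) ?_
  intro a b hab
  have h0 : Inv.tv (J := J) (Inv.xz 1) a.1 (Inv.xz_iso Inv.norm_one) (fix_of J a) =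
    Inv.tv (Inv.xz 1) b.1 (Inv.xz_iso Inv.norm_one) (fix_of J b) := hab
  have h1 : J.A (Inv.tv (Inv.xz 1) a.1 (Inv.xz_iso Inv.norm_one) (fix_of J a)) (Inv.e 0) =
    J.A (Inv.tv (Inv.xz 1) b.1 (Inv.xz_iso Inv.norm_one) (fix_of J b)) (Inv.e 0) := by rw [h0]
  rw [Inv.A_tv, Inv.A_tv] at h1
  have h2 := congrFun (add_left_cancel h1) 0
  rw [Inv.h_e_left] at h2
  apply Subtype.ext
  simpa [Inv.xz] using h2

/-- the embeddings -/
def ιι (n : ℕ) : EE 0 →+* EE n := Classical.choose (exists_emb n)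

lemma hιι (n : ℕ) : ∀ x, (JJ n).σ (ιι n x) = ιι n ((JJ 0).σ x) :=
  Classical.choose_spec (exists_emb n)

/-- the generators -/
def ww (n : ℕ) : EE n := Classical.choose (exists_gen (JJ n) (noCube n))

lemma hww (n : ℕ) : ww n * (JJ n).σ (ww n) = 1 :=
  (Classical.choose_spec (exists_gen (JJ n) (noCube n))).1

lemma hgww (n : ℕ) : ∀ x : EE n, x * (JJ n).σ x = 1 → ∃ k : ℤ, x = (ww n ^ 3) ^ k :=
  (Classical.choose_spec (exists_gen (JJ n) (noCube n))).2

/-- The big product. -/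
abbrev Big : Type := ∀ n : ℕ, (JJ n).SU

/-- first hom -/
def B02 : (JJ 0).SU →* Big := MonoidHom.pi fun n => Inv.emb (ιι n) (hιι n)

/-- second hom -/
def B01 : (JJ 0).SU →* Big := MonoidHom.pi fun n =>
  (MulAut.conj (Inv.d₀ (hww n))).toMonoidHom.comp (Inv.emb (ιι n) (hιι n))

/-- third hom -/
def B12 : (JJ 0).SU →* Big := MonoidHom.pi fun n =>
  (MulAut.conj (Inv.d₂ (hww n))).toMonoidHom.comp (Inv.emb (ιι n) (hιι n))

lemma B02_apply (g : (JJ 0).SU) (n : ℕ) : B02 g n = Inv.emb (ιι n) (hιι n) g := rfl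

lemma B01_apply (g : (JJ 0).SU) (n : ℕ) : B01 g n =
    Inv.d₀ (hww n) * Inv.emb (ιι n) (hιι n) g * (Inv.d₀ (hww n))⁻¹ := rfl

lemma B12_apply (g : (JJ 0).SU) (n : ℕ) : B12 g n =
    Inv.d₂ (hww n) * Inv.emb (ιι n) (hιι n) g * (Inv.d₂ (hww n))⁻¹ := rfl

/-- The group. -/
def Gam : Subgroup Big := B01.range ⊔ B02.range ⊔ B12.range

lemma le01 : B01.range ≤ Gam := le_sup_left.trans le_sup_left
lemma le02 : B02.range ≤ Gam := le_sup_right.trans le_sup_left
lemma le12 : B12.range ≤ Gam := le_sup_right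

/-- The group has property (T). -/
theorem Gam_T : PropT Gam := by
  let A01 : (JJ 0).SU →* Gam := B01.codRestrict Gam (fun g => le01 ⟨g, rfl⟩)
  let A02 : (JJ 0).SU →* Gam := B02.codRestrict Gam (fun g => le02 ⟨g, rfl⟩)
  let A12 : (JJ 0).SU →* Gam := B12.codRestrict Gam (fun g => le12 ⟨g, rfl⟩)
  apply Inv.T_of_three A01 A02 A12
  · intro k hk
    apply Subtype.ext
    show B01 k = B02 k
    funext n
    rw [B01_apply, B02_apply, Inv.comm_d₀ (hww n) (Inv.emb_St _ _ hk), mul_inv_cancel_right]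
  · intro k hk
    apply Subtype.ext
    show B01 k = B12 k
    funext n
    rw [B01_apply, B12_apply, Inv.d_mul (hww n), mul_assoc (Inv.d₂ (hww n)),
      Inv.comm_d₁ (hww n) (Inv.emb_St _ _ hk)]
    group
  · intro k hk
    apply Subtype.ext
    show B02 k = B12 k
    funext n
    rw [B12_apply, B02_apply, Inv.comm_d₂ (hww n) (Inv.emb_St _ _ hk), mul_inv_cancel_right]
  · intro M h1 h2 h3
    have h4 : Gam ≤ M.map Gam.subtype := by
      refine sup_le (sup_le ?_ ?_) ?_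
      · rintro _ ⟨g, rfl⟩; exact ⟨A01 g, h1 ⟨g, rfl⟩, rfl⟩
      · rintro _ ⟨g, rfl⟩; exact ⟨A02 g, h2 ⟨g, rfl⟩, rfl⟩
      · rintro _ ⟨g, rfl⟩; exact ⟨A12 g, h3 ⟨g, rfl⟩, rfl⟩
    rw [eq_top_iff]
    rintro ⟨x, hx⟩ -
    obtain ⟨y, hy, hyx⟩ := h4 hx
    have : y = ⟨x, hx⟩ := Subtype.ext hyx
    rwa [← this]

/-- the projections -/
def pr (n : ℕ) : Gam →* (JJ n).SU := (Pi.evalMonoidHom _ n).comp Gam.subtype

theorem pr_surj (n : ℕ) : Function.Surjective (pr n) := by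
  rw [← MonoidHom.range_eq_top]
  apply Inv.surj (ιι n) (hιι n) (hww n) _ _ (hgww n)
  · intro g
    exact ⟨⟨B02 g, le02 ⟨g, rfl⟩⟩, rfl⟩
  · intro g
    exact ⟨⟨B01 g, le01 ⟨g, rfl⟩⟩, rfl⟩

lemma card_ker (n : ℕ) : n ≤ (pr n).ker.index := by
  have h1 : (pr n).ker.index = Nat.card (JJ n).SU := by
    rw [Subgroup.index_ker, MonoidHom.range_eq_top.mpr (pr_surj n)]
    exact Nat.card_congr Subgroup.topEquiv.toEquiv
  rw [h1]
  refine le_trans ?_ (q_le_card (JJ n))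
  rw [JJ_q]
  calc n ≤ 2 * (2 * n + 1) := by omega
    _ ≤ 2 ^ (2 * (2 * n + 1)) := Nat.lt_two_pow_self.le

end

end Q20.RankT
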